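import Mathlib

/-!
# Maximal Banach operator ideals and the local reflexivity property
-/

namespace Pool.Agent.Lib.MP_ffba67_an

open Filter Topology

noncomputable section

/-- Banach spaces over `𝕜`. -/
structure Ban (𝕜 : Type) [RCLike 𝕜] : Type 1 where
  /-- the underlying vector space -/
  carrier : Type
  [grp : NormedAddCommGroup carrier]
  [spc : NormedSpace 𝕜 carrier]
  [cpl : CompleteSpace carrier]

attribute [instance] Ban.grp Ban.spc Ban.cpl

variable {𝕜 : Type} [RCLike 𝕜]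

namespace Ban

/-- The space is finite dimensional. -/
def FinDim (X : Ban 𝕜) : Prop := FiniteDimensional 𝕜 X.carrier

/-- The bounded linear operators from `X` to `Y`. -/
def Op (X Y : Ban 𝕜) : Type := X.carrier →L[𝕜] Y.carrier

/-- The underlying continuous linear map. -/
def Op.toCLM {X Y : Ban 𝕜} (T : X.Op Y) : X.carrier →L[𝕜] Y.carrier := T

/-- The value `T x`. -/
def Op.app {X Y : Ban 𝕜} (T : X.Op Y) (x : X.carrier) : Y.carrier := T.toCLM x

/-- The sum `S + T`. -/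
def Op.add {X Y : Ban 𝕜} (S T : X.Op Y) : X.Op Y := S.toCLM + T.toCLM

/-- The difference `S - T`. -/
def Op.diff {X Y : Ban 𝕜} (S T : X.Op Y) : X.Op Y := S.toCLM - T.toCLM

/-- The multiple `c T`. -/
def Op.scale {X Y : Ban 𝕜} (c : 𝕜) (T : X.Op Y) : X.Op Y := c • T.toCLM

/-- The product `R T`. -/
def Op.mul {X Y Z : Ban 𝕜} (R : Y.Op Z) (T : X.Op Y) : X.Op Z := R.toCLM.comp T.toCLM

/-- The operator norm. -/
def Op.norm {X Y : Ban 𝕜} (T : X.Op Y) : ℝ := ‖T.toCLM‖

/-- The operator has finite rank. -/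
def Op.FiniteRank {X Y : Ban 𝕜} (T : X.Op Y) : Prop :=
  FiniteDimensional 𝕜 (LinearMap.range T.toCLM.toLinearMap)

/-- The identity operator. -/
def one (X : Ban 𝕜) : X.Op X := ContinuousLinearMap.id 𝕜 X.carrier

/-- The scalar field as a Banach space. -/
def scalars (𝕜 : Type) [RCLike 𝕜] : Ban 𝕜 := ⟨𝕜⟩

/-- The dual space. -/
def dual (Y : Ban 𝕜) : Ban 𝕜 := ⟨StrongDual 𝕜 Y.carrier⟩

/-- The functional underlying a vector of the dual space. -/
def toFunctional (Y : Ban 𝕜) (y' : Y.dual.carrier) : StrongDual 𝕜 Y.carrier := y'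

/-- The value `y' y` of a functional at a vector. -/
def pair (Y : Ban 𝕜) (y' : Y.dual.carrier) (y : Y.carrier) : 𝕜 := Y.toFunctional y' y

/-- `z = j_Y y`: the vector `z` of the bidual is the canonical image of `y`. -/
def IsImage (Y : Ban 𝕜) (z : Y.dual.dual.carrier) (y : Y.carrier) : Prop :=
  ∀ y' : Y.dual.carrier, Y.dual.pair z y' = Y.pair y' y

/-- The linear subspaces. -/
abbrev Sub (X : Ban 𝕜) : Type := Submodule 𝕜 X.carrier

/-- A finite dimensional subspace as a Banach space. -/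
def sub (X : Ban 𝕜) (M : X.Sub) (hM : FiniteDimensional 𝕜 M) : Ban 𝕜 :=
  haveI : CompleteSpace M := FiniteDimensional.complete 𝕜 M
  ⟨M⟩

/-- The inclusion map `J_M`. -/
def incl (X : Ban 𝕜) (M : X.Sub) (hM : FiniteDimensional 𝕜 M) : (X.sub M hM).Op X := M.subtypeL

/-- The quotient by a closed subspace. -/
def quot (Y : Ban 𝕜) (L : Y.Sub) (hL : IsClosed (L : Set Y.carrier)) : Ban 𝕜 := ⟨Y.carrier ⧸ L⟩

/-- The quotient map `Q_L`. -/
def proj (Y : Ban 𝕜) (L : Y.Sub) (hL : IsClosed (L : Set Y.carrier)) : Y.Op (Y.quot L hL) := L.mkQL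

end Ban

/-- To every pair of Banach spaces `X`, `Y` a set `comp X Y` of bounded operators, and a real
function `nrm X Y` on the bounded operators (only its values on `comp X Y` matter). -/
structure OpFamily (𝕜 : Type) [RCLike 𝕜] : Type 1 where
  /-- the components -/
  comp : ∀ X Y : Ban 𝕜, Set (X.Op Y)
  /-- the norms -/
  nrm : ∀ X Y : Ban 𝕜, X.Op Y → ℝ

namespace OpFamily

variable (A : OpFamily 𝕜)

/-- The components are linear subspaces. -/
def Linear : Prop :=
  (∀ (X Y : Ban 𝕜) (S T : X.Op Y), S ∈ A.comp X Y → T ∈ A.comp X Y → S.add T ∈ A.comp X Y) ∧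
  ∀ (X Y : Ban 𝕜) (c : 𝕜) (T : X.Op Y), T ∈ A.comp X Y → T.scale c ∈ A.comp X Y

/-- The components contain all finite rank operators. -/
def ContainsFiniteRank : Prop :=
  ∀ (X Y : Ban 𝕜) (T : X.Op Y), T.FiniteRank → T ∈ A.comp X Y

/-- The triangle inequality. -/
def Subadditive : Prop :=
  ∀ (X Y : Ban 𝕜) (S T : X.Op Y), S ∈ A.comp X Y → T ∈ A.comp X Y →
    A.nrm X Y (S.add T) ≤ A.nrm X Y S + A.nrm X Y T

/-- Homogeneity. -/
def Homogeneous : Prop :=
  ∀ (X Y : Ban 𝕜) (c : 𝕜) (T : X.Op Y), T ∈ A.comp X Y → A.nrm X Y (T.scale c) = ‖c‖ * A.nrm X Y T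

/-- The operator norm is dominated. -/
def DominatesNorm : Prop :=
  ∀ (X Y : Ban 𝕜) (T : X.Op Y), T ∈ A.comp X Y → T.norm ≤ A.nrm X Y T

/-- The components are complete. -/
def Complete : Prop :=
  ∀ (X Y : Ban 𝕜) (u : ℕ → X.Op Y), (∀ n, u n ∈ A.comp X Y) →
    (∀ ε > 0, ∃ N, ∀ k ≥ N, ∀ l ≥ N, A.nrm X Y ((u k).diff (u l)) < ε) →
    ∃ T ∈ A.comp X Y, Tendsto (fun n => A.nrm X Y ((u n).diff T)) atTop (𝓝 0)

/-- The identity of the scalar field has norm one. -/
def NormalizedAtId : Prop :=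
  A.nrm (Ban.scalars 𝕜) (Ban.scalars 𝕜) (Ban.one (Ban.scalars 𝕜)) = 1

/-- The ideal property. -/
def IdealProperty : Prop :=
  ∀ (X₀ X Y Y₀ : Ban 𝕜) (R : Y.Op Y₀) (T : X.Op Y) (S : X₀.Op X), T ∈ A.comp X Y →
    R.mul (T.mul S) ∈ A.comp X₀ Y₀ ∧
      A.nrm X₀ Y₀ (R.mul (T.mul S)) ≤ R.norm * A.nrm X Y T * S.norm

/-- Banach operator ideals. -/
structure IsBanachIdeal : Prop where
  linear : A.Linear
  finiteRank : A.ContainsFiniteRank
  add : A.Subadditive
  smul : A.Homogeneous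
  dominates : A.DominatesNorm
  complete : A.Complete
  normalized : A.NormalizedAtId
  ideal : A.IdealProperty

/-- The numbers `𝐀(Q_L T J_M)`, where `M` runs through the finite dimensional subspaces of `X` and
`L` through the closed finite codimensional subspaces of `Y`. -/
def localNorms {X Y : Ban 𝕜} (T : X.Op Y) : Set ℝ :=
  {r | ∃ (M : X.Sub) (hM : FiniteDimensional 𝕜 M) (L : Y.Sub) (hL : IsClosed (L : Set Y.carrier)),
    (Y.quot L hL).FinDim ∧
      r = A.nrm (X.sub M hM) (Y.quot L hL) ((Y.proj L hL).mul (T.mul (X.incl M hM)))}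

/-- Maximality: an operator belongs to the ideal if and only if its local norms are bounded, and
then its norm is the supremum of the local norms. -/
def IsMaximal : Prop :=
  ∀ (X Y : Ban 𝕜) (T : X.Op Y), (T ∈ A.comp X Y ↔ BddAbove (A.localNorms T)) ∧
    (T ∈ A.comp X Y → IsLUB (A.localNorms T) (A.nrm X Y T))

/-- The local reflexivity property `𝔄`-LRP. -/
def LRP : Prop :=
  ∀ (E Y : Ban 𝕜), E.FinDim → ∀ (F : Y.dual.Sub), FiniteDimensional 𝕜 F → ∀ ε : ℝ, 0 < ε →
    ∀ T : E.Op Y.dual.dual, ∃ S : E.Op Y,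
      A.nrm E Y S ≤ (1 + ε) * A.nrm E Y.dual.dual T ∧
      (∀ x : E.carrier, ∀ y' ∈ F, Y.pair y' (S.app x) = Y.dual.pair (T.app x) y') ∧
      ∀ x : E.carrier, (∃ y : Y.carrier, Y.IsImage (T.app x) y) → Y.IsImage (T.app x) (S.app x)

end OpFamily

end

end Pool.Agent.Lib.MP_ffba67_an
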