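import Mathlib

section

/-!
# Averages and signs
-/

namespace Pool.Agent.Lib.MP_ffba67_an

open Finset

noncomputable section

variable {𝕜 : Type} [RCLike 𝕜]

/-- average over a finite type -/
def avg {ι : Type} [Fintype ι] (f : ι → 𝕜) : 𝕜 := (Fintype.card ι : 𝕜)⁻¹ * ∑ i, f i

theorem avg_add {ι : Type} [Fintype ι] (f g : ι → 𝕜) :
    avg (fun i => f i + g i) = avg f + avg g := by
  simp [avg, sum_add_distrib, mul_add]

theorem avg_sub {ι : Type} [Fintype ι] (f g : ι → 𝕜) :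
    avg (fun i => f i - g i) = avg f - avg g := by
  simp [avg, sum_sub_distrib, mul_sub]

theorem avg_mul_left {ι : Type} [Fintype ι] (c : 𝕜) (f : ι → 𝕜) :
    avg (fun i => c * f i) = c * avg f := by
  simp only [avg, ← mul_sum]; ring

theorem avg_mul_right {ι : Type} [Fintype ι] (c : 𝕜) (f : ι → 𝕜) :
    avg (fun i => f i * c) = avg f * c := by
  simp only [avg, ← sum_mul]; ring

theorem avg_sum {ι κ : Type} [Fintype ι] (s : Finset κ) (f : κ → ι → 𝕜) :
    avg (fun i => ∑ k ∈ s, f k i) = ∑ k ∈ s, avg (f k) := by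
  simp only [avg, ← mul_sum]
  rw [sum_comm]

theorem avg_prod {ι κ : Type} [Fintype ι] [Fintype κ] (f : ι × κ → 𝕜) :
    avg f = avg fun i => avg fun k => f (i, k) := by
  simp only [avg, ← mul_sum, Fintype.sum_prod_type, Fintype.card_prod, Nat.cast_mul, mul_inv]
  ring

theorem avg_const {ι : Type} [Fintype ι] [Nonempty ι] (c : 𝕜) : avg (fun _ : ι => c) = c := by
  have h : (Fintype.card ι : 𝕜) ≠ 0 := by simp
  simp only [avg, sum_const, card_univ, nsmul_eq_mul]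
  field_simp

theorem avg_zero {ι : Type} [Fintype ι] : avg (fun _ : ι => (0 : 𝕜)) = 0 := by
  simp [avg]

theorem norm_avg_le {ι : Type} [Fintype ι] {f : ι → 𝕜} {C : ℝ} (hC : 0 ≤ C)
    (h : ∀ i, ‖f i‖ ≤ C) : ‖avg f‖ ≤ C := by
  rcases isEmpty_or_nonempty ι with h0 | h0
  · simp [avg, hC]
  · rw [avg, norm_mul, norm_inv, RCLike.norm_natCast]
    have h1 : ‖∑ i, f i‖ ≤ Fintype.card ι * C := by
      refine (norm_sum_le _ _).trans ((sum_le_sum fun i _ => h i).trans ?_)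
      simp
    have h2 : (0:ℝ) < Fintype.card ι := by
      exact_mod_cast Fintype.card_pos
    rw [inv_mul_le_iff₀ h2]
    exact h1

theorem avg_congr {ι : Type} [Fintype ι] {f g : ι → 𝕜} (h : ∀ i, f i = g i) : avg f = avg g := by
  rw [show f = g from funext h]

/-- the sign of a bit -/
def sg (𝕜 : Type) [RCLike 𝕜] (b : Bool) : 𝕜 := if b then -1 else 1

theorem sg_mul_self (b : Bool) : sg 𝕜 b * sg 𝕜 b = 1 := by
  cases b <;> simp [sg]

theorem norm_sg (b : Bool) : ‖sg 𝕜 b‖ = 1 := by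
  cases b <;> simp [sg]

theorem star_sg (b : Bool) : (starRingEnd 𝕜) (sg 𝕜 b) = sg 𝕜 b := by
  cases b <;> simp [sg]

theorem sg_eq_ofReal (b : Bool) : sg 𝕜 b = ((sg ℝ b : ℝ) : 𝕜) := by
  cases b <;> simp [sg]

/-! ### Walsh functions -/

/-- the Walsh function of a finite set -/
def walsh (𝕜 : Type) [RCLike 𝕜] {ι : Type} (A : Finset ι) (x : ι → Bool) : 𝕜 :=
  ∏ i ∈ A, sg 𝕜 (x i)

theorem norm_walsh {ι : Type} (A : Finset ι) (x : ι → Bool) : ‖walsh 𝕜 A x‖ = 1 := by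
  simp [walsh, norm_prod, norm_sg]

theorem star_walsh {ι : Type} (A : Finset ι) (x : ι → Bool) :
    (starRingEnd 𝕜) (walsh 𝕜 A x) = walsh 𝕜 A x := by
  simp [walsh, map_prod, star_sg]

theorem walsh_mul_self {ι : Type} (A : Finset ι) (x : ι → Bool) :
    walsh 𝕜 A x * walsh 𝕜 A x = 1 := by
  simp [walsh, ← prod_mul_distrib, sg_mul_self]

theorem walsh_mul {ι : Type} [DecidableEq ι] (A B : Finset ι) (x : ι → Bool) :
    walsh 𝕜 A x * walsh 𝕜 B x = walsh 𝕜 (symmDiff A B) x := by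
  have hA : walsh 𝕜 A x = walsh 𝕜 (A \ B) x * walsh 𝕜 (A ∩ B) x := by
    rw [walsh, walsh, walsh, ← prod_union (disjoint_sdiff_inter A B), sdiff_union_inter]
  have hB : walsh 𝕜 B x = walsh 𝕜 (B \ A) x * walsh 𝕜 (A ∩ B) x := by
    rw [walsh, walsh, walsh, inter_comm, ← prod_union (disjoint_sdiff_inter B A),
      sdiff_union_inter]
  have hAB : walsh 𝕜 (symmDiff A B) x = walsh 𝕜 (A \ B) x * walsh 𝕜 (B \ A) x := by
    rw [walsh, walsh, walsh, symmDiff_def, sup_eq_union, prod_union]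
    exact disjoint_sdiff_sdiff
  rw [hA, hB, hAB]
  have := walsh_mul_self (𝕜 := 𝕜) (A ∩ B) x
  linear_combination (walsh 𝕜 (A \ B) x * walsh 𝕜 (B \ A) x) * this

theorem sum_walsh {ι : Type} [Fintype ι] [DecidableEq ι] (A : Finset ι) :
    ∑ x : ι → Bool, walsh 𝕜 A x = if A = ∅ then (2:𝕜) ^ Fintype.card ι else 0 := by
  have h1 : ∀ x : ι → Bool, walsh 𝕜 A x = ∏ i, (if i ∈ A then sg 𝕜 (x i) else 1) := by
    intro x
    rw [walsh, prod_ite_mem, univ_inter]
  simp only [h1]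
  have h2 := (Finset.prod_univ_sum (fun _ : ι => (univ : Finset Bool))
    (fun i b => if i ∈ A then sg 𝕜 b else 1)).symm
  rw [Fintype.piFinset_univ] at h2
  rw [h2]
  split_ifs with hA
  · subst hA
    simp
  · obtain ⟨i, hi⟩ := nonempty_iff_ne_empty.2 hA
    apply prod_eq_zero (mem_univ i)
    simp [hi, sg]

theorem avg_walsh {ι : Type} [Fintype ι] [DecidableEq ι] (A : Finset ι) :
    avg (fun x : ι → Bool => walsh 𝕜 A x) = if A = ∅ then 1 else 0 := by
  rw [avg, sum_walsh]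
  split_ifs
  · simp
  · simp

theorem avg_walsh_mul {ι : Type} [Fintype ι] [DecidableEq ι] (A B : Finset ι) :
    avg (fun x : ι → Bool => walsh 𝕜 A x * walsh 𝕜 B x) = if A = B then 1 else 0 := by
  rw [avg_congr fun x => walsh_mul A B x, avg_walsh]
  congr 1
  rw [← bot_eq_empty, symmDiff_eq_bot]

/-- the kernel of the full Walsh system -/
theorem sum_walsh_kernel {ι : Type} [Fintype ι] [DecidableEq ι] (x y : ι → Bool) :
    ∑ A : Finset ι, walsh 𝕜 A x * walsh 𝕜 A y = if x = y then (2:𝕜) ^ Fintype.card ι else 0 := by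
  have h1 : ∀ A : Finset ι, walsh 𝕜 A x * walsh 𝕜 A y = ∏ i ∈ A, (sg 𝕜 (x i) * sg 𝕜 (y i)) := by
    intro A
    rw [walsh, walsh, ← prod_mul_distrib]
  simp only [h1]
  have h2 := Finset.prod_one_add (s := (univ : Finset ι)) (f := fun i => sg 𝕜 (x i) * sg 𝕜 (y i))
  rw [powerset_univ] at h2
  rw [← h2]
  split_ifs with h
  · subst h
    simp only [sg_mul_self]
    norm_num
  · obtain ⟨i, hi⟩ := Function.ne_iff.1 h
    apply prod_eq_zero (mem_univ i)
    revert hi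
    cases x i <;> cases y i <;> simp [sg]

end

end Pool.Agent.Lib.MP_ffba67_an
end

section

section

/-!
# The index sets, the point sets and the characters of all levels
-/

namespace Pool.Agent.Lib.MP_ffba67_an

open Finset

noncomputable section

/-- iterated products `A × B × ⋯ × B` -/
def Lv (A B : Type) : ℕ → Type
  | 0 => A
  | n + 1 => Lv A B n × B

instance instFintypeLv (A B : Type) [Fintype A] [Fintype B] : ∀ n, Fintype (Lv A B n)
  | 0 => inferInstanceAs (Fintype A)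
  | n + 1 =>
    haveI := instFintypeLv A B n
    inferInstanceAs (Fintype (Lv A B n × B))

instance instDecEqLv (A B : Type) [DecidableEq A] [DecidableEq B] : ∀ n, DecidableEq (Lv A B n)
  | 0 => inferInstanceAs (DecidableEq A)
  | n + 1 =>
    haveI := instDecEqLv A B n
    inferInstanceAs (DecidableEq (Lv A B n × B))

instance instNonemptyLv (A B : Type) [Nonempty A] [Nonempty B] : ∀ n, Nonempty (Lv A B n)
  | 0 => inferInstanceAs (Nonempty A)
  | n + 1 =>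
    haveI := instNonemptyLv A B n
    inferInstanceAs (Nonempty (Lv A B n × B))

theorem card_Lv (A B : Type) [Fintype A] [Fintype B] (n : ℕ) :
    Fintype.card (Lv A B n) = Fintype.card A * Fintype.card B ^ n := by
  induction n with
  | zero => simp; rfl
  | succ n ih =>
    have : Fintype.card (Lv A B (n + 1)) = Fintype.card (Lv A B n × B) := rfl
    rw [this, Fintype.card_prod, ih, pow_succ]
    ring

/-- the sum over a level -/
theorem sum_Lv_succ {A B : Type} [Fintype A] [Fintype B] {M : Type} [AddCommMonoid M] (n : ℕ)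
    (f : Lv A B (n + 1) → M) :
    ∑ x, f x = ∑ x : Lv A B n, ∑ b : B, f (x, b) :=
  Fintype.sum_prod_type (α₁ := Lv A B n) (α₂ := B) f

variable {𝕜 : Type} [RCLike 𝕜]

theorem avg_Lv_succ {A B : Type} [Fintype A] [Fintype B] (n : ℕ)
    (f : Lv A B (n + 1) → 𝕜) :
    avg f = avg fun x : Lv A B n => avg fun b : B => f (x, b) :=
  avg_prod (ι := Lv A B n) (κ := B) f

/-! ### the small Hadamard system -/

/-- the small cube -/
abbrev SS : Type := Fin 8 → Bool

/-- the nontrivial characters of the small cube -/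
abbrev LL : Type := {A : Finset (Fin 8) // A ≠ ∅}

/-- the nontrivial characters -/
def FF (𝕜 : Type) [RCLike 𝕜] (s : SS) (A : LL) : 𝕜 := walsh 𝕜 A.1 s

theorem norm_FF (s : SS) (A : LL) : ‖FF 𝕜 s A‖ = 1 := norm_walsh _ _

theorem star_FF (s : SS) (A : LL) : (starRingEnd 𝕜) (FF 𝕜 s A) = FF 𝕜 s A := star_walsh _ _

theorem avg_FF (A : LL) : avg (fun s => FF 𝕜 s A) = 0 := by
  unfold FF
  rw [avg_walsh, if_neg A.2]

theorem avg_FF_mul (A B : LL) : avg (fun s => FF 𝕜 s A * FF 𝕜 s B) = if A = B then 1 else 0 := by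
  unfold FF
  rw [avg_walsh_mul]
  congr 1
  exact propext Subtype.ext_iff.symm

theorem card_LL : Fintype.card LL = 255 := by
  have h : Fintype.card {A : Finset (Fin 8) // ¬ (A = ∅)}
      = Fintype.card (Finset (Fin 8)) - Fintype.card {A : Finset (Fin 8) // A = ∅} :=
    Fintype.card_subtype_compl _
  rw [Fintype.card_finset, Fintype.card_subtype_eq, Fintype.card_fin] at h
  have h2 : (2:ℕ) ^ 8 - 1 = 255 := by norm_num
  rw [h2] at h
  rw [← h]

/-- the kernel of the nontrivial characters -/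
def kk (s s' : SS) : ℝ := if s = s' then 1 else -(1 / 255)

theorem kk_self (s : SS) : kk s s = 1 := by simp [kk]

theorem kk_mem (s s' : SS) : -(1 / 255) ≤ kk s s' ∧ kk s s' ≤ 1 := by
  unfold kk; split_ifs <;> norm_num

theorem sum_FF_mul (s s' : SS) :
    ∑ A : LL, FF 𝕜 s A * FF 𝕜 s' A = 255 * ((kk s s' : ℝ) : 𝕜) := by
  have h1 := sum_walsh_kernel (𝕜 := 𝕜) s s'
  have h2 : ∑ A : Finset (Fin 8), walsh 𝕜 A s * walsh 𝕜 A s'
      = (∑ A ∈ (univ.filter fun A : Finset (Fin 8) => A ≠ ∅), walsh 𝕜 A s * walsh 𝕜 A s')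
        + ∑ A ∈ (univ.filter fun A : Finset (Fin 8) => ¬ A ≠ ∅), walsh 𝕜 A s * walsh 𝕜 A s' :=
    (sum_filter_add_sum_filter_not _ _ _).symm
  have h3 : (univ.filter fun A : Finset (Fin 8) => ¬ A ≠ ∅) = {∅} := by
    ext A; simp
  have h4 : ∑ A ∈ (univ.filter fun A : Finset (Fin 8) => A ≠ ∅), walsh 𝕜 A s * walsh 𝕜 A s'
      = ∑ A : LL, FF 𝕜 s A * FF 𝕜 s' A := by
    exact sum_subtype _ (fun A => by simp) _
  rw [h3, sum_singleton, h4] at h2
  have h5 : walsh 𝕜 (∅ : Finset (Fin 8)) s * walsh 𝕜 (∅ : Finset (Fin 8)) s' = 1 := by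
    simp [walsh]
  rw [h5] at h2
  have h6 : ∑ A : LL, FF 𝕜 s A * FF 𝕜 s' A = (if s = s' then (2:𝕜) ^ Fintype.card (Fin 8) else 0) - 1 := by
    rw [← h1, h2]; ring
  rw [h6, kk]
  split_ifs
  · simp; norm_num
  · push_cast; norm_num

/-! ### the base system -/

/-- three element subsets -/
abbrev PP (m : ℕ) : Type := {B : Finset (Fin m) // B.card = 3}

/-- the cube -/
abbrev GG (m : ℕ) : Type := Fin m → Bool

/-- indices of level `j` -/
abbrev XX (m : ℕ) (j : ℕ) : Type := Lv (PP m) LL j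

/-- points of level `j` -/
abbrev Pt (m : ℕ) (j : ℕ) : Type := Lv (GG m) SS j

variable {m : ℕ}

/-- the root of a point -/
def root : (j : ℕ) → Pt m j → Pt m 0
  | 0, p => p
  | j + 1, p => root j p.1

/-- coordinates -/
def hh (𝕜 : Type) [RCLike 𝕜] (i : Fin m) (g : Pt m 0) : 𝕜 := sg 𝕜 ((show GG m from g) i)

/-- triple products -/
def u0 (𝕜 : Type) [RCLike 𝕜] (g : GG m) (B : PP m) : 𝕜 := walsh 𝕜 B.1 g

/-- characters of level `j` -/
def uu (𝕜 : Type) [RCLike 𝕜] : (j : ℕ) → Pt m j → XX m j → 𝕜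
  | 0, p, x => u0 𝕜 p x
  | j + 1, p, x => uu 𝕜 j p.1 x.1 * FF 𝕜 p.2 x.2

theorem norm_hh (i : Fin m) (g : Pt m 0) : ‖hh 𝕜 i g‖ = 1 := norm_sg _

theorem star_hh (i : Fin m) (g : Pt m 0) : (starRingEnd 𝕜) (hh 𝕜 i g) = hh 𝕜 i g := star_sg _

theorem hh_mul_self (i : Fin m) (g : Pt m 0) : hh 𝕜 i g * hh 𝕜 i g = 1 := sg_mul_self _

theorem hh_eq_ofReal (i : Fin m) (g : Pt m 0) : hh 𝕜 i g = ((hh ℝ i g : ℝ) : 𝕜) :=
  sg_eq_ofReal _

theorem hh_eq_walsh (i : Fin m) (g : GG m) : hh 𝕜 i g = walsh 𝕜 {i} g := by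
  simp [hh, walsh]

theorem avg_hh_mul (i i' : Fin m) :
    avg (fun g : Pt m 0 => hh 𝕜 i g * hh 𝕜 i' g) = if i = i' then 1 else 0 := by
  have h : avg (fun g : GG m => walsh 𝕜 {i} g * walsh 𝕜 {i'} g) = if i = i' then 1 else 0 := by
    simp only [avg_walsh_mul, singleton_inj]
  rw [← h]
  have h2 : ∀ g : GG m, hh 𝕜 i g * hh 𝕜 i' g = walsh 𝕜 {i} g * walsh 𝕜 {i'} g := by
    intro g
    rw [hh_eq_walsh, hh_eq_walsh]
  exact avg_congr h2

theorem avg_hh_uu (i : Fin m) (x : XX m 0) :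
    avg (fun g : Pt m 0 => hh 𝕜 i g * uu 𝕜 0 g x) = 0 := by
  have h : ∀ B : PP m, avg (fun g : GG m => walsh 𝕜 {i} g * walsh 𝕜 B.1 g) = 0 := by
    intro B
    rw [avg_walsh_mul, if_neg]
    intro h
    have := B.2
    rw [← h] at this
    simp at this
  rw [← h x]
  have h2 : ∀ g : GG m, hh 𝕜 i g * uu 𝕜 0 g x = walsh 𝕜 {i} g * walsh 𝕜 (show PP m from x).1 g := by
    intro g
    rw [hh_eq_walsh]
    rfl
  exact avg_congr h2

theorem avg_u0_mul (B B' : PP m) :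
    avg (fun g : GG m => u0 𝕜 g B * u0 𝕜 g B') = if B = B' then 1 else 0 := by
  simp only [u0, avg_walsh_mul]
  congr 1
  exact propext Subtype.ext_iff.symm

theorem norm_uu : ∀ (j : ℕ) (p : Pt m j) (x : XX m j), ‖uu 𝕜 j p x‖ = 1
  | 0, p, x => norm_walsh _ _
  | j + 1, p, x => by
    rw [uu, norm_mul, norm_uu j, norm_FF, one_mul]

theorem avg_uu_mul : ∀ (j : ℕ) (x x' : XX m j),
    avg (fun p : Pt m j => uu 𝕜 j p x * uu 𝕜 j p x') = if x = x' then 1 else 0
  | 0, x, x' => avg_u0_mul x x'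
  | j + 1, x, x' => by
    rw [avg_Lv_succ]
    have h1 : ∀ (p : Pt m j) (s : SS), uu 𝕜 (j + 1) (p, s) x * uu 𝕜 (j + 1) (p, s) x'
        = (uu 𝕜 j p x.1 * uu 𝕜 j p x'.1) * (FF 𝕜 s x.2 * FF 𝕜 s x'.2) := by
      intro p s
      simp only [uu]
      ring
    simp only [h1, avg_mul_left, avg_mul_right]
    rw [avg_uu_mul j, avg_FF_mul]
    by_cases h : x = x'
    · subst h; simp
    · rw [if_neg h]
      by_cases h2 : x.1 = x'.1
      · rw [if_neg (fun h3 : x.2 = x'.2 => h (Prod.ext h2 h3)), mul_zero]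
      · rw [if_neg h2, zero_mul]

/-- the characters of positive level are orthogonal to all functions of the root -/
theorem avg_uu_root (j : ℕ) (x : XX m (j + 1)) (ψ : Pt m 0 → 𝕜) :
    avg (fun p : Pt m (j + 1) => uu 𝕜 (j + 1) p x * ψ (root (j + 1) p)) = 0 := by
  rw [avg_Lv_succ]
  have h1 : ∀ (p : Pt m j) (s : SS), uu 𝕜 (j + 1) (p, s) x * ψ (root (j + 1) (p, s))
      = (uu 𝕜 j p x.1 * ψ (root j p)) * FF 𝕜 s x.2 := by
    intro p s
    simp only [uu, root]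
    ring
  simp only [h1, avg_mul_left, avg_FF, mul_zero, avg_zero]

/-- averages of functions of the root -/
theorem avg_root : ∀ (j : ℕ) (ψ : Pt m 0 → 𝕜), avg (fun p : Pt m j => ψ (root j p)) = avg ψ
  | 0, ψ => rfl
  | j + 1, ψ => by
    rw [avg_Lv_succ]
    have h1 : ∀ (p : Pt m j), avg (fun s : SS => ψ (root (j + 1) (p, s))) = ψ (root j p) := by
      intro p
      exact avg_const _
    simp only [h1]
    exact avg_root j ψ

end

end Pool.Agent.Lib.MP_ffba67_an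
end

section

/-!
# Choosing signs with exponential moments
-/

namespace Pool.Agent.Lib.MP_ffba67_an

open Finset Real

noncomputable section

theorem sum_exp_signs {X : Type} [Fintype X] [DecidableEq X] (b : X → ℝ) :
    ∑ e : X → Bool, Real.exp (∑ x, sg ℝ (e x) * b x) = ∏ x, (2 * Real.cosh (b x)) := by
  have h1 : ∀ e : X → Bool, Real.exp (∑ x, sg ℝ (e x) * b x) = ∏ x, Real.exp (sg ℝ (e x) * b x) :=
    fun e => Real.exp_sum _ _
  simp only [h1]
  have h2 := (Finset.prod_univ_sum (fun _ : X => (univ : Finset Bool))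
    (fun x c => Real.exp (sg ℝ c * b x))).symm
  rw [Fintype.piFinset_univ] at h2
  rw [h2]
  apply prod_congr rfl
  intro x _
  rw [Fintype.sum_bool, Real.cosh_eq]
  simp [sg]
  ring

theorem exists_signs {X Fam : Type} [Fintype X] [DecidableEq X] [Fintype Fam] (a : Fam → X → ℝ)
    {D Q N : ℝ} (hD : 0 < D) (ha : ∀ f x, |a f x| ≤ D) (hN : 0 < N)
    (hX : (Fintype.card X : ℝ) ≤ N) (hQ : Real.log (2 * Fintype.card Fam) ≤ Q) (hQ0 : 0 < Q) :
    ∃ e : X → Bool, ∀ f, |∑ x, sg ℝ (e x) * a f x| ≤ D * √(2 * N * Q) := by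
  rcases isEmpty_or_nonempty Fam with h0 | h0
  · exact ⟨fun _ => true, fun f => (h0.false f).elim⟩
  set t : ℝ := √(2 * Q / N) / D with ht
  have ht0 : 0 < t := by positivity
  have ht2 : t ^ 2 * D ^ 2 * N / 2 = Q := by
    rw [ht, div_pow, Real.sq_sqrt (by positivity)]
    field_simp
  -- the bound for one function
  have hone : ∀ (b : X → ℝ), (∀ x, |b x| ≤ t * D) →
      ∑ e : X → Bool, Real.exp (∑ x, sg ℝ (e x) * b x) ≤ 2 ^ Fintype.card X * Real.exp Q := by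
    intro b hb
    rw [sum_exp_signs]
    have h1 : ∀ x, 2 * Real.cosh (b x) ≤ 2 * Real.exp ((t * D) ^ 2 / 2) := by
      intro x
      have h2 := Real.cosh_le_exp_half_sq (b x)
      have h3 : b x ^ 2 ≤ (t * D) ^ 2 := by
        rw [← sq_abs]
        exact pow_le_pow_left₀ (abs_nonneg _) (hb x) 2
      have h4 : Real.exp (b x ^ 2 / 2) ≤ Real.exp ((t * D) ^ 2 / 2) := by
        apply Real.exp_le_exp.2; linarith
      linarith
    calc ∏ x, (2 * Real.cosh (b x)) ≤ ∏ _x : X, (2 * Real.exp ((t * D) ^ 2 / 2)) :=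
          prod_le_prod (fun x _ => by have := Real.cosh_pos (b x); positivity) fun x _ => h1 x
      _ = 2 ^ Fintype.card X * Real.exp (Fintype.card X * ((t * D) ^ 2 / 2)) := by
          rw [prod_const, card_univ, mul_pow, ← Real.exp_nat_mul]
      _ ≤ 2 ^ Fintype.card X * Real.exp Q := by
          gcongr
          rw [← ht2]
          have : (Fintype.card X : ℝ) * ((t * D) ^ 2 / 2) ≤ N * ((t * D) ^ 2 / 2) := by gcongr
          calc (Fintype.card X : ℝ) * ((t * D) ^ 2 / 2) ≤ N * ((t * D) ^ 2 / 2) := this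
            _ = t ^ 2 * D ^ 2 * N / 2 := by ring
  set S : Fam → (X → Bool) → ℝ := fun f e => ∑ x, sg ℝ (e x) * a f x with hS
  have htS : ∀ (c : ℝ), |c| ≤ t → ∀ f, ∑ e : X → Bool, Real.exp (c * S f e)
      ≤ 2 ^ Fintype.card X * Real.exp Q := by
    intro c hc f
    have h1 := hone (fun x => c * a f x) (fun x => by
      rw [abs_mul]
      exact mul_le_mul hc (ha f x) (abs_nonneg _) ht0.le)
    have h2 : ∀ e : X → Bool, c * S f e = ∑ x, sg ℝ (e x) * (c * a f x) := by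
      intro e
      rw [hS, mul_sum]
      exact sum_congr rfl fun x _ => by ring
    simp only [h2]
    exact h1
  have hsum : ∑ e : X → Bool, ∑ f, (Real.exp (t * S f e) + Real.exp (-t * S f e))
      ≤ ∑ _e : X → Bool, (2 * Fintype.card Fam) * Real.exp Q := by
    rw [sum_comm]
    have h1 : ∀ f, ∑ e : X → Bool, (Real.exp (t * S f e) + Real.exp (-t * S f e))
        ≤ 2 * (2 ^ Fintype.card X * Real.exp Q) := by
      intro f
      rw [sum_add_distrib]
      have h2 := htS t (le_of_eq (abs_of_pos ht0)) f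
      have h3 := htS (-t) (by rw [abs_neg, abs_of_pos ht0]) f
      linarith
    refine (sum_le_sum fun f _ => h1 f).trans (le_of_eq ?_)
    simp only [sum_const, card_univ, nsmul_eq_mul, Fintype.card_pi, Fintype.card_bool,
      prod_const, Nat.cast_pow, Nat.cast_ofNat]
    ring
  obtain ⟨e, -, he⟩ := exists_le_of_sum_le (univ_nonempty) hsum
  refine ⟨e, fun f => ?_⟩
  have h1 : Real.exp (t * |S f e|) ≤ 2 * Fintype.card Fam * Real.exp Q := by
    have h2 : Real.exp (t * S f e) + Real.exp (-t * S f e)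
        ≤ ∑ f, (Real.exp (t * S f e) + Real.exp (-t * S f e)) :=
      single_le_sum (f := fun f => Real.exp (t * S f e) + Real.exp (-t * S f e))
        (fun f _ => by positivity) (mem_univ f)
    have h3 : Real.exp (t * |S f e|) ≤ Real.exp (t * S f e) + Real.exp (-t * S f e) := by
      rcases abs_cases (S f e) with ⟨h, -⟩ | ⟨h, -⟩
      · rw [h]; linarith [Real.exp_pos (-t * S f e)]
      · rw [h, mul_neg, ← neg_mul]; linarith [Real.exp_pos (t * S f e)]
    exact h3.trans (h2.trans he)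
  have hcard : (0:ℝ) < 2 * Fintype.card Fam := by
    have : 0 < Fintype.card Fam := Fintype.card_pos
    positivity
  have h4 : t * |S f e| ≤ 2 * Q := by
    have h5 := Real.log_le_log (Real.exp_pos _) h1
    rw [Real.log_exp, Real.log_mul hcard.ne' (Real.exp_pos _).ne', Real.log_exp] at h5
    linarith
  have h6 : |S f e| ≤ 2 * Q / t := by
    rw [le_div_iff₀ ht0]; linarith
  refine h6.trans (le_of_eq ?_)
  rw [ht, div_div_eq_mul_div]
  have h7 : √(2 * N * Q) = N * √(2 * Q / N) := by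
    have : 2 * N * Q = N ^ 2 * (2 * Q / N) := by field_simp
    rw [this, Real.sqrt_mul (by positivity), Real.sqrt_sq hN.le]
  rw [h7]
  have h8 : √(2 * Q / N) ≠ 0 := by positivity
  have h9 : √(2 * Q / N) ^ 2 = 2 * Q / N := Real.sq_sqrt (by positivity)
  rw [div_eq_iff h8]
  have h10 : D * (N * √(2 * Q / N)) * √(2 * Q / N) = D * N * √(2 * Q / N) ^ 2 := by ring
  rw [h10, h9]
  field_simp

end

end Pool.Agent.Lib.MP_ffba67_an
end

section

/-!
# Good signs
-/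

namespace Pool.Agent.Lib.MP_ffba67_an

open Finset Real

noncomputable section

variable {𝕜 : Type} [RCLike 𝕜]

theorem norm_le_re_add_im (z : 𝕜) : ‖z‖ ≤ |RCLike.re z| + |RCLike.im z| := by
  have h := RCLike.norm_sq_eq_def (z := z)
  have h1 := abs_nonneg (RCLike.re z)
  have h2 := abs_nonneg (RCLike.im z)
  have h3 := abs_mul_abs_self (RCLike.re z)
  have h4 := abs_mul_abs_self (RCLike.im z)
  apply le_of_sq_le_sq _ (by positivity)
  nlinarith [mul_nonneg h1 h2]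

/-- a bilinear form given by a matrix -/
def bil {X : Type} [Fintype X] (W : X → X → 𝕜) (a b : X → 𝕜) : 𝕜 :=
  ∑ x, ∑ x', a x * W x x' * b x'

/-- row and column sums are at most `D` -/
def Bdd {X : Type} [Fintype X] (W : X → X → 𝕜) (D : ℝ) : Prop :=
  (∀ x, ∑ x', ‖W x x'‖ ≤ D) ∧ ∀ x', ∑ x, ‖W x x'‖ ≤ D

theorem bil_comm_sum {X : Type} [Fintype X] (W : X → X → 𝕜) (a b : X → 𝕜) :
    bil W a b = ∑ x', ∑ x, a x * W x x' * b x' := by
  rw [bil, sum_comm]

theorem sign_step {X V P Q : Type} [Fintype X] [DecidableEq X] [Fintype V] [Fintype P] [Fintype Q]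
    (W : V → X → X → 𝕜) {D : ℝ} (hD : 0 < D) (hW : ∀ v, Bdd (W v) D) (u : P → X → 𝕜)
    (hu : ∀ p x, ‖u p x‖ ≤ 1) (c : Q → X → 𝕜) (hc : ∀ q x, ‖c q x‖ ≤ 1) {N L : ℝ} (hN : 0 < N)
    (hX : (Fintype.card X : ℝ) ≤ N)
    (hL : Real.log (2 * Fintype.card (Bool × Bool × V × P × Q)) ≤ L) (hL0 : 0 < L) :
    ∃ e : X → Bool, ∀ v p q, ‖bil (W v) (fun x => u p x * sg 𝕜 (e x)) (c q)‖ ≤ 2 * (D * √(2 * N * L)) ∧
      ‖bil (W v) (c q) (fun x => u p x * sg 𝕜 (e x))‖ ≤ 2 * (D * √(2 * N * L)) := by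
  classical
  -- the coefficients
  set co : Bool → V → P → Q → X → 𝕜 := fun ty v p q x =>
    if ty then u p x * ∑ x', W v x x' * c q x' else (∑ x', c q x' * W v x' x) * u p x with hco
  have hcon : ∀ ty v p q x, ‖co ty v p q x‖ ≤ D := by
    intro ty v p q x
    cases ty
    · simp only [hco, Bool.false_eq_true, if_false, norm_mul]
      have h1 : ‖∑ x', c q x' * W v x' x‖ ≤ D := by
        refine (norm_sum_le _ _).trans (le_trans (sum_le_sum fun x' _ => ?_) ((hW v).2 x))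
        rw [norm_mul]
        exact mul_le_of_le_one_left (norm_nonneg _) (hc q x')
      calc ‖∑ x', c q x' * W v x' x‖ * ‖u p x‖ ≤ D * 1 :=
            mul_le_mul h1 (hu p x) (norm_nonneg _) hD.le
        _ = D := mul_one _
    · simp only [hco, if_true, norm_mul]
      have h1 : ‖∑ x', W v x x' * c q x'‖ ≤ D := by
        refine (norm_sum_le _ _).trans (le_trans (sum_le_sum fun x' _ => ?_) ((hW v).1 x))
        rw [norm_mul]
        exact mul_le_of_le_one_right (norm_nonneg _) (hc q x')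
      calc ‖u p x‖ * ‖∑ x', W v x x' * c q x'‖ ≤ 1 * D :=
            mul_le_mul (hu p x) h1 (norm_nonneg _) zero_le_one
        _ = D := one_mul _
  obtain ⟨e, he⟩ := exists_signs (X := X) (Fam := Bool × Bool × V × P × Q)
    (fun f x => if f.1 then RCLike.re (co f.2.1 f.2.2.1 f.2.2.2.1 f.2.2.2.2 x)
      else RCLike.im (co f.2.1 f.2.2.1 f.2.2.2.1 f.2.2.2.2 x)) hD (fun f x => by
        split_ifs
        · exact (RCLike.abs_re_le_norm _).trans (hcon _ _ _ _ _)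
        · exact (RCLike.abs_im_le_norm _).trans (hcon _ _ _ _ _)) hN hX hL hL0
  have hkey : ∀ ty v p q, ‖∑ x, sg 𝕜 (e x) * co ty v p q x‖ ≤ 2 * (D * √(2 * N * L)) := by
    intro ty v p q
    have h1 := he (true, ty, v, p, q)
    have h2 := he (false, ty, v, p, q)
    simp only [if_true, Bool.false_eq_true, if_false] at h1 h2
    have h3 : RCLike.re (∑ x, sg 𝕜 (e x) * co ty v p q x)
        = ∑ x, sg ℝ (e x) * RCLike.re (co ty v p q x) := by
      rw [map_sum]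
      exact sum_congr rfl fun x _ => by rw [sg_eq_ofReal (𝕜 := 𝕜), RCLike.re_ofReal_mul]
    have h4 : RCLike.im (∑ x, sg 𝕜 (e x) * co ty v p q x)
        = ∑ x, sg ℝ (e x) * RCLike.im (co ty v p q x) := by
      rw [map_sum]
      exact sum_congr rfl fun x _ => by rw [sg_eq_ofReal (𝕜 := 𝕜), RCLike.im_ofReal_mul]
    rw [← h3] at h1
    rw [← h4] at h2
    have h5 := norm_le_re_add_im (∑ x, sg 𝕜 (e x) * co ty v p q x)
    linarith
  refine ⟨e, fun v p q => ⟨?_, ?_⟩⟩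
  · have h1 : bil (W v) (fun x => u p x * sg 𝕜 (e x)) (c q) = ∑ x, sg 𝕜 (e x) * co true v p q x := by
      rw [bil]
      apply sum_congr rfl
      intro x _
      simp only [hco, if_true, mul_sum]
      exact sum_congr rfl fun x' _ => by ring
    rw [h1]
    exact hkey true v p q
  · have h1 : bil (W v) (c q) (fun x => u p x * sg 𝕜 (e x)) = ∑ x, sg 𝕜 (e x) * co false v p q x := by
      rw [bil_comm_sum]
      apply sum_congr rfl
      intro x _
      simp only [hco, Bool.false_eq_true, if_false, sum_mul, mul_sum]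
      exact sum_congr rfl fun x' _ => by ring
    rw [h1]
    exact hkey false v p q

/-- several independent choices of signs at once -/
theorem sign_family {X V P S : Type} [Fintype X] [DecidableEq X] [Fintype V] [Fintype P]
    [Fintype S] [DecidableEq S]
    (W : V → X → X → 𝕜) {D : ℝ} (hD : 0 < D) (hW : ∀ v, Bdd (W v) D) (u : P → X → 𝕜)
    (hu : ∀ p x, ‖u p x‖ ≤ 1) (c : P → X → 𝕜) (hc : ∀ q x, ‖c q x‖ ≤ 1) {N L : ℝ} (hN : 0 < N)
    (hX : (Fintype.card X : ℝ) ≤ N)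
    (hL : Real.log (2 * Fintype.card (Bool × Bool × V × P × (P ⊕ P ⊕ S × P))) ≤ L)
    (hL0 : 0 < L) :
    ∃ e : S → X → Bool, ∀ v, ∀ s : S, ∀ p p' : P,
      ‖bil (W v) (fun x => u p x * sg 𝕜 (e s x)) (u p')‖ ≤ 2 * (D * √(2 * N * L)) ∧
      ‖bil (W v) (u p') (fun x => u p x * sg 𝕜 (e s x))‖ ≤ 2 * (D * √(2 * N * L)) ∧
      ‖bil (W v) (fun x => u p x * sg 𝕜 (e s x)) (c p')‖ ≤ 2 * (D * √(2 * N * L)) ∧
      ‖bil (W v) (c p') (fun x => u p x * sg 𝕜 (e s x))‖ ≤ 2 * (D * √(2 * N * L)) ∧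
      ∀ s', s' ≠ s → ‖bil (W v) (fun x => u p x * sg 𝕜 (e s x))
        (fun x => u p' x * sg 𝕜 (e s' x))‖ ≤ 2 * (D * √(2 * N * L)) := by
  classical
  have key : ∀ A : Finset S, ∃ e : S → X → Bool, ∀ v, ∀ s ∈ A, ∀ p p' : P,
      ‖bil (W v) (fun x => u p x * sg 𝕜 (e s x)) (u p')‖ ≤ 2 * (D * √(2 * N * L)) ∧
      ‖bil (W v) (u p') (fun x => u p x * sg 𝕜 (e s x))‖ ≤ 2 * (D * √(2 * N * L)) ∧
      ‖bil (W v) (fun x => u p x * sg 𝕜 (e s x)) (c p')‖ ≤ 2 * (D * √(2 * N * L)) ∧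
      ‖bil (W v) (c p') (fun x => u p x * sg 𝕜 (e s x))‖ ≤ 2 * (D * √(2 * N * L)) ∧
      ∀ s' ∈ A, s' ≠ s → ‖bil (W v) (fun x => u p x * sg 𝕜 (e s x))
        (fun x => u p' x * sg 𝕜 (e s' x))‖ ≤ 2 * (D * √(2 * N * L)) := by
    intro A
    induction A using Finset.induction_on with
    | empty => exact ⟨fun _ _ => true, fun v s hs => absurd hs (notMem_empty _)⟩
    | insert s₀ A hs₀ ih =>
      obtain ⟨e, he⟩ := ih
      obtain ⟨e₀, he₀⟩ := sign_step (Q := P ⊕ P ⊕ S × P) W hD hW u hu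
        (fun q => Sum.elim u (Sum.elim c (fun sp x => u sp.2 x * sg 𝕜 (e sp.1 x))) q) (by
          rintro (q | q | q) x
          · exact hu q x
          · exact hc q x
          · show ‖u q.2 x * sg 𝕜 (e q.1 x)‖ ≤ 1
            rw [norm_mul, norm_sg, mul_one]; exact hu _ _) hN hX hL hL0
      refine ⟨Function.update e s₀ e₀, fun v s hs p p' => ?_⟩
      rcases eq_or_ne s s₀ with rfl | hne
      · rw [Function.update_self]
        refine ⟨(he₀ v p (Sum.inl p')).1, (he₀ v p (Sum.inl p')).2,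
          (he₀ v p (Sum.inr (Sum.inl p'))).1, (he₀ v p (Sum.inr (Sum.inl p'))).2, ?_⟩
        intro s' _ hs'
        rw [Function.update_of_ne hs']
        exact (he₀ v p (Sum.inr (Sum.inr (s', p')))).1
      · have hsA : s ∈ A := by
          rcases mem_insert.1 hs with h | h
          · exact absurd h hne
          · exact h
        rw [Function.update_of_ne hne]
        obtain ⟨h1, h2, h3, h4, h5⟩ := he v s hsA p p'
        refine ⟨h1, h2, h3, h4, ?_⟩
        intro s' hs' hss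
        rcases eq_or_ne s' s₀ with rfl | hne'
        · rw [Function.update_self]
          exact (he₀ v p' (Sum.inr (Sum.inr (s, p)))).2
        · rw [Function.update_of_ne hne']
          refine h5 s' ?_ hss
          rcases mem_insert.1 hs' with h | h
          · exact absurd h hne'
          · exact h
  obtain ⟨e, he⟩ := key univ
  refine ⟨e, fun v s p p' => ?_⟩
  obtain ⟨h1, h2, h3, h4, h5⟩ := he v s (mem_univ s) p p'
  exact ⟨h1, h2, h3, h4, fun s' hs' => h5 s' (mem_univ _) hs'⟩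

/-! ### lifting matrices to all levels -/

variable {m : ℕ}

/-- the lifted matrix -/
def lift (W : PP m → PP m → 𝕜) : (j : ℕ) → XX m j → XX m j → 𝕜
  | 0, x, x' => W x x'
  | j + 1, x, x' => if x.2 = x'.2 then lift W j x.1 x'.1 else 0

theorem bdd_lift {W : PP m → PP m → 𝕜} {D : ℝ} (h : Bdd W D) : ∀ j, Bdd (lift W j) D
  | 0 => h
  | j + 1 => by
    obtain ⟨h1, h2⟩ := bdd_lift h j
    constructor
    · intro x
      rw [sum_Lv_succ]
      have h3 : ∀ y : XX m j, ∑ b : LL, ‖lift W (j + 1) x (y, b)‖ = ‖lift W j x.1 y‖ := by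
        intro y
        rw [sum_eq_single x.2]
        · simp [lift]
        · intro b _ hb
          simp only [lift]
          rw [if_neg (Ne.symm hb), norm_zero]
        · intro h; exact absurd (mem_univ _) h
      simp only [h3]
      exact h1 x.1
    · intro x'
      rw [sum_Lv_succ]
      have h3 : ∀ y : XX m j, ∑ b : LL, ‖lift W (j + 1) (y, b) x'‖ = ‖lift W j y x'.1‖ := by
        intro y
        rw [sum_eq_single x'.2]
        · simp [lift]
        · intro b _ hb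
          simp only [lift]
          rw [if_neg hb, norm_zero]
        · intro h; exact absurd (mem_univ _) h
      simp only [h3]
      exact h2 x'.1

theorem bil_lift_succ (W : PP m → PP m → 𝕜) (j : ℕ) (a b : XX m j → 𝕜) (α β : LL → 𝕜) :
    bil (lift W (j + 1)) (fun x => a x.1 * α x.2) (fun x => b x.1 * β x.2)
      = bil (lift W j) a b * ∑ A, α A * β A := by
  rw [bil, sum_Lv_succ, bil, sum_mul]
  apply sum_congr rfl
  intro x _
  rw [sum_mul, sum_comm]
  have h1 : ∀ A : LL, ∑ x' : XX m (j + 1), (a (x, A).1 * α (x, A).2) * lift W (j + 1) (x, A) x'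
      * (b x'.1 * β x'.2) = ∑ x' : XX m j, a x * lift W j x x' * b x' * (α A * β A) := by
    intro A
    rw [sum_Lv_succ]
    apply sum_congr rfl
    intro x' _
    rw [sum_eq_single A]
    · simp only [lift, if_true]
      ring
    · intro A' _ hA'
      simp only [lift]
      rw [if_neg (Ne.symm hA')]
      ring
    · intro h; exact absurd (mem_univ _) h
  rw [sum_comm]
  simp only [h1]
  rw [sum_comm]
  apply sum_congr rfl
  intro x' _
  rw [mul_sum]

end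

end Pool.Agent.Lib.MP_ffba67_an
end

section

/-!
# A good system of signs on all levels
-/

namespace Pool.Agent.Lib.MP_ffba67_an

open Finset Real

noncomputable section

variable {𝕜 : Type} [RCLike 𝕜] {m : ℕ}

/-- the normalizing constants -/
def NN (m j : ℕ) : ℝ := (m:ℝ) ^ 3 * 255 ^ j

theorem NN_pos (hm : 0 < m) (j : ℕ) : 0 < NN m j := by
  unfold NN
  have : (0:ℝ) < m := by exact_mod_cast hm
  positivity

theorem NN_succ (j : ℕ) : NN m (j + 1) = NN m j * 255 := by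
  unfold NN; ring

theorem card_XX_le (j : ℕ) : (Fintype.card (XX m j) : ℝ) ≤ NN m j := by
  rw [card_Lv, card_LL, NN]
  push_cast
  gcongr
  have h1 : Fintype.card (PP m) = Nat.choose m 3 := by
    have := Fintype.card_finset_len (α := Fin m) 3
    rw [Fintype.card_fin] at this
    exact this
  rw [h1]
  exact_mod_cast Nat.choose_le_pow m 3

/-- the normalized bilinear form of level `j` -/
def KK (W : PP m → PP m → 𝕜) (j : ℕ) (a b : XX m j → 𝕜) : 𝕜 :=
  ((NN m j : ℝ) : 𝕜)⁻¹ * bil (lift W j) a b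

theorem KK_succ (W : PP m → PP m → 𝕜) (j : ℕ) (a b : XX m j → 𝕜) (s s' : SS) :
    KK W (j + 1) (fun x => a x.1 * FF 𝕜 s x.2) (fun x => b x.1 * FF 𝕜 s' x.2)
      = ((kk s s' : ℝ) : 𝕜) * KK W j a b := by
  rw [KK, bil_lift_succ, sum_FF_mul, KK, NN_succ]
  push_cast
  rw [mul_inv]
  have : (255 : 𝕜) ≠ 0 := by norm_num
  field_simp

/-- the twisted characters of level `j` -/
def pp (e : (j : ℕ) → SS → XX m j → Bool) (j : ℕ) (p : Pt m j) (s : SS) (x : XX m j) : 𝕜 :=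
  uu 𝕜 j p x * sg 𝕜 (e j s x)

/-- the twisted characters of the preceding level, as vectors of the next level -/
def qv (e : (j : ℕ) → SS → XX m j → Bool) : (j : ℕ) → Pt m j → XX m j → 𝕜
  | 0, p, x => uu 𝕜 0 p x
  | j + 1, p, x => pp e j p.1 p.2 x.1 * FF 𝕜 p.2 x.2

theorem norm_pp (e : (j : ℕ) → SS → XX m j → Bool) (j : ℕ) (p : Pt m j) (s : SS) (x : XX m j) :
    ‖(pp e j p s x : 𝕜)‖ = 1 := by
  rw [pp, norm_mul, norm_uu, norm_sg, one_mul]

/-- a good system of signs -/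
def GoodSys {V : Type} (W : V → PP m → PP m → 𝕜) (η : ℕ → ℝ)
    (e : (j : ℕ) → SS → XX m j → Bool) : Prop :=
  ∀ (j : ℕ) (v : V) (s : SS) (p p' : Pt m j),
    ‖KK (W v) j (pp e j p s) (uu 𝕜 j p')‖ ≤ η j ∧
    ‖KK (W v) j (uu 𝕜 j p') (pp e j p s)‖ ≤ η j ∧
    ‖KK (W v) j (pp e j p s) (qv e j p')‖ ≤ η j ∧
    ‖KK (W v) j (qv e j p') (pp e j p s)‖ ≤ η j ∧
    ∀ s', s' ≠ s → ‖KK (W v) j (pp e j p s) (pp e j p' s')‖ ≤ η j

theorem exists_level {V : Type} [Fintype V] (hm : 0 < m) (W : V → PP m → PP m → 𝕜) {D : ℝ}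
    (hD : 0 < D) (hW : ∀ v, Bdd (W v) D) (j : ℕ) {L η : ℝ}
    (hL : Real.log (2 * Fintype.card (Bool × Bool × V × Pt m j × (Pt m j ⊕ Pt m j ⊕ SS × Pt m j))) ≤ L)
    (hL0 : 0 < L) (hη : 2 * (D * √(2 * NN m j * L)) ≤ NN m j * η)
    (c : Pt m j → XX m j → 𝕜) (hc : ∀ p x, ‖c p x‖ ≤ 1) :
    ∃ e : SS → XX m j → Bool, ∀ (v : V) (s : SS) (p p' : Pt m j),
      ‖KK (W v) j (fun x => uu 𝕜 j p x * sg 𝕜 (e s x)) (uu 𝕜 j p')‖ ≤ η ∧
      ‖KK (W v) j (uu 𝕜 j p') (fun x => uu 𝕜 j p x * sg 𝕜 (e s x))‖ ≤ η ∧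
      ‖KK (W v) j (fun x => uu 𝕜 j p x * sg 𝕜 (e s x)) (c p')‖ ≤ η ∧
      ‖KK (W v) j (c p') (fun x => uu 𝕜 j p x * sg 𝕜 (e s x))‖ ≤ η ∧
      ∀ s', s' ≠ s → ‖KK (W v) j (fun x => uu 𝕜 j p x * sg 𝕜 (e s x))
        (fun x => uu 𝕜 j p' x * sg 𝕜 (e s' x))‖ ≤ η := by
  obtain ⟨e, he⟩ := sign_family (fun v => lift (W v) j) hD (fun v => bdd_lift (hW v) j)
    (uu 𝕜 j) (fun p x => (norm_uu j p x).le) c hc (NN_pos hm j) (card_XX_le j) hL hL0
  refine ⟨e, fun v s p p' => ?_⟩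
  obtain ⟨h1, h2, h3, h4, h5⟩ := he v s p p'
  have hN := NN_pos hm j
  have key : ∀ a b : XX m j → 𝕜, ‖bil (lift (W v) j) a b‖ ≤ 2 * (D * √(2 * NN m j * L)) →
      ‖KK (W v) j a b‖ ≤ η := by
    intro a b hab
    rw [KK, norm_mul, norm_inv, RCLike.norm_ofReal, abs_of_pos hN, inv_mul_le_iff₀ hN]
    exact hab.trans hη
  exact ⟨key _ _ h1, key _ _ h2, key _ _ h3, key _ _ h4, fun s' hs' => key _ _ (h5 s' hs')⟩

theorem exists_goodSys {V : Type} [Fintype V] (hm : 0 < m) (W : V → PP m → PP m → 𝕜) {D : ℝ}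
    (hD : 0 < D) (hW : ∀ v, Bdd (W v) D) {L η : ℕ → ℝ}
    (hL : ∀ j, Real.log (2 * Fintype.card
      (Bool × Bool × V × Pt m j × (Pt m j ⊕ Pt m j ⊕ SS × Pt m j))) ≤ L j)
    (hL0 : ∀ j, 0 < L j) (hη : ∀ j, 2 * (D * √(2 * NN m j * L j)) ≤ NN m j * η j) :
    ∃ e : (j : ℕ) → SS → XX m j → Bool, GoodSys W η e := by
  have H := fun (j : ℕ) (c : {c : Pt m j → XX m j → 𝕜 // ∀ p x, ‖c p x‖ ≤ 1}) =>
    exists_level hm W hD hW j (hL j) (hL0 j) (hη j) c.1 c.2
  choose ch hch using H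
  let st : (j : ℕ) → {c : Pt m j → XX m j → 𝕜 // ∀ p x, ‖c p x‖ ≤ 1} := fun j =>
    Nat.rec (motive := fun j => {c : Pt m j → XX m j → 𝕜 // ∀ p x, ‖c p x‖ ≤ 1})
      ⟨fun p x => uu 𝕜 0 p x, fun p x => (norm_uu 0 p x).le⟩
      (fun j c => ⟨fun p x => (uu 𝕜 j p.1 x.1 * sg 𝕜 (ch j c p.2 x.1)) * FF 𝕜 p.2 x.2,
        fun p x => by rw [norm_mul, norm_mul, norm_uu, norm_sg, norm_FF]; norm_num⟩) j
  let e : (j : ℕ) → SS → XX m j → Bool := fun j => ch j (st j)
  have hst : ∀ j, (st j).1 = qv e j := by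
    intro j
    cases j with
    | zero => rfl
    | succ j => rfl
  refine ⟨e, fun j v s p p' => ?_⟩
  have := hch j (st j) v s p p'
  rw [hst j] at this
  exact this

end

end Pool.Agent.Lib.MP_ffba67_an
end

section

/-!
# The Banach space `Y` and the finite dimensional spaces `Z n`
-/

namespace Pool.Agent.Lib.MP_ffba67_an

open Finset Filter Topology
open scoped ENNReal

noncomputable section

variable {𝕜 : Type} [RCLike 𝕜] {m : ℕ}

/-- the evaluation points -/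
inductive Om (m : ℕ) : Type
  | en (g : Pt m 0) : Om m
  | tr (j : ℕ) (p : Pt m (j + 1)) : Om m
  | ex (n : ℕ) (p : Pt m (n + 1)) : Om m

/-- averages against a weight -/
def av {ι : Type} [Fintype ι] (w : ι → 𝕜) (π : ι → Om m) : (Om m → 𝕜) →ₗ[𝕜] 𝕜 where
  toFun f := avg fun i => w i * f (π i)
  map_add' f g := by
    rw [← avg_add]
    exact avg_congr fun i => by simp [mul_add]
  map_smul' c f := by
    rw [RingHom.id_apply, smul_eq_mul, ← avg_mul_left]
    exact avg_congr fun i => by simp; ring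

theorem av_apply {ι : Type} [Fintype ι] (w : ι → 𝕜) (π : ι → Om m) (f : Om m → 𝕜) :
    av w π f = avg fun i => w i * f (π i) := rfl

theorem norm_av_le {ι : Type} [Fintype ι] {w : ι → 𝕜} (hw : ∀ i, ‖w i‖ ≤ 1) (π : ι → Om m)
    {f : Om m → 𝕜} {C : ℝ} (hC : 0 ≤ C) (hf : ∀ i, ‖f (π i)‖ ≤ C) : ‖av w π f‖ ≤ C := by
  rw [av_apply]
  refine norm_avg_le hC fun i => ?_
  rw [norm_mul]
  calc ‖w i‖ * ‖f (π i)‖ ≤ 1 * C := mul_le_mul (hw i) (hf i) (norm_nonneg _) zero_le_one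
    _ = C := one_mul C

/-- bounded functions on the set of points -/
abbrev LI (𝕜 : Type) [RCLike 𝕜] (m : ℕ) := lp (fun _ : Om m => 𝕜) ∞

/-- the function underlying an element of `ℓ^∞` -/
def fn (f : LI 𝕜 m) : Om m → 𝕜 := fun ω => f ω

theorem fn_add (f g : LI 𝕜 m) : fn (f + g) = fn f + fn g := rfl

theorem fn_sub (f g : LI 𝕜 m) : fn (f - g) = fn f - fn g := rfl

theorem fn_smul (c : 𝕜) (f : LI 𝕜 m) : fn (c • f) = c • fn f := rfl

theorem fn_zero : fn (0 : LI 𝕜 m) = 0 := rfl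

theorem norm_fn_le (f : LI 𝕜 m) (ω : Om m) : ‖fn f ω‖ ≤ ‖f‖ :=
  lp.norm_apply_le_norm ENNReal.top_ne_zero f ω

theorem fn_injective : Function.Injective (fn : LI 𝕜 m → Om m → 𝕜) := fun _ _ h => lp.ext h

theorem continuous_fn_apply (ω : Om m) : Continuous fun f : LI 𝕜 m => fn f ω :=
  (lp.evalCLM 𝕜 (fun _ : Om m => 𝕜) ∞ ω).continuous

theorem continuous_av {ι : Type} [Fintype ι] (w : ι → 𝕜) (π : ι → Om m) :
    Continuous fun f : LI 𝕜 m => av w π (fn f) := by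
  simp only [av_apply, avg]
  exact continuous_const.mul (continuous_finsetSum _ fun i _ =>
    continuous_const.mul (continuous_fn_apply _))

/-- an element of `ℓ^∞` from a bounded function -/
def mk (f : Om m → 𝕜) (C : ℝ) (h : ∀ ω, ‖f ω‖ ≤ C) : LI 𝕜 m :=
  ⟨f, memℓp_infty ⟨C, by rintro _ ⟨ω, rfl⟩; exact h ω⟩⟩

theorem fn_mk (f : Om m → 𝕜) (C : ℝ) (h : ∀ ω, ‖f ω‖ ≤ C) : fn (mk f C h) = f := rfl

theorem norm_le_of_fn {f : LI 𝕜 m} {C : ℝ} (hC : 0 ≤ C) (h : ∀ ω, ‖fn f ω‖ ≤ C) : ‖f‖ ≤ C :=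
  lp.norm_le_of_forall_le hC h

/-! ### the functionals -/

/-- entrance coefficients -/
def En0 (B : XX m 0) : (Om m → 𝕜) →ₗ[𝕜] 𝕜 := av (fun g => uu 𝕜 0 g B) Om.en

/-- lower transfer coefficients -/
def Tt (e : (j : ℕ) → SS → XX m j → Bool) (j : ℕ) (x : XX m j) : (Om m → 𝕜) →ₗ[𝕜] 𝕜 :=
  av (fun p : Pt m (j + 1) => pp e j p.1 p.2 x) (Om.tr j)

/-- upper transfer coefficients -/
def Qup (e : (j : ℕ) → SS → XX m j → Bool) (j : ℕ) (x : XX m (j + 1)) : (Om m → 𝕜) →ₗ[𝕜] 𝕜 :=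
  av (fun p : Pt m (j + 1) => qv e (j + 1) p x) (Om.tr j)

/-- exit coefficients -/
def Ee (n : ℕ) (x : XX m (n + 1)) : (Om m → 𝕜) →ₗ[𝕜] 𝕜 :=
  av (fun p : Pt m (n + 1) => uu 𝕜 (n + 1) p x) (Om.ex n)

/-- the functionals of the entrance -/
def xi (i : Fin m) : (Om m → 𝕜) →ₗ[𝕜] 𝕜 := av (fun g => hh 𝕜 i g) Om.en

/-- the functionals of the exits -/
def xin (n : ℕ) (i : Fin m) : (Om m → 𝕜) →ₗ[𝕜] 𝕜 :=
  av (fun p : Pt m (n + 1) => hh 𝕜 i (root (n + 1) p)) (Om.ex n)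

/-- the relations -/
structure Rel (e : (j : ℕ) → SS → XX m j → Bool) (f : Om m → 𝕜) : Prop where
  c0 : ∀ B, En0 B f = Tt e 0 B f
  cj : ∀ j x, Qup e j x f = Tt e (j + 1) x f
  ce : ∀ n x, Ee n x f = Qup e n x f

/-- the space `Y` -/
def Ysub (𝕜 : Type) [RCLike 𝕜] (e : (j : ℕ) → SS → XX m j → Bool) : Submodule 𝕜 (LI 𝕜 m) where
  carrier := {f | Rel e (fn f) ∧ ∀ i, Tendsto (fun n => xin n i (fn f)) atTop (𝓝 0)}
  add_mem' := by
    rintro f g ⟨⟨f1, f2, f3⟩, f4⟩ ⟨⟨g1, g2, g3⟩, g4⟩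
    refine ⟨⟨fun B => ?_, fun j x => ?_, fun n x => ?_⟩, fun i => ?_⟩
    · rw [fn_add, map_add, map_add, f1, g1]
    · rw [fn_add, map_add, map_add, f2, g2]
    · rw [fn_add, map_add, map_add, f3, g3]
    · simp only [fn_add, map_add]
      simpa using (f4 i).add (g4 i)
  zero_mem' := by
    refine ⟨⟨fun B => ?_, fun j x => ?_, fun n x => ?_⟩, fun i => ?_⟩
    · rw [fn_zero, map_zero, map_zero]
    · rw [fn_zero, map_zero, map_zero]
    · rw [fn_zero, map_zero, map_zero]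
    · simp only [fn_zero, map_zero]
      exact tendsto_const_nhds
  smul_mem' := by
    rintro c f ⟨⟨f1, f2, f3⟩, f4⟩
    refine ⟨⟨fun B => ?_, fun j x => ?_, fun n x => ?_⟩, fun i => ?_⟩
    · rw [fn_smul, map_smul, map_smul, f1]
    · rw [fn_smul, map_smul, map_smul, f2]
    · rw [fn_smul, map_smul, map_smul, f3]
    · simp only [fn_smul, map_smul]
      simpa using (f4 i).const_smul c

theorem mem_Ysub {e : (j : ℕ) → SS → XX m j → Bool} {f : LI 𝕜 m} : f ∈ Ysub 𝕜 e ↔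
    Rel e (fn f) ∧ ∀ i, Tendsto (fun n => xin n i (fn f)) atTop (𝓝 0) := Iff.rfl

theorem norm_xin_le (n : ℕ) (i : Fin m) {f : Om m → 𝕜} {C : ℝ} (hC : 0 ≤ C)
    (hf : ∀ ω, ‖f ω‖ ≤ C) : ‖xin n i f‖ ≤ C :=
  norm_av_le (fun _ => (norm_hh i _).le) _ hC fun _ => hf _

theorem norm_xi_le (i : Fin m) {f : Om m → 𝕜} {C : ℝ} (hC : 0 ≤ C)
    (hf : ∀ ω, ‖f ω‖ ≤ C) : ‖xi i f‖ ≤ C :=
  norm_av_le (fun _ => (norm_hh i _).le) _ hC fun _ => hf _

theorem isClosed_Ysub (e : (j : ℕ) → SS → XX m j → Bool) :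
    IsClosed (Ysub 𝕜 e : Set (LI 𝕜 m)) := by
  have h1 : (Ysub 𝕜 e : Set (LI 𝕜 m)) =
      ((⋂ B, {f : LI 𝕜 m | En0 B (fn f) = Tt e 0 B (fn f)}) ∩
      (⋂ j, ⋂ x, {f : LI 𝕜 m | Qup e j x (fn f) = Tt e (j + 1) x (fn f)})) ∩
      ((⋂ n, ⋂ x, {f : LI 𝕜 m | Ee n x (fn f) = Qup e n x (fn f)}) ∩
      (⋂ i, {f : LI 𝕜 m | Tendsto (fun n => xin n i (fn f)) atTop (𝓝 0)})) := by
    ext f
    simp only [SetLike.mem_coe, mem_Ysub, Set.mem_inter_iff, Set.mem_iInter, Set.mem_ofPred_eq]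
    constructor
    · rintro ⟨⟨h1, h2, h3⟩, h4⟩
      exact ⟨⟨h1, h2⟩, h3, h4⟩
    · rintro ⟨⟨h1, h2⟩, h3, h4⟩
      exact ⟨⟨h1, h2, h3⟩, h4⟩
  rw [h1]
  refine ((isClosed_iInter fun B => isClosed_eq (continuous_av _ _) (continuous_av _ _)).inter
    (isClosed_iInter fun j => isClosed_iInter fun x =>
      isClosed_eq (continuous_av _ _) (continuous_av _ _))).inter
    ((isClosed_iInter fun j => isClosed_iInter fun x =>
      isClosed_eq (continuous_av _ _) (continuous_av _ _)).inter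
    (isClosed_iInter fun i => ?_))
  refine isClosed_of_closure_subset fun f hf => ?_
  show Tendsto (fun n => xin n i (fn f)) atTop (𝓝 0)
  rw [Metric.tendsto_atTop]
  intro ε hε
  obtain ⟨g, hg, hfg⟩ := Metric.mem_closure_iff.1 hf (ε / 2) (by linarith)
  have hg' : Tendsto (fun n => xin n i (fn g)) atTop (𝓝 0) := hg
  rw [Metric.tendsto_atTop] at hg'
  obtain ⟨N, hN⟩ := hg' (ε / 2) (by linarith)
  refine ⟨N, fun n hn => ?_⟩
  have h2 := hN n hn
  rw [dist_zero_right] at h2 ⊢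
  have h3 : ‖xin n i (fn f - fn g)‖ ≤ ‖f - g‖ := by
    rw [← fn_sub]
    exact norm_xin_le n i (norm_nonneg _) (norm_fn_le _)
  rw [map_sub] at h3
  rw [dist_eq_norm] at hfg
  have h4 : ‖xin n i (fn f)‖ ≤ ‖xin n i (fn f) - xin n i (fn g)‖ + ‖xin n i (fn g)‖ := by
    simpa using norm_add_le (xin n i (fn f) - xin n i (fn g)) (xin n i (fn g))
  linarith

instance completeSpace_Ysub (e : (j : ℕ) → SS → XX m j → Bool) : CompleteSpace (Ysub 𝕜 e) :=
  (isClosed_Ysub e).completeSpace_coe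

/-! ### the finite dimensional quotients -/

/-- the blocks used by `Z n` -/
def inCut (n : ℕ) : Om m → Prop
  | Om.en _ => True
  | Om.tr j _ => j ≤ n
  | Om.ex k _ => k = n

open Classical in
/-- restriction to finitely many blocks -/
def cutL (𝕜 : Type) [RCLike 𝕜] (m n : ℕ) : LI 𝕜 m →L[𝕜] LI 𝕜 m :=
  LinearMap.mkContinuous
    { toFun := fun f => mk (fun ω => if inCut n ω then fn f ω else 0) ‖f‖ (fun ω => by
        split_ifs
        · exact norm_fn_le f ω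
        · simp)
      map_add' := fun f g => fn_injective (by
        ext ω
        simp only [fn_mk, fn_add, Pi.add_apply]
        split_ifs <;> simp)
      map_smul' := fun c f => fn_injective (by
        ext ω
        simp only [fn_mk, fn_smul, Pi.smul_apply, RingHom.id_apply]
        split_ifs <;> simp) } 1 (fun f => by
      rw [one_mul]
      refine norm_le_of_fn (norm_nonneg _) fun ω => ?_
      simp only [LinearMap.coe_mk, AddHom.coe_mk, fn_mk]
      split_ifs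
      · exact norm_fn_le f ω
      · simp)

open Classical in
theorem fn_cutL (n : ℕ) (f : LI 𝕜 m) (ω : Om m) :
    fn (cutL 𝕜 m n f) ω = if inCut n ω then fn f ω else 0 := rfl

theorem norm_cutL_le (n : ℕ) (f : LI 𝕜 m) : ‖cutL 𝕜 m n f‖ ≤ ‖f‖ := by
  refine norm_le_of_fn (norm_nonneg _) fun ω => ?_
  rw [fn_cutL]
  split_ifs
  · exact norm_fn_le f ω
  · simp

theorem finite_inCut (n : ℕ) : Set.Finite {ω : Om m | inCut n ω} := by
  have h1 : {ω : Om m | inCut n ω} ⊆ Set.range Om.en ∪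
      ((⋃ j ∈ Set.Iic n, Set.range (Om.tr j)) ∪ Set.range (Om.ex n)) := by
    rintro (g | ⟨j, p⟩ | ⟨k, p⟩) h
    · exact Or.inl ⟨g, rfl⟩
    · refine Or.inr (Or.inl ?_)
      simp only [Set.mem_iUnion]
      exact ⟨j, h, p, rfl⟩
    · have : k = n := h
      subst this
      exact Or.inr (Or.inr ⟨p, rfl⟩)
  refine Set.Finite.subset ?_ h1
  refine (Set.finite_range _).union (Set.Finite.union ?_ (Set.finite_range _))
  exact (Set.finite_Iic n).biUnion fun j _ => Set.finite_range _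

/-- the finite dimensional spaces -/
def Zsub (𝕜 : Type) [RCLike 𝕜] (e : (j : ℕ) → SS → XX m j → Bool) (n : ℕ) :
    Submodule 𝕜 (LI 𝕜 m) := (Ysub 𝕜 e).map (cutL 𝕜 m n : LI 𝕜 m →ₗ[𝕜] LI 𝕜 m)

instance finiteDimensional_Zsub (e : (j : ℕ) → SS → XX m j → Bool) (n : ℕ) :
    FiniteDimensional 𝕜 (Zsub 𝕜 e n) := by
  classical
  set s := (finite_inCut (m := m) n).toFinset with hs
  have h1 : Zsub 𝕜 e n ≤ Submodule.span 𝕜
      (s.image (fun ω => (lp.single ∞ ω (1:𝕜) : LI 𝕜 m)) : Set (LI 𝕜 m)) := by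
    rintro _ ⟨f, -, rfl⟩
    have h2 : (cutL 𝕜 m n : LI 𝕜 m →ₗ[𝕜] LI 𝕜 m) f
        = ∑ ω ∈ s, fn f ω • (lp.single ∞ ω (1:𝕜) : LI 𝕜 m) := by
      apply fn_injective
      ext ω
      show fn (cutL 𝕜 m n f) ω = fn _ ω
      have h3 : ∀ (s : Finset (Om m)), fn (∑ ω ∈ s, fn f ω • (lp.single ∞ ω (1:𝕜) : LI 𝕜 m)) ω
          = ∑ ω' ∈ s, fn f ω' * (if ω = ω' then 1 else 0) := by
        intro s
        induction s using Finset.induction_on with
        | empty => simp [fn_zero]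
        | insert a s ha ih =>
          rw [sum_insert ha, sum_insert ha, fn_add, Pi.add_apply, ih, fn_smul, Pi.smul_apply,
            smul_eq_mul]
          congr 2
          show (lp.single ∞ a (1:𝕜) : LI 𝕜 m) ω = _
          by_cases h : ω = a
          · subst h
            rw [if_pos rfl]
            exact lp.single_apply_self _ _ _
          · rw [if_neg h]
            exact lp.single_apply_ne _ _ _ h
      rw [h3, fn_cutL]
      simp only [mul_ite, mul_one, mul_zero, sum_ite_eq]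
      have h4 : ω ∈ s ↔ inCut n ω := by simp [hs]
      simp only [h4]
    rw [h2]
    refine Submodule.sum_mem _ fun ω hω => Submodule.smul_mem _ _ (Submodule.subset_span ?_)
    simp only [coe_image, Set.mem_image]
    exact ⟨ω, hω, rfl⟩
  have : FiniteDimensional 𝕜 (Submodule.span 𝕜
      (s.image (fun ω => (lp.single ∞ ω (1:𝕜) : LI 𝕜 m)) : Set (LI 𝕜 m))) :=
    FiniteDimensional.span_finset 𝕜 _
  exact Submodule.finiteDimensional_of_le h1

/-- relations of `Z n` -/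
structure RelN (e : (j : ℕ) → SS → XX m j → Bool) (n : ℕ) (f : Om m → 𝕜) : Prop where
  c0 : ∀ B, En0 B f = Tt e 0 B f
  cj : ∀ j, j < n → ∀ x, Qup e j x f = Tt e (j + 1) x f
  ce : ∀ x, Ee n x f = Qup e n x f

theorem relN_of_mem (e : (j : ℕ) → SS → XX m j → Bool) (n : ℕ) (z : Zsub 𝕜 e n) :
    RelN e n (fn z.1) := by
  obtain ⟨_, f, ⟨⟨h1, h2, h3⟩, -⟩, rfl⟩ := z
  show RelN e n (fn (cutL 𝕜 m n f))
  have e0 : ∀ g : Pt m 0, fn (cutL 𝕜 m n f) (Om.en g) = fn f (Om.en g) := by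
    intro g; rw [fn_cutL, if_pos]; trivial
  have e1 : ∀ j, j ≤ n → ∀ p, fn (cutL 𝕜 m n f) (Om.tr j p) = fn f (Om.tr j p) := by
    intro j hj p; rw [fn_cutL, if_pos]; exact hj
  have e2 : ∀ p, fn (cutL 𝕜 m n f) (Om.ex n p) = fn f (Om.ex n p) := by
    intro p; rw [fn_cutL, if_pos]; exact (rfl : n = n)
  have k0 : ∀ B, En0 B (fn (cutL 𝕜 m n f)) = En0 B (fn f) := fun B => avg_congr fun g => by rw [e0]
  have k1 : ∀ j, j ≤ n → ∀ x, Tt e j x (fn (cutL 𝕜 m n f)) = Tt e j x (fn f) :=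
    fun j hj x => avg_congr fun p => by rw [e1 j hj]
  have k2 : ∀ j, j ≤ n → ∀ x, Qup e j x (fn (cutL 𝕜 m n f)) = Qup e j x (fn f) :=
    fun j hj x => avg_congr fun p => by rw [e1 j hj]
  have k3 : ∀ x, Ee n x (fn (cutL 𝕜 m n f)) = Ee n x (fn f) :=
    fun x => avg_congr fun p => by rw [e2]
  refine ⟨fun B => ?_, fun j hj x => ?_, fun x => ?_⟩
  · rw [k0, k1 0 (Nat.zero_le n), h1]
  · rw [k2 j hj.le, k1 (j + 1) hj, h2]
  · rw [k3, k2 n le_rfl, h3]


/-! ### the two types -/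

/-- the Banach space `Y` -/
def YY (𝕜 : Type) [RCLike 𝕜] (e : (j : ℕ) → SS → XX m j → Bool) : Type := Ysub 𝕜 e

/-- the finite dimensional spaces `Z n` -/
def ZZ (𝕜 : Type) [RCLike 𝕜] (e : (j : ℕ) → SS → XX m j → Bool) (n : ℕ) : Type := Zsub 𝕜 e n

section types

variable (e : (j : ℕ) → SS → XX m j → Bool) (n : ℕ)

instance instNACGYY : NormedAddCommGroup (YY 𝕜 e) := inferInstanceAs (NormedAddCommGroup (Ysub 𝕜 e))
instance instNSYY : NormedSpace 𝕜 (YY 𝕜 e) := inferInstanceAs (NormedSpace 𝕜 (Ysub 𝕜 e))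
instance instCSYY : CompleteSpace (YY 𝕜 e) := inferInstanceAs (CompleteSpace (Ysub 𝕜 e))
instance instNACGZZ : NormedAddCommGroup (ZZ 𝕜 e n) :=
  inferInstanceAs (NormedAddCommGroup (Zsub 𝕜 e n))
instance instNSZZ : NormedSpace 𝕜 (ZZ 𝕜 e n) := inferInstanceAs (NormedSpace 𝕜 (Zsub 𝕜 e n))
instance instFDZZ : FiniteDimensional 𝕜 (ZZ 𝕜 e n) :=
  inferInstanceAs (FiniteDimensional 𝕜 (Zsub 𝕜 e n))

/-- evaluation of elements of `Y` -/
def fy : YY 𝕜 e →ₗ[𝕜] (Om m → 𝕜) where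
  toFun y := fn (show Ysub 𝕜 e from y).1
  map_add' _ _ := rfl
  map_smul' _ _ := rfl

/-- evaluation of elements of `Z n` -/
def fz : ZZ 𝕜 e n →ₗ[𝕜] (Om m → 𝕜) where
  toFun y := fn (show Zsub 𝕜 e n from y).1
  map_add' _ _ := rfl
  map_smul' _ _ := rfl

variable {e n}

theorem norm_fy_le (y : YY 𝕜 e) (ω : Om m) : ‖fy e y ω‖ ≤ ‖y‖ :=
  norm_fn_le (show Ysub 𝕜 e from y).1 ω

theorem norm_YY_le {y : YY 𝕜 e} {C : ℝ} (hC : 0 ≤ C) (h : ∀ ω, ‖fy e y ω‖ ≤ C) : ‖y‖ ≤ C :=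
  norm_le_of_fn (f := (show Ysub 𝕜 e from y).1) hC h

theorem fy_injective : Function.Injective (fy e : YY 𝕜 e → Om m → 𝕜) :=
  fun _ _ h => Subtype.ext (fn_injective h)

theorem norm_fz_le (z : ZZ 𝕜 e n) (ω : Om m) : ‖fz e n z ω‖ ≤ ‖z‖ :=
  norm_fn_le (show Zsub 𝕜 e n from z).1 ω

theorem rel_fy (y : YY 𝕜 e) : Rel e (fy e y) := (show Ysub 𝕜 e from y).2.1

theorem tendsto_fy (y : YY 𝕜 e) (i : Fin m) :
    Tendsto (fun n => xin n i (fy e y)) atTop (𝓝 0) := (show Ysub 𝕜 e from y).2.2 i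

theorem relN_fz (z : ZZ 𝕜 e n) : RelN e n (fz e n z) := relN_of_mem e n z

/-- elements of `Y` from functions -/
def mkY (f : Om m → 𝕜) (C : ℝ) (h : ∀ ω, ‖f ω‖ ≤ C) (h1 : Rel e f)
    (h2 : ∀ i, Tendsto (fun n => xin n i f) atTop (𝓝 0)) : YY 𝕜 e :=
  (⟨mk f C h, ⟨h1, h2⟩⟩ : Ysub 𝕜 e)

theorem fy_mkY (f : Om m → 𝕜) (C : ℝ) (h : ∀ ω, ‖f ω‖ ≤ C) (h1 : Rel e f)
    (h2 : ∀ i, Tendsto (fun n => xin n i f) atTop (𝓝 0)) : fy e (mkY f C h h1 h2) = f := rfl

variable (e n)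

/-- the restriction map `Y → Z n` -/
def restrL : YY 𝕜 e →ₗ[𝕜] ZZ 𝕜 e n where
  toFun y := (⟨cutL 𝕜 m n (show Ysub 𝕜 e from y).1, ⟨_, (show Ysub 𝕜 e from y).2, rfl⟩⟩ : Zsub 𝕜 e n)
  map_add' _ _ := Subtype.ext (map_add (cutL 𝕜 m n) _ _)
  map_smul' _ _ := Subtype.ext (map_smul (cutL 𝕜 m n) _ _)

/-- the restriction map `Y → Z n` -/
def restr : YY 𝕜 e →L[𝕜] ZZ 𝕜 e n :=
  LinearMap.mkContinuous (restrL e n) 1 (fun f => by
    rw [one_mul]
    exact norm_cutL_le n (show Ysub 𝕜 e from f).1)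

theorem norm_restr_le : ‖restr (𝕜 := 𝕜) e n‖ ≤ 1 :=
  LinearMap.mkContinuous_norm_le _ zero_le_one _

open Classical in
theorem fz_restr (y : YY 𝕜 e) (ω : Om m) :
    fz e n (restr e n y) ω = if inCut n ω then fy e y ω else 0 := rfl

theorem xi_fz_restr (y : YY 𝕜 e) (i : Fin m) : xi i (fz e n (restr e n y)) = xi i (fy e y) := by
  rw [xi, av_apply, av_apply]
  refine avg_congr fun g => ?_
  rw [fz_restr, if_pos]
  trivial

theorem xin_fz_restr (y : YY 𝕜 e) (i : Fin m) :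
    xin n i (fz e n (restr e n y)) = xin n i (fy e y) := by
  rw [xin, av_apply, av_apply]
  refine avg_congr fun p => ?_
  rw [fz_restr, if_pos]
  exact (rfl : n = n)

end types

end

end Pool.Agent.Lib.MP_ffba67_an
end

section

/-!
# The functions `psi θ v`
-/

namespace Pool.Agent.Lib.MP_ffba67_an

open Finset Filter Topology
open scoped ENNReal

noncomputable section

variable {𝕜 : Type} [RCLike 𝕜] {m : ℕ}

/-! ### orthogonality in the transfer blocks -/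

section orth

variable (e : (j : ℕ) → SS → XX m j → Bool)

theorem avg_separate {A B : Type} [Fintype A] [Fintype B] (f : A → 𝕜) (g : B → 𝕜) :
    avg (fun x : A => avg fun b : B => f x * g b) = avg f * avg g := by
  simp only [avg_mul_left, avg_mul_right]

theorem avg_pp_mul (j : ℕ) (x x' : XX m j) :
    avg (fun p : Pt m (j + 1) => (pp e j p.1 p.2 x : 𝕜) * pp e j p.1 p.2 x')
      = if x = x' then 1 else 0 := by
  rw [avg_Lv_succ]
  have h1 : ∀ (p : Pt m j) (s : SS), (pp e j p s x : 𝕜) * pp e j p s x'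
      = (uu 𝕜 j p x * uu 𝕜 j p x') * (sg 𝕜 (e j s x) * sg 𝕜 (e j s x')) := by
    intro p s; simp only [pp]; ring
  simp only [h1]
  rw [avg_separate, avg_uu_mul]
  split_ifs with h
  · subst h
    simp only [sg_mul_self, one_mul]
    exact avg_const _
  · rw [zero_mul]

theorem avg_pp_qv (j : ℕ) (x : XX m j) (y : XX m (j + 1)) :
    avg (fun p : Pt m (j + 1) => (pp e j p.1 p.2 x : 𝕜) * qv e (j + 1) p y) = 0 := by
  rw [avg_Lv_succ]
  have h1 : ∀ (p : Pt m j) (s : SS), (pp e j p s x : 𝕜) * qv e (j + 1) (p, s) y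
      = (uu 𝕜 j p x * uu 𝕜 j p y.1) * (sg 𝕜 (e j s x) * sg 𝕜 (e j s y.1) * FF 𝕜 s y.2) := by
    intro p s; simp only [qv, pp]; ring
  simp only [h1]
  rw [avg_separate, avg_uu_mul]
  split_ifs with h
  · rw [← h]
    simp only [sg_mul_self, one_mul, avg_FF]
  · rw [zero_mul]

theorem avg_qv_mul (j : ℕ) (y y' : XX m (j + 1)) :
    avg (fun p : Pt m (j + 1) => (qv e (j + 1) p y : 𝕜) * qv e (j + 1) p y')
      = if y = y' then 1 else 0 := by
  rw [avg_Lv_succ]
  have h1 : ∀ (p : Pt m j) (s : SS), (qv e (j + 1) (p, s) y : 𝕜) * qv e (j + 1) (p, s) y'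
      = (uu 𝕜 j p y.1 * uu 𝕜 j p y'.1) * (sg 𝕜 (e j s y.1) * sg 𝕜 (e j s y'.1) *
        (FF 𝕜 s y.2 * FF 𝕜 s y'.2)) := by
    intro p s; simp only [qv, pp]; ring
  simp only [h1]
  rw [avg_separate, avg_uu_mul]
  by_cases h : y.1 = y'.1
  · rw [if_pos h, one_mul, ← h]
    simp only [sg_mul_self, one_mul, avg_FF_mul]
    by_cases h2 : y.2 = y'.2
    · have h3 : y = y' := Prod.ext h h2
      subst h3
      simp
    · have h3 : y ≠ y' := fun h3 => h2 (by rw [h3])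
      rw [if_neg h2]
      exact (if_neg h3).symm
  · have h3 : y ≠ y' := fun h3 => h (by rw [h3])
    rw [if_neg h, zero_mul]
    exact (if_neg h3).symm

end orth

/-- the space of coordinates -/
abbrev VV (𝕜 : Type) [RCLike 𝕜] (m : ℕ) := (Fin m → 𝕜) × (Π₀ j : ℕ, (XX m j → 𝕜))

/-- the function on the points with given coordinates; the weights `θ` act on the root parts of the
exit blocks -/
def psi (e : (j : ℕ) → SS → XX m j → Bool) (θ : ℕ → 𝕜) : VV 𝕜 m →ₗ[𝕜] (Om m → 𝕜) where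
  toFun v ω := match ω with
    | Om.en g => ∑ i, hh 𝕜 i g * v.1 i + ∑ x, uu 𝕜 0 g x * v.2 0 x
    | Om.tr j p => ∑ x, pp e j p.1 p.2 x * v.2 j x + ∑ x, qv e (j + 1) p x * v.2 (j + 1) x
    | Om.ex n p => θ n * (∑ i, hh 𝕜 i (root (n + 1) p) * v.1 i
        + ∑ x, uu 𝕜 0 (root (n + 1) p) x * v.2 0 x) + ∑ x, uu 𝕜 (n + 1) p x * v.2 (n + 1) x
  map_add' v w := by
    ext ω
    cases ω <;>
    · simp only [Prod.fst_add, Prod.snd_add, DFinsupp.add_apply, Pi.add_apply, mul_add,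
        sum_add_distrib]
      ring
  map_smul' c v := by
    ext ω
    cases ω <;>
    · simp only [Prod.smul_fst, Prod.smul_snd, DFinsupp.smul_apply, Pi.smul_apply, smul_eq_mul,
        RingHom.id_apply, mul_add, mul_sum]
      congr 1 <;> first
        | (apply sum_congr rfl; intro x _; ring)
        | (congr 1 <;> (apply sum_congr rfl; intro x _; ring))

section formulas

variable (e : (j : ℕ) → SS → XX m j → Bool) (θ : ℕ → 𝕜) (v : VV 𝕜 m)

theorem psi_en (g : Pt m 0) : psi e θ v (Om.en g)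
    = ∑ i, hh 𝕜 i g * v.1 i + ∑ x, uu 𝕜 0 g x * v.2 0 x := rfl

theorem psi_tr (j : ℕ) (p : Pt m (j + 1)) : psi e θ v (Om.tr j p)
    = ∑ x, pp e j p.1 p.2 x * v.2 j x + ∑ x, qv e (j + 1) p x * v.2 (j + 1) x := rfl

theorem psi_ex (n : ℕ) (p : Pt m (n + 1)) : psi e θ v (Om.ex n p)
    = θ n * (∑ i, hh 𝕜 i (root (n + 1) p) * v.1 i
        + ∑ x, uu 𝕜 0 (root (n + 1) p) x * v.2 0 x) + ∑ x, uu 𝕜 (n + 1) p x * v.2 (n + 1) x := rfl

theorem avg_mul_sum {ι κ : Type} [Fintype ι] [Fintype κ] (w : ι → 𝕜) (a : κ → ι → 𝕜) (b : κ → 𝕜) :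
    avg (fun i => w i * ∑ k, a k i * b k) = ∑ k, avg (fun i => w i * a k i) * b k := by
  have h : ∀ i, w i * ∑ k, a k i * b k = ∑ k, (w i * a k i) * b k := by
    intro i
    rw [mul_sum]
    exact sum_congr rfl fun k _ => by ring
  simp only [h]
  rw [avg_sum]
  exact sum_congr rfl fun k _ => avg_mul_right _ _

theorem xi_psi (i : Fin m) : xi i (psi e θ v) = v.1 i := by
  rw [xi, av_apply]
  simp only [psi_en, mul_add]
  rw [avg_add, avg_mul_sum (fun g : Pt m 0 => hh 𝕜 i g) (fun i' g => hh 𝕜 i' g),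
    avg_mul_sum (fun g : Pt m 0 => hh 𝕜 i g) (fun x g => uu 𝕜 0 g x)]
  simp only [avg_hh_mul, avg_hh_uu, zero_mul, sum_const_zero, add_zero, ite_mul, one_mul,
    sum_ite_eq, mem_univ, if_true]

theorem En0_psi (x : XX m 0) : En0 x (psi e θ v) = v.2 0 x := by
  rw [En0, av_apply]
  simp only [psi_en, mul_add]
  rw [avg_add, avg_mul_sum (fun g : Pt m 0 => uu 𝕜 0 g x) (fun i' g => hh 𝕜 i' g),
    avg_mul_sum (fun g : Pt m 0 => uu 𝕜 0 g x) (fun x g => uu 𝕜 0 g x)]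
  have h : ∀ i, avg (fun g : Pt m 0 => uu 𝕜 0 g x * hh 𝕜 i g) = 0 := by
    intro i
    rw [← avg_hh_uu i x]
    exact avg_congr fun g => mul_comm _ _
  simp only [h, avg_uu_mul, zero_mul, sum_const_zero, zero_add, ite_mul, one_mul,
    sum_ite_eq, mem_univ, if_true]

theorem Tt_psi (j : ℕ) (x : XX m j) : Tt e j x (psi e θ v) = v.2 j x := by
  rw [Tt, av_apply]
  simp only [psi_tr, mul_add]
  rw [avg_add, avg_mul_sum (fun p : Pt m (j + 1) => pp e j p.1 p.2 x)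
      (fun x' p => pp e j p.1 p.2 x'),
    avg_mul_sum (fun p : Pt m (j + 1) => pp e j p.1 p.2 x) (fun x' p => qv e (j + 1) p x')]
  simp only [avg_pp_mul, avg_pp_qv, zero_mul, sum_const_zero, add_zero, ite_mul, one_mul,
    sum_ite_eq, mem_univ, if_true]

theorem Qup_psi (j : ℕ) (x : XX m (j + 1)) : Qup e j x (psi e θ v) = v.2 (j + 1) x := by
  rw [Qup, av_apply]
  simp only [psi_tr, mul_add]
  rw [avg_add, avg_mul_sum (fun p : Pt m (j + 1) => qv e (j + 1) p x)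
      (fun x' p => pp e j p.1 p.2 x'),
    avg_mul_sum (fun p : Pt m (j + 1) => qv e (j + 1) p x) (fun x' p => qv e (j + 1) p x')]
  have h : ∀ x', avg (fun p : Pt m (j + 1) => (qv e (j + 1) p x : 𝕜) * pp e j p.1 p.2 x') = 0 := by
    intro x'
    rw [← avg_pp_qv e j x' x]
    exact avg_congr fun g => mul_comm _ _
  simp only [h, avg_qv_mul, zero_mul, sum_const_zero, zero_add, ite_mul, one_mul,
    sum_ite_eq, mem_univ, if_true]

theorem Ee_psi (n : ℕ) (x : XX m (n + 1)) : Ee n x (psi e θ v) = v.2 (n + 1) x := by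
  rw [Ee, av_apply]
  simp only [psi_ex, mul_add]
  rw [avg_add, avg_mul_sum (fun p : Pt m (n + 1) => uu 𝕜 (n + 1) p x)
      (fun x' p => uu 𝕜 (n + 1) p x')]
  have h := avg_uu_root n x (fun g : Pt m 0 => θ n * ∑ i, hh 𝕜 i g * v.1 i
      + θ n * ∑ x, uu 𝕜 0 g x * v.2 0 x)
  simp only [mul_add] at h
  rw [h]
  simp only [avg_uu_mul, zero_add, ite_mul, one_mul, zero_mul,
    sum_ite_eq, mem_univ, if_true]

theorem xin_psi (n : ℕ) (i : Fin m) : xin n i (psi e θ v) = θ n * v.1 i := by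
  rw [xin, av_apply]
  simp only [psi_ex, mul_add]
  rw [avg_add, avg_mul_sum (fun p : Pt m (n + 1) => hh 𝕜 i (root (n + 1) p))
      (fun x' p => uu 𝕜 (n + 1) p x')]
  have h : ∀ x', avg (fun p : Pt m (n + 1) => hh 𝕜 i (root (n + 1) p) * uu 𝕜 (n + 1) p x') = 0 := by
    intro x'
    rw [← avg_uu_root n x' (fun g => hh 𝕜 i g)]
    exact avg_congr fun g => mul_comm _ _
  have h2 : avg (fun p : Pt m (n + 1) => hh 𝕜 i (root (n + 1) p) *
      (θ n * ∑ i, hh 𝕜 i (root (n + 1) p) * v.1 i) + hh 𝕜 i (root (n + 1) p) *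
      (θ n * ∑ x, uu 𝕜 0 (root (n + 1) p) x * v.2 0 x)) = θ n * v.1 i := by
    have h3 := avg_root (n + 1) (fun g : Pt m 0 => hh 𝕜 i g *
      (θ n * ∑ i, hh 𝕜 i g * v.1 i) + hh 𝕜 i g * (θ n * ∑ x, uu 𝕜 0 g x * v.2 0 x))
    rw [h3]
    have h4 := xi_psi e θ v i
    rw [xi, av_apply] at h4
    simp only [psi_en] at h4
    rw [← h4, ← avg_mul_left]
    exact avg_congr fun g => by ring
  rw [h2]
  simp only [h, zero_mul, sum_const_zero, add_zero]

theorem rel_psi : Rel e (psi e θ v) :=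
  ⟨fun B => by rw [En0_psi, Tt_psi], fun j x => by rw [Qup_psi, Tt_psi],
    fun n x => by rw [Ee_psi, Qup_psi]⟩

/-- a crude bound -/
def nv (v : VV 𝕜 m) : ℝ := ∑ i, ‖v.1 i‖ + ∑ j ∈ v.2.support, ∑ x, ‖v.2 j x‖

theorem sum_norm_le_nv (j : ℕ) : ∑ i, ‖v.1 i‖ + ∑ x, ‖v.2 j x‖ ≤ nv v := by
  unfold nv
  gcongr
  by_cases h : j ∈ v.2.support
  · exact single_le_sum (f := fun j => ∑ x, ‖v.2 j x‖) (fun j _ => by positivity) h
  · have h2 : v.2 j = 0 := by simpa using h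
    rw [h2]
    simp only [Pi.zero_apply, norm_zero, sum_const_zero]
    positivity

theorem nv_nonneg : 0 ≤ nv v := by unfold nv; positivity

theorem norm_sum_mul_le {ι : Type} [Fintype ι] {w a : ι → 𝕜} (hw : ∀ i, ‖w i‖ ≤ 1) :
    ‖∑ i, w i * a i‖ ≤ ∑ i, ‖a i‖ := by
  refine (norm_sum_le _ _).trans (sum_le_sum fun i _ => ?_)
  rw [norm_mul]
  exact mul_le_of_le_one_left (norm_nonneg _) (hw i)

theorem norm_qv : ∀ (j : ℕ) (p : Pt m j) (x : XX m j), ‖(qv e j p x : 𝕜)‖ = 1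
  | 0, p, x => norm_uu 0 p x
  | j + 1, p, x => by rw [qv, norm_mul, norm_pp, norm_FF, one_mul]

theorem norm_psi_le (hθ : ∀ n, ‖θ n‖ ≤ 1) (ω : Om m) : ‖psi e θ v ω‖ ≤ 3 * nv v := by
  have hA : ∀ (w : Fin m → 𝕜), (∀ i, ‖w i‖ ≤ 1) → ‖∑ i, w i * v.1 i‖ ≤ ∑ i, ‖v.1 i‖ :=
    fun w hw => norm_sum_mul_le hw
  have hB : ∀ (j : ℕ) (w : XX m j → 𝕜), (∀ i, ‖w i‖ ≤ 1) →
      ‖∑ i, w i * v.2 j i‖ ≤ ∑ x, ‖v.2 j x‖ :=
    fun j w hw => norm_sum_mul_le hw
  have h0 := nv_nonneg v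
  have hpos : 0 ≤ ∑ i, ‖v.1 i‖ := by positivity
  cases ω with
  | en g =>
    rw [psi_en]
    have h1 := hA (fun i => hh 𝕜 i g) fun i => (norm_hh i g).le
    have h2 := hB 0 (fun x => uu 𝕜 0 g x) fun x => (norm_uu 0 g x).le
    have h3 := sum_norm_le_nv v 0
    refine (norm_add_le _ _).trans ?_
    linarith
  | tr j p =>
    rw [psi_tr]
    have h1 := hB j (fun x => pp e j p.1 p.2 x) fun x => (norm_pp e j _ _ x).le
    have h2 := hB (j + 1) (fun x => qv e (j + 1) p x) fun x => (norm_qv e (j + 1) p x).le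
    have h3 := sum_norm_le_nv v j
    have h4 := sum_norm_le_nv v (j + 1)
    refine (norm_add_le _ _).trans ?_
    linarith
  | ex n p =>
    rw [psi_ex]
    have h1 := hA (fun i => hh 𝕜 i (root (n + 1) p)) fun i => (norm_hh i _).le
    have h2 := hB 0 (fun x => uu 𝕜 0 (root (n + 1) p) x) fun x => (norm_uu 0 _ x).le
    have h3 := sum_norm_le_nv v 0
    have h4 := sum_norm_le_nv v (n + 1)
    have h5 := hB (n + 1) (fun x => uu 𝕜 (n + 1) p x) fun x => (norm_uu (n + 1) p x).le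
    have h6 : ‖θ n * (∑ i, hh 𝕜 i (root (n + 1) p) * v.1 i
        + ∑ x, uu 𝕜 0 (root (n + 1) p) x * v.2 0 x)‖ ≤ nv v := by
      rw [norm_mul]
      calc ‖θ n‖ * _ ≤ 1 * nv v := by
            refine mul_le_mul (hθ n) ?_ (norm_nonneg _) zero_le_one
            refine (norm_add_le _ _).trans ?_
            linarith
        _ = nv v := one_mul _
    refine (norm_add_le _ _).trans ?_
    linarith

end formulas

end

end Pool.Agent.Lib.MP_ffba67_an
end
end
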