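import Pool.Agent.Lib.MP_ffba67_an.Defs
import Pool.Agent.Lib.MP_ffba67_an.Psi

section

/-!
# Maximal Banach ideals from finite families of functionals
-/

namespace Pool.Agent.Lib.MP_ffba67_an

open Filter Topology Finset

noncomputable section

variable {𝕜 : Type} [RCLike 𝕜] {κ : Type} {Z : κ → Type} [∀ k, NormedAddCommGroup (Z k)]
  [∀ k, NormedSpace 𝕜 (Z k)] {m : ℕ} (f : (k : κ) → Fin m → (Z k →L[𝕜] 𝕜))

section basic

variable {X Y : Type} [NormedAddCommGroup X] [NormedSpace 𝕜 X]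
  [NormedAddCommGroup Y] [NormedSpace 𝕜 Y]

/-- the numbers whose supremum is the ideal norm -/
def tst (T : X →L[𝕜] Y) : Set ℝ :=
  {r | r = ‖T‖ ∨ ∃ (k : κ) (α : Y →L[𝕜] Z k) (x : Fin m → X), ‖α‖ ≤ 1 ∧ (∀ i, ‖x i‖ ≤ 1) ∧
    r = ‖∑ i, f k i (α (T (x i)))‖}

/-- the ideal norm -/
def nrmF (T : X →L[𝕜] Y) : ℝ := sSup (tst f T)

/-- normalization -/
def Normalized : Prop := ∀ (k : κ) (c : Fin m → 𝕜), (∀ i, ‖c i‖ ≤ 1) →
  ∀ z : Z k, ‖∑ i, c i * f k i z‖ ≤ ‖z‖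

variable {f}

theorem norm_f_le (hf : Normalized f) (k : κ) (i : Fin m) (z : Z k) : ‖f k i z‖ ≤ ‖z‖ := by
  classical
  have h := hf k (fun j => if j = i then 1 else 0) (fun j => by split_ifs <;> simp) z
  simpa using h

theorem norm_apply_le_of_le {T : X →L[𝕜] Y} {x : X} (hx : ‖x‖ ≤ 1) : ‖T x‖ ≤ ‖T‖ :=
  (T.le_opNorm x).trans (mul_le_of_le_one_right (norm_nonneg _) hx)

theorem norm_apply_le_of_op_le {T : X →L[𝕜] Y} (hT : ‖T‖ ≤ 1) (x : X) : ‖T x‖ ≤ ‖x‖ :=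
  (T.le_opNorm x).trans (mul_le_of_le_one_left (norm_nonneg _) hT)

theorem tst_le (hf : Normalized f) (T : X →L[𝕜] Y) {r : ℝ} (hr : r ∈ tst f T) :
    r ≤ (m + 1) * ‖T‖ := by
  rcases hr with rfl | ⟨k, α, x, hα, hx, rfl⟩
  · have : 0 ≤ (m:ℝ) * ‖T‖ := by positivity
    linarith
  · have h1 : ∀ i, ‖f k i (α (T (x i)))‖ ≤ ‖T‖ := fun i =>
      (norm_f_le hf k i _).trans ((norm_apply_le_of_op_le hα _).trans (norm_apply_le_of_le (hx i)))
    refine (norm_sum_le _ _).trans ((sum_le_sum fun i _ => h1 i).trans ?_)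
    simp
    linarith [norm_nonneg T]

theorem bddAbove_tst (hf : Normalized f) (T : X →L[𝕜] Y) : BddAbove (tst f T) :=
  ⟨_, fun _ hr => tst_le hf T hr⟩

theorem nonempty_tst (T : X →L[𝕜] Y) : (tst f T).Nonempty := ⟨‖T‖, Or.inl rfl⟩

theorem norm_le_nrmF (hf : Normalized f) (T : X →L[𝕜] Y) : ‖T‖ ≤ nrmF f T :=
  le_csSup (bddAbove_tst hf T) (Or.inl rfl)

theorem le_nrmF (hf : Normalized f) (T : X →L[𝕜] Y) (k : κ) (α : Y →L[𝕜] Z k) (x : Fin m → X)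
    (hα : ‖α‖ ≤ 1) (hx : ∀ i, ‖x i‖ ≤ 1) : ‖∑ i, f k i (α (T (x i)))‖ ≤ nrmF f T :=
  le_csSup (bddAbove_tst hf T) (Or.inr ⟨k, α, x, hα, hx, rfl⟩)

theorem nrmF_le {T : X →L[𝕜] Y} {C : ℝ} (h1 : ‖T‖ ≤ C)
    (h2 : ∀ (k : κ) (α : Y →L[𝕜] Z k) (x : Fin m → X), ‖α‖ ≤ 1 → (∀ i, ‖x i‖ ≤ 1) →
      ‖∑ i, f k i (α (T (x i)))‖ ≤ C) : nrmF f T ≤ C := by
  refine csSup_le (nonempty_tst T) ?_
  rintro r (rfl | ⟨k, α, x, hα, hx, rfl⟩)
  · exact h1
  · exact h2 k α x hα hx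

theorem nrmF_le_mul (hf : Normalized f) (T : X →L[𝕜] Y) : nrmF f T ≤ (m + 1) * ‖T‖ :=
  csSup_le (nonempty_tst T) fun _ hr => tst_le hf T hr

theorem nrmF_nonneg (hf : Normalized f) (T : X →L[𝕜] Y) : 0 ≤ nrmF f T :=
  (norm_nonneg _).trans (norm_le_nrmF hf T)

theorem nrmF_add_le (hf : Normalized f) (S T : X →L[𝕜] Y) :
    nrmF f (S + T) ≤ nrmF f S + nrmF f T := by
  refine nrmF_le ((norm_add_le _ _).trans (add_le_add (norm_le_nrmF hf S) (norm_le_nrmF hf T))) ?_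
  intro k α x hα hx
  have h1 : ∑ i, f k i (α ((S + T) (x i)))
      = ∑ i, f k i (α (S (x i))) + ∑ i, f k i (α (T (x i))) := by
    rw [← sum_add_distrib]
    exact sum_congr rfl fun i _ => by simp
  rw [h1]
  exact (norm_add_le _ _).trans (add_le_add (le_nrmF hf S k α x hα hx) (le_nrmF hf T k α x hα hx))

theorem nrmF_smul_le (hf : Normalized f) (c : 𝕜) (T : X →L[𝕜] Y) :
    nrmF f (c • T) ≤ ‖c‖ * nrmF f T := by
  refine nrmF_le ?_ ?_
  · rw [norm_smul]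
    gcongr
    exact norm_le_nrmF hf T
  · intro k α x hα hx
    have h1 : ∑ i, f k i (α ((c • T) (x i))) = c * ∑ i, f k i (α (T (x i))) := by
      rw [mul_sum]
      exact sum_congr rfl fun i _ => by simp
    rw [h1, norm_mul]
    gcongr
    exact le_nrmF hf T k α x hα hx

theorem nrmF_smul (hf : Normalized f) (c : 𝕜) (T : X →L[𝕜] Y) :
    nrmF f (c • T) = ‖c‖ * nrmF f T := by
  refine le_antisymm (nrmF_smul_le hf c T) ?_
  rcases eq_or_ne c 0 with rfl | hc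
  · rw [norm_zero, zero_mul]
    exact nrmF_nonneg hf _
  · have h1 := nrmF_smul_le hf c⁻¹ (c • T)
    rw [smul_smul, inv_mul_cancel₀ hc, one_smul, norm_inv] at h1
    have h2 : 0 < ‖c‖ := norm_pos_iff.2 hc
    rwa [le_inv_mul_iff₀ h2] at h1

theorem nrmF_comp_le (hf : Normalized f) {X₀ Y₀ : Type} [NormedAddCommGroup X₀]
    [NormedSpace 𝕜 X₀] [NormedAddCommGroup Y₀] [NormedSpace 𝕜 Y₀] (R : Y →L[𝕜] Y₀)
    (T : X →L[𝕜] Y) (S : X₀ →L[𝕜] X) :
    nrmF f (R.comp (T.comp S)) ≤ ‖R‖ * nrmF f T * ‖S‖ := by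
  have hn := nrmF_nonneg hf T
  refine nrmF_le ?_ ?_
  · refine (ContinuousLinearMap.opNorm_comp_le _ _).trans ?_
    calc ‖R‖ * ‖T.comp S‖ ≤ ‖R‖ * (‖T‖ * ‖S‖) := by
          gcongr; exact ContinuousLinearMap.opNorm_comp_le _ _
      _ ≤ ‖R‖ * (nrmF f T * ‖S‖) := by gcongr; exact norm_le_nrmF hf T
      _ = ‖R‖ * nrmF f T * ‖S‖ := by ring
  · intro k α x hα hx
    rcases eq_or_ne R 0 with rfl | hR
    · simp
    rcases eq_or_ne S 0 with rfl | hS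
    · simp
    have hR' : 0 < ‖R‖ := norm_pos_iff.2 hR
    have hS' : 0 < ‖S‖ := norm_pos_iff.2 hS
    have h1 := le_nrmF hf T k ((((‖R‖⁻¹ : ℝ) : 𝕜)) • α.comp R)
      (fun i => (((‖S‖⁻¹ : ℝ) : 𝕜)) • S (x i)) (by
        rw [norm_smul, RCLike.norm_ofReal, abs_of_pos (by positivity), inv_mul_le_iff₀ hR', mul_one]
        refine (ContinuousLinearMap.opNorm_comp_le _ _).trans ?_
        exact mul_le_of_le_one_left (norm_nonneg _) hα) (fun i => by
        rw [norm_smul, RCLike.norm_ofReal, abs_of_pos (by positivity), inv_mul_le_iff₀ hS', mul_one]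
        exact norm_apply_le_of_le (hx i))
    have h2 : ∑ i, f k i (((((‖R‖⁻¹ : ℝ) : 𝕜)) • α.comp R) (T ((((‖S‖⁻¹ : ℝ) : 𝕜)) • S (x i))))
        = (((‖R‖⁻¹ : ℝ) : 𝕜)) * (((‖S‖⁻¹ : ℝ) : 𝕜)) *
          ∑ i, f k i (α ((R.comp (T.comp S)) (x i))) := by
      rw [mul_sum]
      refine sum_congr rfl fun i _ => ?_
      simp only [map_smul, _root_.smul_apply, ContinuousLinearMap.comp_apply, smul_eq_mul]
      ring
    rw [h2, norm_mul, norm_mul, RCLike.norm_ofReal, RCLike.norm_ofReal,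
      abs_of_pos (by positivity), abs_of_pos (by positivity)] at h1
    have h3 : ‖R‖⁻¹ * ‖S‖⁻¹ * ‖∑ i, f k i (α ((R.comp (T.comp S)) (x i)))‖
        = ‖∑ i, f k i (α ((R.comp (T.comp S)) (x i)))‖ / (‖R‖ * ‖S‖) := by
      field_simp
    rw [h3, div_le_iff₀ (by positivity)] at h1
    linarith

theorem nrmF_id (hf : Normalized f) : nrmF f (ContinuousLinearMap.id 𝕜 𝕜) = 1 := by
  refine le_antisymm ?_ ?_
  · refine nrmF_le ContinuousLinearMap.norm_id_le ?_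
    intro k α x hα hx
    have h1 : ∑ i, f k i (α ((ContinuousLinearMap.id 𝕜 𝕜) (x i))) = ∑ i, x i * f k i (α 1) := by
      refine sum_congr rfl fun i _ => ?_
      have h2 : α (x i) = x i • α 1 := by
        rw [← map_smul, smul_eq_mul, mul_one]
      rw [ContinuousLinearMap.id_apply, h2, map_smul, smul_eq_mul]
    rw [h1]
    refine (hf k x hx (α 1)).trans ?_
    refine (norm_apply_le_of_op_le hα _).trans ?_
    simp
  · refine le_trans ?_ (norm_le_nrmF hf _)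
    rw [ContinuousLinearMap.norm_id]

end basic

/-- the Banach ideal -/
def famF (f : (k : κ) → Fin m → (Z k →L[𝕜] 𝕜)) : OpFamily 𝕜 where
  comp := fun _ _ => Set.univ
  nrm := fun X Y T => nrmF f (show X.carrier →L[𝕜] Y.carrier from T)

variable {f}

theorem complete_nrmF (hf : Normalized f) {X Y : Type} [NormedAddCommGroup X] [NormedSpace 𝕜 X]
    [NormedAddCommGroup Y] [NormedSpace 𝕜 Y] [CompleteSpace Y] (u : ℕ → X →L[𝕜] Y)
    (hu : ∀ ε > 0, ∃ N, ∀ k ≥ N, ∀ l ≥ N, nrmF f (u k - u l) < ε) :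
    ∃ T : X →L[𝕜] Y, Tendsto (fun n => nrmF f (u n - T)) atTop (𝓝 0) := by
  have h1 : CauchySeq u := by
    rw [Metric.cauchySeq_iff]
    intro ε hε
    obtain ⟨N, hN⟩ := hu ε hε
    refine ⟨N, fun k hk l hl => ?_⟩
    rw [dist_eq_norm]
    exact (norm_le_nrmF hf _).trans_lt (hN k hk l hl)
  obtain ⟨T, hT⟩ := cauchySeq_tendsto_of_complete h1
  refine ⟨T, ?_⟩
  have h2 : Tendsto (fun n => (m + 1 : ℝ) * ‖u n - T‖) atTop (𝓝 0) := by
    have := (tendsto_iff_norm_sub_tendsto_zero.1 hT).const_mul (m + 1 : ℝ)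
    simpa using this
  exact squeeze_zero (fun n => nrmF_nonneg hf _) (fun n => nrmF_le_mul hf _) h2

theorem famF_isBanachIdeal (hf : Normalized f) : (famF f).IsBanachIdeal where
  linear := ⟨fun _ _ _ _ _ _ => Set.mem_univ _, fun _ _ _ _ _ => Set.mem_univ _⟩
  finiteRank := fun _ _ _ _ => Set.mem_univ _
  add := fun X Y S T _ _ => nrmF_add_le (X := X.carrier) (Y := Y.carrier) hf S T
  smul := fun X Y c T _ => nrmF_smul (X := X.carrier) (Y := Y.carrier) hf c T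
  dominates := fun X Y T _ => norm_le_nrmF (X := X.carrier) (Y := Y.carrier) hf T
  complete := fun X Y u _ hu => by
    obtain ⟨T, hT⟩ := complete_nrmF (X := X.carrier) (Y := Y.carrier) hf u hu
    exact ⟨T, Set.mem_univ _, hT⟩
  normalized := nrmF_id hf
  ideal := fun X₀ X Y Y₀ R T S _ => ⟨Set.mem_univ _,
    nrmF_comp_le (X₀ := X₀.carrier) (X := X.carrier) (Y := Y.carrier) (Y₀ := Y₀.carrier) hf R T S⟩

/-- kernels of bounded operators are closed -/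
instance instClosedKer {Y Z' : Type} [NormedAddCommGroup Y] [NormedSpace 𝕜 Y]
    [NormedAddCommGroup Z'] [NormedSpace 𝕜 Z'] (α : Y →L[𝕜] Z') :
    IsClosed (LinearMap.ker (α : Y →ₗ[𝕜] Z') : Set Y) := α.isClosed_ker

/-- the norm of the quotient by the kernel of a contraction -/
theorem norm_le_norm_mk {Y Z' : Type} [NormedAddCommGroup Y] [NormedSpace 𝕜 Y]
    [NormedAddCommGroup Z'] [NormedSpace 𝕜 Z'] (α : Y →L[𝕜] Z') (hα : ‖α‖ ≤ 1) (y : Y) :
    ‖α y‖ ≤ ‖(Submodule.Quotient.mk y : Y ⧸ LinearMap.ker (α : Y →ₗ[𝕜] Z'))‖ := by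
  refine le_of_forall_pos_le_add fun ε hε => ?_
  obtain ⟨y', h1, h2⟩ := Submodule.Quotient.norm_mk_lt
    (Submodule.Quotient.mk y : Y ⧸ LinearMap.ker (α : Y →ₗ[𝕜] Z')) hε
  have h3 : y' - y ∈ LinearMap.ker (α : Y →ₗ[𝕜] Z') := (Submodule.Quotient.eq _).1 h1
  have h4 : α y' = α y := by
    have h5 : α (y' - y) = 0 := h3
    rwa [map_sub, sub_eq_zero] at h5
  rw [← h4]
  exact (norm_apply_le_of_op_le hα y').trans h2.le

theorem isLUB_nrmF [∀ k, FiniteDimensional 𝕜 (Z k)] (hf : Normalized f) {X Y : Type}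
    [NormedAddCommGroup X] [NormedSpace 𝕜 X] [NormedAddCommGroup Y] [NormedSpace 𝕜 Y]
    (T : X →L[𝕜] Y) :
    IsLUB {r | ∃ (M : Submodule 𝕜 X) (_ : FiniteDimensional 𝕜 M) (L : Submodule 𝕜 Y)
      (_ : IsClosed (L : Set Y)) (_ : FiniteDimensional 𝕜 (Y ⧸ L)),
      r = nrmF f (L.mkQL.comp (T.comp M.subtypeL))} (nrmF f T) := by
  have hub : ∀ r ∈ {r | ∃ (M : Submodule 𝕜 X) (_ : FiniteDimensional 𝕜 M) (L : Submodule 𝕜 Y)
      (_ : IsClosed (L : Set Y)) (_ : FiniteDimensional 𝕜 (Y ⧸ L)),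
      r = nrmF f (L.mkQL.comp (T.comp M.subtypeL))}, r ≤ nrmF f T := by
    rintro r ⟨M, _, L, hL, _, rfl⟩
    refine (nrmF_comp_le hf L.mkQL T M.subtypeL).trans ?_
    have h1 : ‖L.mkQL‖ ≤ 1 := by
      refine ContinuousLinearMap.opNorm_le_bound _ zero_le_one fun y => ?_
      rw [one_mul]
      exact Submodule.Quotient.norm_mk_le L y
    have h2 : ‖M.subtypeL‖ ≤ 1 := Submodule.norm_subtypeL_le M
    have h3 := nrmF_nonneg hf T
    calc ‖L.mkQL‖ * nrmF f T * ‖M.subtypeL‖ ≤ 1 * nrmF f T * 1 := by gcongr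
      _ = nrmF f T := by ring
  refine ⟨hub, ?_⟩
  intro C hC
  -- the two kinds of tests
  have key : ∀ {Z' : Type} [NormedAddCommGroup Z'] [NormedSpace 𝕜 Z'] [FiniteDimensional 𝕜 Z']
      (α : Y →L[𝕜] Z') (M : Submodule 𝕜 X) [FiniteDimensional 𝕜 M], ‖α‖ ≤ 1 →
      ∃ (α' : (Y ⧸ LinearMap.ker (α : Y →ₗ[𝕜] Z')) →L[𝕜] Z'), ‖α'‖ ≤ 1 ∧
        (∀ y, α' (Submodule.Quotient.mk y) = α y) ∧
        nrmF f ((LinearMap.ker (α : Y →ₗ[𝕜] Z')).mkQL.comp (T.comp M.subtypeL)) ≤ C := by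
    intro Z' _ _ _ α M _ hα
    have hcl : IsClosed (LinearMap.ker (α : Y →ₗ[𝕜] Z') : Set Y) := α.isClosed_ker
    have hfd : FiniteDimensional 𝕜 (Y ⧸ LinearMap.ker (α : Y →ₗ[𝕜] Z')) :=
      ((α : Y →ₗ[𝕜] Z').quotKerEquivRange.symm.finiteDimensional)
    refine ⟨LinearMap.mkContinuous ((LinearMap.ker (α : Y →ₗ[𝕜] Z')).liftQ (α : Y →ₗ[𝕜] Z') le_rfl) 1
      ?_, ?_, ?_, ?_⟩
    · intro q
      obtain ⟨y, rfl⟩ := Submodule.Quotient.mk_surjective _ q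
      rw [one_mul, Submodule.liftQ_apply]
      exact norm_le_norm_mk α hα y
    · exact LinearMap.mkContinuous_norm_le _ zero_le_one _
    · intro y; rfl
    · exact hC ⟨M, inferInstance, _, hcl, hfd, rfl⟩
  refine nrmF_le ?_ ?_
  · -- the operator norm
    have hC0 : 0 ≤ C := by
      obtain ⟨_, _, _, h⟩ := key (0 : Y →L[𝕜] 𝕜) ⊥ (by simp)
      exact (nrmF_nonneg hf _).trans h
    refine ContinuousLinearMap.opNorm_le_bound _ hC0 fun x => ?_
    obtain ⟨g, hg1, hg2⟩ := exists_dual_vector'' 𝕜 (T x)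
    obtain ⟨α', h1, h2, h3⟩ := key g (Submodule.span 𝕜 {x}) hg1
    have h4 : ‖g (T x)‖ = ‖T x‖ := by
      rw [hg2, RCLike.norm_ofReal, abs_of_nonneg (norm_nonneg _)]
    rw [← h4, ← h2]
    refine (norm_apply_le_of_op_le h1 _).trans ?_
    have h5 := ((LinearMap.ker (g : Y →ₗ[𝕜] 𝕜)).mkQL.comp
      (T.comp (Submodule.span 𝕜 {x}).subtypeL)).le_opNorm ⟨x, Submodule.mem_span_singleton_self x⟩
    refine h5.trans ?_
    gcongr
    · exact (norm_le_nrmF hf _).trans h3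
    · exact le_rfl
  · intro k α x hα hx
    have hfin : FiniteDimensional 𝕜 (Submodule.span 𝕜 (Set.range x)) :=
      FiniteDimensional.span_of_finite 𝕜 (Set.finite_range x)
    obtain ⟨α', h1, h2, h3⟩ := key α (Submodule.span 𝕜 (Set.range x)) hα
    refine le_trans (le_of_eq ?_) ((le_nrmF hf _ k α'
      (fun i => (⟨x i, Submodule.subset_span ⟨i, rfl⟩⟩ : Submodule.span 𝕜 (Set.range x))) h1
      (fun i => hx i)).trans h3)
    congr 1
    refine sum_congr rfl fun i _ => ?_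
    congr 1
    exact (h2 _).symm

theorem famF_isMaximal [∀ k, FiniteDimensional 𝕜 (Z k)] (hf : Normalized f) :
    (famF f).IsMaximal := by
  intro X Y T
  have h : IsLUB ((famF f).localNorms T) ((famF f).nrm X Y T) := by
    have h0 := isLUB_nrmF (X := X.carrier) (Y := Y.carrier) hf T
    have h1 : (famF f).localNorms T = {r | ∃ (M : Submodule 𝕜 X.carrier)
        (_ : FiniteDimensional 𝕜 M) (L : Submodule 𝕜 Y.carrier) (_ : IsClosed (L : Set Y.carrier))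
        (_ : FiniteDimensional 𝕜 (Y.carrier ⧸ L)),
        r = nrmF f (L.mkQL.comp ((show X.carrier →L[𝕜] Y.carrier from T).comp M.subtypeL))} := by
      ext r
      constructor
      · rintro ⟨M, hM, L, hL, h1, h2⟩
        exact ⟨M, hM, L, hL, h1, h2⟩
      · rintro ⟨M, hM, L, hL, h1, h2⟩
        exact ⟨M, hM, L, hL, h1, h2⟩
    rw [h1]
    exact h0
  exact ⟨⟨fun _ => ⟨_, h.1⟩, fun _ => Set.mem_univ _⟩, fun _ => h⟩

end

end Pool.Agent.Lib.MP_ffba67_an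
end

section

/-!
# The main estimate
-/

namespace Pool.Agent.Lib.MP_ffba67_an

open Finset Filter Topology
open scoped ENNReal

noncomputable section

variable {𝕜 : Type} [RCLike 𝕜] {m : ℕ}

/-! ### coordinates -/

/-- vectors of `E` -/
def vt (t : Fin m → 𝕜) : VV 𝕜 m := (t, 0)

/-- vectors of level `j` -/
def vz (j : ℕ) (a : XX m j → 𝕜) : VV 𝕜 m := (0, DFinsupp.single j a)

/-- `vt` as a linear map -/
def vtL : (Fin m → 𝕜) →ₗ[𝕜] VV 𝕜 m := LinearMap.inl 𝕜 _ _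

/-- `vz` as a linear map -/
def vzL (j : ℕ) : (XX m j → 𝕜) →ₗ[𝕜] VV 𝕜 m :=
  (LinearMap.inr 𝕜 _ _).comp (DFinsupp.lsingle (R := 𝕜) (M := fun j => XX m j → 𝕜) j)

theorem vtL_apply (t : Fin m → 𝕜) : vtL t = vt t := rfl

theorem vzL_apply (j : ℕ) (a : XX m j → 𝕜) : vzL j a = vz j a := rfl

/-- the rows -/
def row (W : PP m → PP m → 𝕜) (j : ℕ) (b : XX m j → 𝕜) (x' : XX m j) : 𝕜 :=
  ((NN m j : ℝ) : 𝕜)⁻¹ * ∑ x, b x * lift W j x x'

theorem sum_mul_row (W : PP m → PP m → 𝕜) (j : ℕ) (b c : XX m j → 𝕜) :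
    ∑ x, c x * row W j b x = KK W j b c := by
  simp only [row, KK, bil, mul_sum]
  rw [sum_comm]
  refine sum_congr rfl fun x _ => sum_congr rfl fun x' _ => ?_
  ring

/-- the rows for `E` -/
def rowE (V : Fin m → Fin m → 𝕜) (g : Pt m 0) (i' : Fin m) : 𝕜 :=
  (m : 𝕜)⁻¹ * ∑ i, hh 𝕜 i g * V i i'

/-- the kernel of `E` -/
def ss (V : Fin m → Fin m → 𝕜) (g g' : Pt m 0) : 𝕜 :=
  (m : 𝕜)⁻¹ * ∑ i, ∑ i', hh 𝕜 i g * V i i' * hh 𝕜 i' g'

theorem sum_mul_rowE (V : Fin m → Fin m → 𝕜) (g g' : Pt m 0) :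
    ∑ i', hh 𝕜 i' g' * rowE V g i' = ss V g g' := by
  simp only [rowE, ss, mul_sum]
  rw [sum_comm]
  refine sum_congr rfl fun x _ => sum_congr rfl fun x' _ => ?_
  ring

section lam

variable (Λ : VV 𝕜 m →ₗ[𝕜] (Om m → 𝕜))

/-- images of the basis vectors -/
def bt (i' : Fin m) : Om m → 𝕜 := Λ (vt fun i => if i' = i then 1 else 0)

/-- images of the basis vectors -/
def bz (j : ℕ) (x' : XX m j) : Om m → 𝕜 := Λ (vz j fun x => if x' = x then 1 else 0)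

theorem lam_vt (t : Fin m → 𝕜) (ω : Om m) : Λ (vt t) ω = ∑ i', t i' * bt Λ i' ω := by
  have h := LinearMap.pi_apply_eq_sum_univ (Λ.comp vtL) t
  have h2 := congrFun h ω
  rw [LinearMap.comp_apply, vtL_apply] at h2
  rw [h2, Finset.sum_apply]
  rfl

theorem lam_vz (j : ℕ) (a : XX m j → 𝕜) (ω : Om m) :
    Λ (vz j a) ω = ∑ x', a x' * bz Λ j x' ω := by
  have h := LinearMap.pi_apply_eq_sum_univ (Λ.comp (vzL j)) a
  have h2 := congrFun h ω
  rw [LinearMap.comp_apply, vzL_apply] at h2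
  rw [h2, Finset.sum_apply]
  rfl

theorem avg_lam_vz (W : PP m → PP m → 𝕜) (j : ℕ) {ι : Type} [Fintype ι] (w : ι → XX m j → 𝕜)
    (π : ι → Om m) :
    avg (fun i => Λ (vz j (row W j (w i))) (π i))
      = ((NN m j : ℝ) : 𝕜)⁻¹ * ∑ x, ∑ x', lift W j x x' * av (fun i => w i x) π (bz Λ j x') := by
  have h1 : ∀ i, Λ (vz j (row W j (w i))) (π i)
      = ∑ x', ∑ x, (((NN m j : ℝ) : 𝕜)⁻¹ * lift W j x x') * (w i x * bz Λ j x' (π i)) := by
    intro i
    rw [lam_vz]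
    refine sum_congr rfl fun x' _ => ?_
    rw [row, mul_assoc, sum_mul, mul_sum]
    refine sum_congr rfl fun x _ => ?_
    ring
  simp only [h1]
  rw [avg_sum]
  simp only [avg_sum, avg_mul_left, ← av_apply]
  rw [sum_comm, mul_sum]
  refine sum_congr rfl fun x _ => ?_
  rw [mul_sum]
  refine sum_congr rfl fun x' _ => ?_
  ring

theorem avg_lam_vt (V : Fin m → Fin m → 𝕜) {ι : Type} [Fintype ι] (r : ι → Pt m 0)
    (π : ι → Om m) :
    avg (fun i => Λ (vt (rowE V (r i))) (π i))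
      = (m : 𝕜)⁻¹ * ∑ x, ∑ x', V x x' * av (fun i => hh 𝕜 x (r i)) π (bt Λ x') := by
  have h1 : ∀ i, Λ (vt (rowE V (r i))) (π i)
      = ∑ x', ∑ x, ((m : 𝕜)⁻¹ * V x x') * (hh 𝕜 x (r i) * bt Λ x' (π i)) := by
    intro i
    rw [lam_vt]
    refine sum_congr rfl fun x' _ => ?_
    rw [rowE, mul_assoc, sum_mul, mul_sum]
    refine sum_congr rfl fun x _ => ?_
    ring
  simp only [h1]
  rw [avg_sum]
  simp only [avg_sum, avg_mul_left, ← av_apply]
  rw [sum_comm, mul_sum]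
  refine sum_congr rfl fun x _ => ?_
  rw [mul_sum]
  refine sum_congr rfl fun x' _ => ?_
  ring

end lam

/-! ### evaluating `psi` -/

section ev

variable {W : PP m → PP m → 𝕜}

/-- the pairing of a vector of level `l` with a row placed on level `j` -/
def pr (W : PP m → PP m → 𝕜) (j : ℕ) (b : XX m j → 𝕜) (l : ℕ) (c : XX m l → 𝕜) : 𝕜 :=
  ∑ x, c x * (DFinsupp.single (β := fun j => XX m j → 𝕜) j (row W j b)) l x

theorem pr_same (j : ℕ) (b c : XX m j → 𝕜) : pr W j b j c = KK W j b c := by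
  rw [pr, DFinsupp.single_eq_same, sum_mul_row]

theorem pr_ne {j l : ℕ} (h : l ≠ j) (b : XX m j → 𝕜) (c : XX m l → 𝕜) : pr W j b l c = 0 := by
  rw [pr, DFinsupp.single_eq_of_ne h]
  simp

variable (e : (j : ℕ) → SS → XX m j → Bool)

theorem psi_vz_en (j : ℕ) (b : XX m j → 𝕜) (g : Pt m 0) :
    psi e (fun _ => (1:𝕜)) (vz j (row W j b)) (Om.en g) = pr W j b 0 (uu 𝕜 0 g) := by
  rw [psi_en]
  simp [vz, pr]

theorem psi_vz_tr (j : ℕ) (b : XX m j → 𝕜) (l : ℕ) (p : Pt m (l + 1)) :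
    psi e (fun _ => (1:𝕜)) (vz j (row W j b)) (Om.tr l p)
      = pr W j b l (pp e l p.1 p.2) + pr W j b (l + 1) (qv e (l + 1) p) := rfl

theorem psi_vz_ex (j : ℕ) (b : XX m j → 𝕜) (l : ℕ) (p : Pt m (l + 1)) :
    psi e (fun _ => (1:𝕜)) (vz j (row W j b)) (Om.ex l p)
      = pr W j b 0 (uu 𝕜 0 (root (l + 1) p)) + pr W j b (l + 1) (uu 𝕜 (l + 1) p) := by
  rw [psi_ex, one_mul]
  simp [vz, pr]

theorem psi_vt_en (V : Fin m → Fin m → 𝕜) (g g' : Pt m 0) :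
    psi e (fun _ => (1:𝕜)) (vt (rowE V g)) (Om.en g') = ss V g g' := by
  rw [psi_en, ← sum_mul_rowE]
  simp [vt]

theorem psi_vt_tr (V : Fin m → Fin m → 𝕜) (g : Pt m 0) (l : ℕ) (p : Pt m (l + 1)) :
    psi e (fun _ => (1:𝕜)) (vt (rowE V g)) (Om.tr l p) = 0 := by
  rw [psi_tr]
  simp [vt]

theorem psi_vt_ex (V : Fin m → Fin m → 𝕜) (g : Pt m 0) (l : ℕ) (p : Pt m (l + 1)) :
    psi e (fun _ => (1:𝕜)) (vt (rowE V g)) (Om.ex l p) = ss V g (root (l + 1) p) := by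
  rw [psi_ex, one_mul, ← sum_mul_rowE]
  simp [vt]

end ev

/-! ### kernels -/

theorem qv_succ (e : (j : ℕ) → SS → XX m j → Bool) (j : ℕ) (p : Pt m (j + 1)) :
    (qv e (j + 1) p : XX m (j + 1) → 𝕜) = fun x => pp e j p.1 p.2 x.1 * FF 𝕜 p.2 x.2 := rfl

theorem uu_succ (j : ℕ) (p : Pt m (j + 1)) :
    (uu 𝕜 (j + 1) p : XX m (j + 1) → 𝕜) = fun x => uu 𝕜 j p.1 x.1 * FF 𝕜 p.2 x.2 := rfl

theorem KK_uu (W : PP m → PP m → 𝕜) : ∀ (j : ℕ) (p p' : Pt m j), ∃ t : ℝ, -(1 / 255) ≤ t ∧ t ≤ 1 ∧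
    KK W j (uu 𝕜 j p) (uu 𝕜 j p') = ((t : ℝ) : 𝕜) * KK W 0 (uu 𝕜 0 (root j p)) (uu 𝕜 0 (root j p'))
  | 0, p, p' => ⟨1, by norm_num, le_rfl, by simp [root]⟩
  | j + 1, p, p' => by
    obtain ⟨t, h1, h2, h3⟩ := KK_uu W j p.1 p'.1
    refine ⟨kk p.2 p'.2 * t, ?_, ?_, ?_⟩
    · unfold kk; split_ifs <;> linarith
    · unfold kk; split_ifs <;> linarith
    · rw [uu_succ, uu_succ, KK_succ, h3]
      simp only [root]
      push_cast
      ring

section est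

variable (e : (j : ℕ) → SS → XX m j → Bool) (W : PP m → PP m → 𝕜) (V : Fin m → Fin m → 𝕜)
  {η : ℕ → ℝ}

/-- the sign conditions for one matrix -/
def GoodOne (e : (j : ℕ) → SS → XX m j → Bool) (W : PP m → PP m → 𝕜) (η : ℕ → ℝ) : Prop :=
  ∀ (j : ℕ) (s : SS) (p p' : Pt m j),
    ‖KK W j (pp e j p s) (uu 𝕜 j p')‖ ≤ η j ∧
    ‖KK W j (uu 𝕜 j p') (pp e j p s)‖ ≤ η j ∧
    ‖KK W j (pp e j p s) (qv e j p')‖ ≤ η j ∧
    ‖KK W j (qv e j p') (pp e j p s)‖ ≤ η j ∧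
    ∀ s', s' ≠ s → ‖KK W j (pp e j p s) (pp e j p' s')‖ ≤ η j

/-- vectors of the transfer blocks -/
def vtr (j : ℕ) (p : Pt m (j + 1)) : VV 𝕜 m :=
  vz j (row W j (pp e j p.1 p.2)) - vz (j + 1) (row W (j + 1) (qv e (j + 1) p))

variable {e W}

theorem eta_nonneg (hG : GoodOne (𝕜 := 𝕜) e W η) (j : ℕ) (p : Pt m j) (s : SS) : 0 ≤ η j :=
  (norm_nonneg _).trans (hG j s p p).1

theorem norm_psi_vtr_le (hG : GoodOne (𝕜 := 𝕜) e W η) (j : ℕ) (p : Pt m (j + 1)) (ω : Om m) :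
    ‖psi e (fun _ => (1:𝕜)) (vtr e W j p) ω‖ ≤ 3 * η j + η (j + 1) := by
  have h0 : 0 ≤ η j := eta_nonneg hG j p.1 p.2
  have h0' : 0 ≤ η (j + 1) := eta_nonneg hG (j + 1) p p.2
  have hU : ∀ l (p' : Pt m l), ‖pr W j (pp e j p.1 p.2) l (uu 𝕜 l p')‖ ≤ η j := by
    intro l p'
    rcases eq_or_ne l j with rfl | h
    · rw [pr_same]; exact (hG l p.2 p.1 p').1
    · rw [pr_ne h, norm_zero]; exact h0
  have hkk : ∀ (s s' : SS) (z : 𝕜) (C : ℝ), ‖z‖ ≤ C → ‖((kk s s' : ℝ) : 𝕜) * z‖ ≤ C := by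
    intro s s' z C hz
    rw [norm_mul, RCLike.norm_ofReal]
    have h1 := kk_mem s s'
    have h2 : |kk s s'| ≤ 1 := abs_le.2 ⟨by linarith [h1.1], h1.2⟩
    exact (mul_le_of_le_one_left (norm_nonneg _) h2).trans hz
  have hU' : ∀ l (p' : Pt m l), ‖pr W (j + 1) (qv e (j + 1) p) l (uu 𝕜 l p')‖ ≤ η j := by
    intro l p'
    rcases eq_or_ne l (j + 1) with rfl | h
    · rw [pr_same, qv_succ, uu_succ, KK_succ]
      exact hkk _ _ _ _ (hG j p.2 p.1 p'.1).1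
    · rw [pr_ne h, norm_zero]; exact h0
  rw [vtr, map_sub, Pi.sub_apply]
  cases ω with
  | en g =>
    rw [psi_vz_en, psi_vz_en, pr_ne (by omega : 0 ≠ j + 1), sub_zero]
    linarith [hU 0 g]
  | ex l p' =>
    rw [psi_vz_ex, psi_vz_ex, pr_ne (by omega : 0 ≠ j + 1), zero_add]
    have h1 := hU 0 (root (l + 1) p')
    have h2 := hU (l + 1) p'
    have h3 := hU' (l + 1) p'
    refine (norm_sub_le _ _).trans ?_
    have h4 := norm_add_le (pr W j (pp e j p.1 p.2) 0 (uu 𝕜 0 (root (l + 1) p')))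
      (pr W j (pp e j p.1 p.2) (l + 1) (uu 𝕜 (l + 1) p'))
    linarith
  | tr l p' =>
    rw [psi_vz_tr, psi_vz_tr]
    by_cases hl : l = j
    · subst hl
      rw [pr_ne (by omega : l + 1 ≠ l), pr_ne (by omega : l ≠ l + 1), pr_same, pr_same, add_zero,
        zero_add, qv_succ, qv_succ, KK_succ]
      by_cases hs : p'.2 = p.2
      · have h1 : ∀ x : XX m l, (pp e l p'.1 p'.2 x : 𝕜) = pp e l p'.1 p.2 x := by
          intro x; rw [hs]
        rw [hs, kk_self]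
        simp only [RCLike.ofReal_one, one_mul, sub_self, norm_zero]
        linarith
      · have h1 := (hG l p.2 p.1 p'.1).2.2.2.2 p'.2 hs
        refine (norm_sub_le _ _).trans ?_
        have h2 := hkk p.2 p'.2 _ _ h1
        linarith
    · by_cases hl2 : l = j + 1
      · subst hl2
        rw [pr_ne (by omega : j + 1 ≠ j), pr_ne (by omega : j + 1 + 1 ≠ j), pr_same,
          pr_ne (by omega : j + 1 + 1 ≠ j + 1), add_zero, add_zero, zero_sub, norm_neg]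
        have h1 := (hG (j + 1) p'.2 p'.1 p).2.2.2.1
        linarith
      · by_cases hl3 : l + 1 = j
        · subst hl3
          rw [pr_ne (by omega : l ≠ l + 1), pr_ne (by omega : l ≠ l + 1 + 1), pr_same,
            pr_ne (by omega : l + 1 ≠ l + 1 + 1), add_zero, sub_zero, zero_add]
          have h1 := (hG (l + 1) p.2 p.1 p').2.2.1
          linarith
        · rw [pr_ne hl, pr_ne hl3, pr_ne hl2, pr_ne (by omega : l + 1 ≠ j + 1)]
          simp only [add_zero, sub_self, norm_zero]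
          linarith

/-- vectors of the entrance -/
def ven (W : PP m → PP m → 𝕜) (V : Fin m → Fin m → 𝕜) (g : Pt m 0) : VV 𝕜 m :=
  vt (rowE V g) - vz 0 (row W 0 (uu 𝕜 0 g))

theorem norm_psi_ven_le (hG : GoodOne (𝕜 := 𝕜) e W η) {A : ℝ}
    (hA : ∀ g g' : Pt m 0, ‖ss V g g' - KK W 0 (uu 𝕜 0 g) (uu 𝕜 0 g')‖ ≤ A) (g : Pt m 0)
    (ω : Om m) : ‖psi e (fun _ => (1:𝕜)) (ven W V g) ω‖ ≤ A + η 0 := by
  have h0 : 0 ≤ η 0 := eta_nonneg hG 0 g (fun _ => true)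
  have hA0 : 0 ≤ A := (norm_nonneg _).trans (hA g g)
  rw [ven, map_sub, Pi.sub_apply]
  cases ω with
  | en g' =>
    rw [psi_vt_en, psi_vz_en, pr_same]
    linarith [hA g g']
  | ex l p' =>
    rw [psi_vt_ex, psi_vz_ex, pr_same, pr_ne (by omega : l + 1 ≠ 0), add_zero]
    linarith [hA g (root (l + 1) p')]
  | tr l p' =>
    rw [psi_vt_tr, psi_vz_tr, pr_ne (by omega : l + 1 ≠ 0), add_zero, zero_sub, norm_neg]
    rcases eq_or_ne l 0 with rfl | h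
    · rw [pr_same]
      linarith [(hG 0 p'.2 p'.1 g).2.1]
    · rw [pr_ne h, norm_zero]; linarith

/-- vectors of the exit -/
def vex (W : PP m → PP m → 𝕜) (V : Fin m → Fin m → 𝕜) (c : 𝕜) (n : ℕ) (p : Pt m (n + 1)) : VV 𝕜 m :=
  vz (n + 1) (row W (n + 1) (uu 𝕜 (n + 1) p)) - c • vt (rowE V (root (n + 1) p))

theorem norm_psi_vex_le (hG : GoodOne (𝕜 := 𝕜) e W η) {A : ℝ} {c : 𝕜}
    (hA : ∀ (g g' : Pt m 0) (t : ℝ), -(1 / 255) ≤ t → t ≤ 1 →
      ‖((t : ℝ) : 𝕜) * KK W 0 (uu 𝕜 0 g) (uu 𝕜 0 g') - c * ss V g g'‖ ≤ A) (n : ℕ)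
    (p : Pt m (n + 1)) (ω : Om m) :
    ‖psi e (fun _ => (1:𝕜)) (vex W V c n p) ω‖ ≤ A + η n + η (n + 1) := by
  have h0 : 0 ≤ η n := eta_nonneg hG n p.1 (fun _ => true)
  have h0' : 0 ≤ η (n + 1) := eta_nonneg hG (n + 1) p (fun _ => true)
  have hA' : ∀ g g' : Pt m 0, ‖c * ss V g g'‖ ≤ A := by
    intro g g'
    have := hA g g' 0 (by norm_num) (by norm_num)
    simpa using this
  have hA0 : 0 ≤ A := (norm_nonneg _).trans (hA' (root _ p) (root _ p))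
  rw [vex, map_sub, map_smul, Pi.sub_apply, Pi.smul_apply, smul_eq_mul]
  cases ω with
  | en g' =>
    rw [psi_vt_en, psi_vz_en, pr_ne (by omega : 0 ≠ n + 1), zero_sub, norm_neg]
    linarith [hA' (root (n + 1) p) g']
  | ex l p' =>
    rw [psi_vt_ex, psi_vz_ex, pr_ne (by omega : 0 ≠ n + 1), zero_add]
    by_cases hl : l = n
    · subst hl
      rw [pr_same]
      obtain ⟨t, h1, h2, h3⟩ := KK_uu W (l + 1) p p'
      rw [h3]
      linarith [hA (root (l + 1) p) (root (l + 1) p') t h1 h2]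
    · rw [pr_ne (by omega : l + 1 ≠ n + 1), zero_sub, norm_neg]
      linarith [hA' (root (n + 1) p) (root (l + 1) p')]
  | tr l p' =>
    rw [psi_vt_tr, psi_vz_tr, mul_zero, sub_zero]
    have h1 : ‖pr W (n + 1) (uu 𝕜 (n + 1) p) l (pp e l p'.1 p'.2)‖ ≤ η (n + 1) := by
      rcases eq_or_ne l (n + 1) with rfl | h
      · rw [pr_same]; exact (hG (n + 1) p'.2 p'.1 p).2.1
      · rw [pr_ne h, norm_zero]; exact h0'
    have h2 : ‖pr W (n + 1) (uu 𝕜 (n + 1) p) (l + 1) (qv e (l + 1) p')‖ ≤ η n := by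
      by_cases h : l = n
      · subst h
        rw [pr_same, qv_succ, uu_succ, KK_succ, norm_mul, RCLike.norm_ofReal]
        have h3 := kk_mem p.2 p'.2
        have h4 : |kk p.2 p'.2| ≤ 1 := abs_le.2 ⟨by linarith [h3.1], h3.2⟩
        exact (mul_le_of_le_one_left (norm_nonneg _) h4).trans (hG l p'.2 p'.1 p.1).2.1
      · rw [pr_ne (by omega), norm_zero]; exact h0
    refine (norm_add_le _ _).trans ?_
    linarith

end est

end

end Pool.Agent.Lib.MP_ffba67_an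
end

section

/-!
# Elements of the bidual
-/

namespace Pool.Agent.Lib.MP_ffba67_an

open Finset Filter Topology
open scoped ENNReal

noncomputable section

variable {𝕜 : Type} [RCLike 𝕜] {m : ℕ}

/-- the limit along a fixed free ultrafilter -/
def ulim (u : ℕ → 𝕜) : 𝕜 := limUnder (hyperfilter ℕ : Filter ℕ) u

theorem tendsto_ulim {u : ℕ → 𝕜} {C : ℝ} (h : ∀ᶠ n in (hyperfilter ℕ : Filter ℕ), ‖u n‖ ≤ C) :
    Tendsto u (hyperfilter ℕ : Filter ℕ) (𝓝 (ulim u)) := by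
  have h1 : IsCompact (Metric.closedBall (0:𝕜) C) := isCompact_closedBall _ _
  have h2 : ((hyperfilter ℕ).map u : Filter 𝕜) ≤ 𝓟 (Metric.closedBall (0:𝕜) C) := by
    rw [le_principal_iff]
    show u ⁻¹' _ ∈ (hyperfilter ℕ : Filter ℕ)
    filter_upwards [h] with n hn
    simpa using hn
  obtain ⟨a, -, ha⟩ := h1.ultrafilter_le_nhds ((hyperfilter ℕ).map u) h2
  exact tendsto_nhds_limUnder ⟨a, ha⟩

theorem ulim_add {u v : ℕ → 𝕜} {C D : ℝ} (hu : ∀ᶠ n in (hyperfilter ℕ : Filter ℕ), ‖u n‖ ≤ C)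
    (hv : ∀ᶠ n in (hyperfilter ℕ : Filter ℕ), ‖v n‖ ≤ D) :
    ulim (fun n => u n + v n) = ulim u + ulim v :=
  ((tendsto_ulim hu).add (tendsto_ulim hv)).limUnder_eq

theorem ulim_smul {u : ℕ → 𝕜} {C : ℝ} (c : 𝕜)
    (hu : ∀ᶠ n in (hyperfilter ℕ : Filter ℕ), ‖u n‖ ≤ C) :
    ulim (fun n => c * u n) = c * ulim u :=
  ((tendsto_ulim hu).const_mul c).limUnder_eq

theorem norm_ulim_le {u : ℕ → 𝕜} {C : ℝ} (h : ∀ᶠ n in (hyperfilter ℕ : Filter ℕ), ‖u n‖ ≤ C) :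
    ‖ulim u‖ ≤ C :=
  le_of_tendsto (tendsto_ulim h).norm h

theorem ulim_const (c : 𝕜) : ulim (fun _ => c) = c :=
  (tendsto_const_nhds : Tendsto (fun _ : ℕ => c) (hyperfilter ℕ : Filter ℕ) (𝓝 c)).limUnder_eq

variable (e : (j : ℕ) → SS → XX m j → Bool)

/-- the cut-off weights -/
def th (k : ℕ) (n : ℕ) : 𝕜 := if n ≤ k then 1 else 0

theorem norm_th_le (k n : ℕ) : ‖(th k n : 𝕜)‖ ≤ 1 := by
  unfold th; split_ifs <;> simp

/-- the truncated vectors -/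
def yk (k : ℕ) (v : VV 𝕜 m) : YY 𝕜 e :=
  mkY (psi e (th k) v) (3 * nv v) (norm_psi_le e _ v (norm_th_le k)) (rel_psi e _ v) (by
    intro i
    simp only [xin_psi]
    apply tendsto_const_nhds.congr'
    filter_upwards [eventually_gt_atTop k] with n hn
    rw [th, if_neg (by omega), zero_mul])

theorem fy_yk (k : ℕ) (v : VV 𝕜 m) : fy e (yk e k v) = psi e (th k) v := rfl

theorem yk_add (k : ℕ) (v w : VV 𝕜 m) : yk e k (v + w) = yk e k v + yk e k w := by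
  apply fy_injective
  rw [map_add, fy_yk, fy_yk, fy_yk, map_add]

theorem yk_smul (k : ℕ) (c : 𝕜) (v : VV 𝕜 m) : yk e k (c • v) = c • yk e k v := by
  apply fy_injective
  rw [map_smul, fy_yk, fy_yk, map_smul]

theorem norm_yk_le (k : ℕ) (v : VV 𝕜 m) : ‖yk e k v‖ ≤ 3 * nv v :=
  norm_YY_le (by have := nv_nonneg v; positivity) fun ω => norm_psi_le e _ v (norm_th_le k) ω

/-- the truncations have eventually the right norm -/
theorem eventually_norm_yk_le (v : VV 𝕜 m) {C : ℝ} (hC : 0 ≤ C)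
    (h : ∀ ω, ‖psi e (fun _ => (1:𝕜)) v ω‖ ≤ C) : ∀ᶠ k in atTop, ‖yk e k v‖ ≤ C := by
  filter_upwards [eventually_ge_atTop (v.2.support.sup id)] with k hk
  refine norm_YY_le hC fun ω => ?_
  rw [fy_yk]
  cases ω with
  | en g => exact h (Om.en g)
  | tr j p => exact h (Om.tr j p)
  | ex n p =>
    by_cases hn : n ≤ k
    · have h1 : psi e (th k) v (Om.ex n p) = psi e (fun _ => (1:𝕜)) v (Om.ex n p) := by
        rw [psi_ex, psi_ex, th, if_pos hn]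
      rw [h1]
      exact h _
    · have h2 : v.2 (n + 1) = 0 := by
        by_contra hne
        have h3 : n + 1 ∈ v.2.support := by simpa using hne
        have h4 : n + 1 ≤ v.2.support.sup id := le_sup (f := id) h3
        omega
      rw [psi_ex, th, if_neg hn, h2]
      simpa using hC

theorem eventually_hyper {p : ℕ → Prop} (h : ∀ᶠ k in atTop, p k) :
    ∀ᶠ k in (hyperfilter ℕ : Filter ℕ), p k := by
  have h1 : (hyperfilter ℕ : Filter ℕ) ≤ atTop := by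
    rw [← Nat.cofinite_eq_atTop]
    exact hyperfilter_le_cofinite
  exact h1 h

theorem norm_apply_yk_le (v : VV 𝕜 m) (a : StrongDual 𝕜 (YY 𝕜 e)) :
    ∀ᶠ k in (hyperfilter ℕ : Filter ℕ), ‖a (yk e k v)‖ ≤ ‖a‖ * (3 * nv v) := by
  refine Eventually.of_forall fun k => ?_
  exact (a.le_opNorm _).trans (by gcongr; exact norm_yk_le e k v)

/-- one element of the bidual -/
def J1 (v : VV 𝕜 m) : StrongDual 𝕜 (StrongDual 𝕜 (YY 𝕜 e)) :=
  LinearMap.mkContinuous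
    { toFun := fun a => ulim fun k => a (yk e k v)
      map_add' := fun a b => by
        rw [← ulim_add (norm_apply_yk_le e v a) (norm_apply_yk_le e v b)]
        rfl
      map_smul' := fun c a => by
        rw [RingHom.id_apply, smul_eq_mul, ← ulim_smul c (norm_apply_yk_le e v a)]
        rfl } (3 * nv v) (fun a =>
      (norm_ulim_le (norm_apply_yk_le e v a)).trans (le_of_eq (mul_comm _ _)))

theorem J1_apply (v : VV 𝕜 m) (a : StrongDual 𝕜 (YY 𝕜 e)) :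
    J1 e v a = ulim fun k => a (yk e k v) := rfl

/-- the embedding of the coordinate space into the bidual -/
def Jl : VV 𝕜 m →ₗ[𝕜] StrongDual 𝕜 (StrongDual 𝕜 (YY 𝕜 e)) where
  toFun v := J1 e v
  map_add' v w := by
    ext a
    rw [_root_.add_apply, J1_apply, J1_apply, J1_apply,
      ← ulim_add (norm_apply_yk_le e v a) (norm_apply_yk_le e w a)]
    congr 1
    ext k
    rw [yk_add, map_add]
  map_smul' c v := by
    ext a
    rw [_root_.smul_apply, RingHom.id_apply, J1_apply, J1_apply, smul_eq_mul,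
      ← ulim_smul c (norm_apply_yk_le e v a)]
    congr 1
    ext k
    rw [yk_smul, map_smul, smul_eq_mul]

theorem Jl_apply (v : VV 𝕜 m) (a : StrongDual 𝕜 (YY 𝕜 e)) :
    Jl e v a = ulim fun k => a (yk e k v) := rfl

theorem norm_Jl_le (v : VV 𝕜 m) {C : ℝ} (hC : 0 ≤ C)
    (h : ∀ ω, ‖psi e (fun _ => (1:𝕜)) v ω‖ ≤ C) : ‖Jl e v‖ ≤ C := by
  refine ContinuousLinearMap.opNorm_le_bound _ hC fun a => ?_
  rw [Jl_apply, mul_comm]
  refine norm_ulim_le ?_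
  filter_upwards [eventually_hyper (eventually_norm_yk_le e v hC h)] with k hk
  exact (a.le_opNorm _).trans (by gcongr)

/-- the functionals `xi i` on `Y` -/
def xiY (i : Fin m) : StrongDual 𝕜 (YY 𝕜 e) :=
  LinearMap.mkContinuous ((xi i).comp (fy e)) 1 (fun f => by
      rw [one_mul]
      exact norm_xi_le i (norm_nonneg _) (norm_fy_le f))

theorem xiY_apply (i : Fin m) (f : YY 𝕜 e) : xiY e i f = xi i (fy e f) := rfl

theorem Jl_xiY (v : VV 𝕜 m) (i : Fin m) : Jl e v (xiY e i) = v.1 i := by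
  rw [Jl_apply]
  have h : (fun k => xiY e i (yk e k v)) = fun _ => v.1 i := by
    ext k
    rw [xiY_apply, fy_yk, xi_psi]
  rw [h, ulim_const]

end

end Pool.Agent.Lib.MP_ffba67_an
end
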