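import Pool.Agent.Lib.MP_ffba67_an.Jmap

section

/-!
# The matrices attached to signed substitutions
-/

namespace Pool.Agent.Lib.MP_ffba67_an

open Finset Filter Topology

noncomputable section

variable {𝕜 : Type} [RCLike 𝕜] {m : ℕ}

/-- a point of level zero as a sign vector -/
def toG (g : Pt m 0) : GG m := g

theorem hh_toG (i : Fin m) (g : Pt m 0) : hh 𝕜 i g = sg 𝕜 (toG g i) := rfl

/-- the matrix of a signed substitution -/
def Vmat (φ : Fin m → Fin m) (ω : Fin m → 𝕜) (i i' : Fin m) : 𝕜 := if i' = φ i then ω i else 0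

/-- the cubic matrix of a signed substitution -/
def Wmat (φ : Fin m → Fin m) (ω : Fin m → 𝕜) (B B' : PP m) : 𝕜 :=
  ∑ a, ∑ b, ∑ c, if ({a, b, c} : Finset (Fin m)) = B.1 ∧ ({φ a, φ b, φ c} : Finset (Fin m)) = B'.1
    then ω a * ω b * (starRingEnd 𝕜) (ω c) else 0

section

variable (φ : Fin m → Fin m) (ω : Fin m → 𝕜)

theorem norm_Wmat_le (hω : ∀ i, ‖ω i‖ ≤ 1) (B B' : PP m) :
    ‖Wmat φ ω B B'‖ ≤ ∑ a, ∑ b, ∑ c,
      if (({a, b, c} : Finset (Fin m)) = B.1 ∧ ({φ a, φ b, φ c} : Finset (Fin m)) = B'.1) ∧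
        (ω a ≠ 0 ∧ ω b ≠ 0 ∧ ω c ≠ 0) then (1:ℝ) else 0 := by
  unfold Wmat
  refine (norm_sum_le _ _).trans (sum_le_sum fun a _ => (norm_sum_le _ _).trans
    (sum_le_sum fun b _ => (norm_sum_le _ _).trans (sum_le_sum fun c _ => ?_)))
  by_cases h : ({a, b, c} : Finset (Fin m)) = B.1 ∧ ({φ a, φ b, φ c} : Finset (Fin m)) = B'.1
  · rw [if_pos h]
    by_cases h2 : ω a ≠ 0 ∧ ω b ≠ 0 ∧ ω c ≠ 0
    · rw [if_pos ⟨h, h2⟩, norm_mul, norm_mul, RCLike.norm_conj]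
      have h3 := hω a
      have h4 := hω b
      have h5 := hω c
      calc ‖ω a‖ * ‖ω b‖ * ‖ω c‖ ≤ 1 * 1 * 1 := by gcongr
        _ = 1 := by norm_num
    · rw [if_neg (fun h' => h2 h'.2)]
      have h3 : ω a * ω b * (starRingEnd 𝕜) (ω c) = 0 := by
        by_cases ha : ω a = 0
        · rw [ha]; ring
        · by_cases hb : ω b = 0
          · rw [hb]; ring
          · have hc : ω c = 0 := by
              by_contra hc
              exact h2 ⟨ha, hb, hc⟩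
            rw [hc]; simp
      rw [h3, norm_zero]
  · rw [if_neg h, if_neg (fun h' => h h'.1), norm_zero]

theorem sum_ite_cube (A : Finset (Fin m)) :
    ∑ a, ∑ b, ∑ c, (if a ∈ A ∧ b ∈ A ∧ c ∈ A then (1:ℝ) else 0) = (A.card : ℝ) ^ 3 := by
  have h1 : ∀ a b c : Fin m, (if a ∈ A ∧ b ∈ A ∧ c ∈ A then (1:ℝ) else 0)
      = (if a ∈ A then 1 else 0) * ((if b ∈ A then 1 else 0) * (if c ∈ A then 1 else 0)) := by
    intro a b c
    by_cases ha : a ∈ A <;> by_cases hb : b ∈ A <;> by_cases hc : c ∈ A <;> simp [ha, hb, hc]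
  simp only [h1, ← mul_sum, ← sum_mul]
  simp only [sum_ite_mem, univ_inter, sum_const, nsmul_eq_mul, mul_one]
  ring

theorem bdd_Wmat (hω : ∀ i, ‖ω i‖ ≤ 1) {L : ℕ} (hL1 : 1 ≤ L)
    (hL : ∀ q, (univ.filter fun i => ω i ≠ 0 ∧ φ i = q).card ≤ L) :
    Bdd (Wmat φ ω) (27 * (L:ℝ) ^ 3) := by
  classical
  have hL' : (1:ℝ) ≤ (L:ℝ) ^ 3 := one_le_pow₀ (by exact_mod_cast hL1)
  constructor
  · intro B
    have h1 : ∑ B', ‖Wmat φ ω B B'‖ ≤ ∑ a, ∑ b, ∑ c,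
        (if a ∈ B.1 ∧ b ∈ B.1 ∧ c ∈ B.1 then (1:ℝ) else 0) := by
      refine (sum_le_sum fun B' _ => norm_Wmat_le φ ω hω B B').trans ?_
      rw [sum_comm]
      refine sum_le_sum fun a _ => ?_
      rw [sum_comm]
      refine sum_le_sum fun b _ => ?_
      rw [sum_comm]
      refine sum_le_sum fun c _ => ?_
      by_cases h : ({a, b, c} : Finset (Fin m)) = B.1
      · rw [if_pos (by rw [← h]; simp)]
        by_cases h2 : ∃ B' : PP m, ({φ a, φ b, φ c} : Finset (Fin m)) = B'.1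
        · obtain ⟨B', hB'⟩ := h2
          rw [sum_eq_single B']
          · split_ifs <;> norm_num
          · intro B'' _ hne
            rw [if_neg]
            rintro ⟨⟨-, h3⟩, -⟩
            exact hne (Subtype.ext (h3.symm.trans hB'))
          · intro h3; exact absurd (mem_univ _) h3
        · rw [sum_eq_zero]
          · norm_num
          · intro B'' _
            rw [if_neg]
            rintro ⟨⟨-, h3⟩, -⟩
            exact h2 ⟨B'', h3⟩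
      · rw [sum_eq_zero]
        · split_ifs <;> norm_num
        · intro B'' _
          rw [if_neg]
          rintro ⟨⟨h3, -⟩, -⟩
          exact h h3
    refine h1.trans ?_
    rw [sum_ite_cube, B.2]
    norm_num
    exact_mod_cast hL'
  · intro B'
    set A : Finset (Fin m) := univ.filter fun i => ω i ≠ 0 ∧ φ i ∈ B'.1 with hA
    have h1 : ∑ B, ‖Wmat φ ω B B'‖ ≤ ∑ a, ∑ b, ∑ c,
        (if a ∈ A ∧ b ∈ A ∧ c ∈ A then (1:ℝ) else 0) := by
      refine (sum_le_sum fun B _ => norm_Wmat_le φ ω hω B B').trans ?_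
      rw [sum_comm]
      refine sum_le_sum fun a _ => ?_
      rw [sum_comm]
      refine sum_le_sum fun b _ => ?_
      rw [sum_comm]
      refine sum_le_sum fun c _ => ?_
      by_cases h : ({φ a, φ b, φ c} : Finset (Fin m)) = B'.1 ∧ (ω a ≠ 0 ∧ ω b ≠ 0 ∧ ω c ≠ 0)
      · have h3 : a ∈ A ∧ b ∈ A ∧ c ∈ A := by
          obtain ⟨h, ha, hb, hc⟩ := h
          simp only [hA, mem_filter, mem_univ, true_and]
          rw [← h]
          refine ⟨⟨ha, ?_⟩, ⟨hb, ?_⟩, ⟨hc, ?_⟩⟩ <;> simp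
        rw [if_pos h3]
        by_cases h2 : ∃ B : PP m, ({a, b, c} : Finset (Fin m)) = B.1
        · obtain ⟨B, hB⟩ := h2
          rw [sum_eq_single B]
          · split_ifs <;> norm_num
          · intro B'' _ hne
            rw [if_neg]
            rintro ⟨⟨h3, -⟩, -⟩
            exact hne (Subtype.ext (h3.symm.trans hB))
          · intro h3; exact absurd (mem_univ _) h3
        · rw [sum_eq_zero]
          · norm_num
          · intro B'' _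
            rw [if_neg]
            rintro ⟨⟨h3, -⟩, -⟩
            exact h2 ⟨B'', h3⟩
      · rw [sum_eq_zero]
        · split_ifs <;> norm_num
        · intro B'' _
          rw [if_neg]
          rintro ⟨⟨-, h3⟩, h4⟩
          exact h ⟨h3, h4⟩
    refine h1.trans ?_
    rw [sum_ite_cube]
    have h2 : A.card ≤ 3 * L := by
      have h3 : A ⊆ B'.1.biUnion fun q => univ.filter fun i => ω i ≠ 0 ∧ φ i = q := by
        intro i hi
        simp only [hA, mem_filter, mem_univ, true_and] at hi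
        simp only [mem_biUnion, mem_filter, mem_univ, true_and]
        exact ⟨φ i, hi.2, hi.1, rfl⟩
      refine (card_le_card h3).trans (card_biUnion_le.trans ?_)
      refine (sum_le_sum fun q _ => hL q).trans ?_
      rw [sum_const, B'.2, smul_eq_mul]
    have h4 : (A.card : ℝ) ≤ 3 * L := by exact_mod_cast h2
    calc (A.card : ℝ) ^ 3 ≤ (3 * L) ^ 3 := by gcongr
      _ = 27 * (L:ℝ) ^ 3 := by ring

/-- the terms -/
def aa (g g' : Pt m 0) (i : Fin m) : 𝕜 := hh 𝕜 i g * ω i * hh 𝕜 (φ i) g'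

theorem norm_aa_le (hω : ∀ i, ‖ω i‖ ≤ 1) (g g' : Pt m 0) (i : Fin m) : ‖aa φ ω g g' i‖ ≤ 1 := by
  rw [aa, norm_mul, norm_mul, norm_hh, norm_hh, one_mul, mul_one]
  exact hω i

theorem ss_Vmat (g g' : Pt m 0) : ss (Vmat φ ω) g g' = (m : 𝕜)⁻¹ * ∑ i, aa φ ω g g' i := by
  rw [ss]
  congr 1
  refine sum_congr rfl fun i _ => ?_
  rw [sum_eq_single (φ i)]
  · rw [Vmat, if_pos rfl, aa]
  · intro b _ hb
    rw [Vmat, if_neg hb]; ring
  · intro h; exact absurd (mem_univ _) h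

theorem walsh_triple {a b c : Fin m} (h : ({a, b, c} : Finset (Fin m)).card = 3)
    (g : GG m) : walsh 𝕜 {a, b, c} g = sg 𝕜 (g a) * sg 𝕜 (g b) * sg 𝕜 (g c) := by
  have hab : a ≠ b := by
    rintro rfl
    have h1 : ({a, a, c} : Finset (Fin m)).card ≤ 2 := by
      rw [insert_idem]; exact card_le_two
    omega
  have hac : a ≠ c := by
    rintro rfl
    have h1 : ({a, b, a} : Finset (Fin m)).card ≤ 2 := by
      have : ({a, b, a} : Finset (Fin m)) = {a, b} := by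
        ext x; simp; tauto
      rw [this]; exact card_le_two
    omega
  have hbc : b ≠ c := by
    rintro rfl
    have h1 : ({a, b, b} : Finset (Fin m)).card ≤ 2 := by
      have : ({a, b, b} : Finset (Fin m)) = {a, b} := by
        ext x; simp
      rw [this]; exact card_le_two
    omega
  rw [walsh, prod_insert (by simp [hab, hac]), prod_insert (by simpa using hbc), prod_singleton,
    mul_assoc]

/-- distinctness -/
def good (a b c : Fin m) : Prop := φ a ≠ φ b ∧ φ a ≠ φ c ∧ φ b ≠ φ c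

theorem card_of_good {a b c : Fin m} (h : good φ a b c) :
    ({a, b, c} : Finset (Fin m)).card = 3 ∧ ({φ a, φ b, φ c} : Finset (Fin m)).card = 3 := by
  obtain ⟨h1, h2, h3⟩ := h
  constructor
  · rw [card_eq_three]
    exact ⟨a, b, c, fun h => h1 (by rw [h]), fun h => h2 (by rw [h]), fun h => h3 (by rw [h]), rfl⟩
  · rw [card_eq_three]
    exact ⟨_, _, _, h1, h2, h3, rfl⟩

theorem good_of_card {a b c : Fin m} (h : ({φ a, φ b, φ c} : Finset (Fin m)).card = 3) :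
    good φ a b c := by
  refine ⟨?_, ?_, ?_⟩
  · intro h1
    have h2 : ({φ a, φ b, φ c} : Finset (Fin m)) = {φ b, φ c} := by
      rw [h1, insert_idem]
    rw [h2] at h
    have := card_le_two (a := φ b) (b := φ c)
    omega
  · intro h1
    have h2 : ({φ a, φ b, φ c} : Finset (Fin m)) = {φ b, φ c} := by
      rw [h1]; ext x; simp
    rw [h2] at h
    have := card_le_two (a := φ b) (b := φ c)
    omega
  · intro h1
    have h2 : ({φ a, φ b, φ c} : Finset (Fin m)) = {φ a, φ c} := by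
      rw [h1]; ext x; simp
    rw [h2] at h
    have := card_le_two (a := φ a) (b := φ c)
    omega

open Classical in
theorem KK_Wmat (g g' : Pt m 0) : KK (Wmat φ ω) 0 (uu 𝕜 0 g) (uu 𝕜 0 g')
    = ((m : 𝕜) ^ 3)⁻¹ * ∑ a, ∑ b, ∑ c, if good φ a b c
      then aa φ ω g g' a * aa φ ω g g' b * (starRingEnd 𝕜) (aa φ ω g g' c) else 0 := by
  have h0 : KK (Wmat φ ω) 0 (uu 𝕜 0 g) (uu 𝕜 0 g') = ((m : 𝕜) ^ 3)⁻¹ *
      ∑ B : PP m, ∑ B' : PP m, walsh 𝕜 B.1 (toG g) * Wmat φ ω B B'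
        * walsh 𝕜 B'.1 (toG g') := by
    rw [KK]
    congr 1
    rw [NN]
    push_cast
    simp
  rw [h0]
  congr 1
  have h1 : ∀ B B' : PP m, walsh 𝕜 B.1 (toG g) * Wmat φ ω B B'
        * walsh 𝕜 B'.1 (toG g')
      = ∑ a, ∑ b, ∑ c, if ({a, b, c} : Finset (Fin m)) = B.1 ∧
          ({φ a, φ b, φ c} : Finset (Fin m)) = B'.1
        then walsh 𝕜 B.1 (toG g) * (ω a * ω b * (starRingEnd 𝕜) (ω c))
          * walsh 𝕜 B'.1 (toG g') else 0 := by
    intro B B'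
    rw [Wmat]
    simp only [mul_sum, sum_mul, mul_ite, ite_mul, mul_zero, zero_mul]
  simp only [h1]
  have h2 : ∀ F : PP m → PP m → Fin m → Fin m → Fin m → 𝕜,
      ∑ B, ∑ B', ∑ a, ∑ b, ∑ c, F B B' a b c = ∑ a, ∑ b, ∑ c, ∑ B, ∑ B', F B B' a b c := by
    intro F
    calc ∑ B, ∑ B', ∑ a, ∑ b, ∑ c, F B B' a b c
        = ∑ B, ∑ a, ∑ B', ∑ b, ∑ c, F B B' a b c :=
          sum_congr rfl fun B _ => sum_comm
      _ = ∑ B, ∑ a, ∑ b, ∑ B', ∑ c, F B B' a b c :=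
          sum_congr rfl fun B _ => sum_congr rfl fun a _ => sum_comm
      _ = ∑ B, ∑ a, ∑ b, ∑ c, ∑ B', F B B' a b c :=
          sum_congr rfl fun B _ => sum_congr rfl fun a _ => sum_congr rfl fun b _ => sum_comm
      _ = ∑ a, ∑ B, ∑ b, ∑ c, ∑ B', F B B' a b c := sum_comm
      _ = ∑ a, ∑ b, ∑ B, ∑ c, ∑ B', F B B' a b c :=
          sum_congr rfl fun a _ => sum_comm
      _ = ∑ a, ∑ b, ∑ c, ∑ B, ∑ B', F B B' a b c :=
          sum_congr rfl fun a _ => sum_congr rfl fun b _ => sum_comm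
  rw [h2]
  refine sum_congr rfl fun a _ => sum_congr rfl fun b _ => sum_congr rfl fun c _ => ?_
  by_cases hg : good φ a b c
  · rw [if_pos hg]
    obtain ⟨hc1, hc2⟩ := card_of_good φ hg
    rw [sum_eq_single (⟨{a, b, c}, hc1⟩ : PP m)]
    · rw [sum_eq_single (⟨{φ a, φ b, φ c}, hc2⟩ : PP m)]
      · have e1 : walsh 𝕜 (⟨{a, b, c}, hc1⟩ : PP m).1 (toG g)
            = sg 𝕜 (toG g a) * sg 𝕜 (toG g b) * sg 𝕜 (toG g c) := walsh_triple hc1 _
        have e2 : walsh 𝕜 (⟨{φ a, φ b, φ c}, hc2⟩ : PP m).1 (toG g')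
            = sg 𝕜 (toG g' (φ a)) * sg 𝕜 (toG g' (φ b)) * sg 𝕜 (toG g' (φ c)) := walsh_triple hc2 _
        rw [if_pos ⟨rfl, rfl⟩, e1, e2, aa, aa, aa]
        simp only [map_mul, star_hh]
        simp only [hh_toG]
        ring
      · intro B' _ hne
        rw [if_neg]
        rintro ⟨-, h3⟩
        exact hne (Subtype.ext h3.symm)
      · intro h; exact absurd (mem_univ _) h
    · intro B _ hne
      apply sum_eq_zero
      intro B' _
      rw [if_neg]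
      rintro ⟨h3, -⟩
      exact hne (Subtype.ext h3.symm)
    · intro h; exact absurd (mem_univ _) h
  · rw [if_neg hg]
    refine sum_eq_zero fun B _ => sum_eq_zero fun B' _ => ?_
    rw [if_neg]
    rintro ⟨-, h3⟩
    exact hg (good_of_card φ (by rw [h3]; exact B'.2))

theorem cube_eq (a : Fin m → 𝕜) :
    ((m : 𝕜)⁻¹ * ∑ i, a i) * ((m : 𝕜)⁻¹ * ∑ i, a i) * (starRingEnd 𝕜) ((m : 𝕜)⁻¹ * ∑ i, a i)
      = ((m : 𝕜) ^ 3)⁻¹ * ∑ i, ∑ j, ∑ k, a i * a j * (starRingEnd 𝕜) (a k) := by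
  have h1 : ∑ i, ∑ j, ∑ k, a i * a j * (starRingEnd 𝕜) (a k)
      = (∑ i, a i) * (∑ i, a i) * (starRingEnd 𝕜) (∑ i, a i) := by
    rw [map_sum, sum_mul_sum, sum_mul]
    refine sum_congr rfl fun i _ => ?_
    rw [sum_mul_sum]
  rw [h1]
  simp only [map_mul, map_inv₀, map_natCast]
  ring

theorem norm_KK_sub_le (hm : 0 < m) (hω : ∀ i, ‖ω i‖ ≤ 1) {L : ℕ}
    (hL : ∀ q, (univ.filter fun i => ω i ≠ 0 ∧ φ i = q).card ≤ L) (g g' : Pt m 0) :
    ‖KK (Wmat φ ω) 0 (uu 𝕜 0 g) (uu 𝕜 0 g')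
      - ss (Vmat φ ω) g g' * ss (Vmat φ ω) g g' * (starRingEnd 𝕜) (ss (Vmat φ ω) g g')‖
      ≤ 3 * L / m := by
  classical
  have hm' : (0:ℝ) < m := by exact_mod_cast hm
  rw [KK_Wmat, ss_Vmat, cube_eq, ← mul_sub, ← sum_sub_distrib, norm_mul, norm_inv, norm_pow,
    RCLike.norm_natCast, inv_mul_le_iff₀ (by positivity)]
  have hz : ∀ i, ω i = 0 → aa φ ω g g' i = 0 := by
    intro i hi; rw [aa, hi]; ring
  have h1 : ‖∑ a, ((∑ b, ∑ c, if good φ a b c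
      then aa φ ω g g' a * aa φ ω g g' b * (starRingEnd 𝕜) (aa φ ω g g' c) else 0)
      - ∑ b, ∑ c, aa φ ω g g' a * aa φ ω g g' b * (starRingEnd 𝕜) (aa φ ω g g' c))‖
      ≤ ∑ a : Fin m, ∑ b : Fin m, ∑ c : Fin m, ((if ω b ≠ 0 ∧ φ b = φ a then (1:ℝ) else 0)
        + (if ω c ≠ 0 ∧ φ c = φ a then 1 else 0) + (if ω c ≠ 0 ∧ φ c = φ b then 1 else 0)) := by
    refine (norm_sum_le _ _).trans (sum_le_sum fun a _ => ?_)
    rw [← sum_sub_distrib]
    refine (norm_sum_le _ _).trans (sum_le_sum fun b _ => ?_)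
    rw [← sum_sub_distrib]
    refine (norm_sum_le _ _).trans (sum_le_sum fun c _ => ?_)
    by_cases hg : good φ a b c
    · rw [if_pos hg, sub_self, norm_zero]
      positivity
    · rw [if_neg hg, zero_sub, norm_neg]
      by_cases hb : ω b = 0
      · rw [hz b hb]
        simp only [mul_zero, zero_mul, norm_zero]
        positivity
      · by_cases hc : ω c = 0
        · rw [hz c hc]
          simp only [map_zero, mul_zero, norm_zero]
          positivity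
        · have h2 : ‖aa φ ω g g' a * aa φ ω g g' b * (starRingEnd 𝕜) (aa φ ω g g' c)‖ ≤ 1 := by
            rw [norm_mul, norm_mul, RCLike.norm_conj]
            have h3 := norm_aa_le φ ω hω g g' a
            have h4 := norm_aa_le φ ω hω g g' b
            have h5 := norm_aa_le φ ω hω g g' c
            calc ‖aa φ ω g g' a‖ * ‖aa φ ω g g' b‖ * ‖aa φ ω g g' c‖ ≤ 1 * 1 * 1 := by gcongr
              _ = 1 := by norm_num
          refine h2.trans ?_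
          unfold good at hg
          have h3 : φ b = φ a ∨ φ c = φ a ∨ φ c = φ b := by
            by_contra h4
            push Not at h4
            exact hg ⟨fun h => h4.1 h.symm, fun h => h4.2.1 h.symm, fun h => h4.2.2 h.symm⟩
          rcases h3 with h3 | h3 | h3
          · rw [if_pos ⟨hb, h3⟩]
            have : (0:ℝ) ≤ (if ω c ≠ 0 ∧ φ c = φ a then 1 else 0) := by split_ifs <;> norm_num
            have : (0:ℝ) ≤ (if ω c ≠ 0 ∧ φ c = φ b then 1 else 0) := by split_ifs <;> norm_num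
            linarith
          · rw [if_pos (⟨hc, h3⟩ : ω c ≠ 0 ∧ φ c = φ a)]
            have : (0:ℝ) ≤ (if ω b ≠ 0 ∧ φ b = φ a then 1 else 0) := by split_ifs <;> norm_num
            have : (0:ℝ) ≤ (if ω c ≠ 0 ∧ φ c = φ b then 1 else 0) := by split_ifs <;> norm_num
            linarith
          · rw [if_pos (⟨hc, h3⟩ : ω c ≠ 0 ∧ φ c = φ b)]
            have : (0:ℝ) ≤ (if ω b ≠ 0 ∧ φ b = φ a then 1 else 0) := by split_ifs <;> norm_num
            have : (0:ℝ) ≤ (if ω c ≠ 0 ∧ φ c = φ a then 1 else 0) := by split_ifs <;> norm_num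
            linarith
  refine h1.trans ?_
  have hcount : ∀ q, ∑ i, (if ω i ≠ 0 ∧ φ i = q then (1:ℝ) else 0) ≤ L := by
    intro q
    rw [← sum_filter, sum_const, nsmul_eq_mul, mul_one]
    exact_mod_cast hL q
  have e1 : ∑ a : Fin m, ∑ b : Fin m, ∑ _c : Fin m, (if ω b ≠ 0 ∧ φ b = φ a then (1:ℝ) else 0)
      ≤ m * (m * L) := by
    have h2 : ∀ a : Fin m, ∑ b : Fin m, ∑ _c : Fin m, (if ω b ≠ 0 ∧ φ b = φ a then (1:ℝ) else 0)
        ≤ m * L := by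
      intro a
      simp only [sum_const, card_univ, Fintype.card_fin, nsmul_eq_mul, ← mul_sum]
      gcongr
      exact hcount _
    refine (sum_le_sum fun a _ => h2 a).trans ?_
    simp
  have e2 : ∑ a : Fin m, ∑ _b : Fin m, ∑ c : Fin m, (if ω c ≠ 0 ∧ φ c = φ a then (1:ℝ) else 0)
      ≤ m * (m * L) := by
    have h2 : ∀ a : Fin m, ∑ _b : Fin m, ∑ c : Fin m, (if ω c ≠ 0 ∧ φ c = φ a then (1:ℝ) else 0)
        ≤ m * L := by
      intro a
      simp only [sum_const, card_univ, Fintype.card_fin, nsmul_eq_mul]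
      gcongr
      exact hcount _
    refine (sum_le_sum fun a _ => h2 a).trans ?_
    simp
  have e3 : ∑ _a : Fin m, ∑ b : Fin m, ∑ c : Fin m, (if ω c ≠ 0 ∧ φ c = φ b then (1:ℝ) else 0)
      ≤ m * (m * L) := by
    have h2 : ∀ b : Fin m, ∑ c : Fin m, (if ω c ≠ 0 ∧ φ c = φ b then (1:ℝ) else 0) ≤ L :=
      fun b => hcount _
    have h3 : ∑ b : Fin m, ∑ c : Fin m, (if ω c ≠ 0 ∧ φ c = φ b then (1:ℝ) else 0) ≤ m * L := by
      refine (sum_le_sum fun b _ => h2 b).trans ?_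
      simp
    refine (sum_le_sum fun a _ => h3).trans ?_
    simp
  simp only [sum_add_distrib]
  calc _ ≤ (m:ℝ) * (m * L) + m * (m * L) + m * (m * L) := add_le_add (add_le_add e1 e2) e3
    _ = (m:ℝ) ^ 3 * (3 * L / m) := by field_simp; ring

theorem norm_ss_le (hm : 0 < m) (hω : ∀ i, ‖ω i‖ ≤ 1) (g g' : Pt m 0) :
    ‖ss (Vmat φ ω) g g'‖ ≤ 1 := by
  have hm' : (0:ℝ) < m := by exact_mod_cast hm
  rw [ss_Vmat, norm_mul, norm_inv, RCLike.norm_natCast, inv_mul_le_iff₀ hm', mul_one]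
  refine (norm_sum_le _ _).trans ((sum_le_sum fun i _ => norm_aa_le φ ω hω g g' i).trans ?_)
  simp

theorem cubic_one (z : 𝕜) (hz : ‖z‖ ≤ 1) :
    ‖z - z * z * (starRingEnd 𝕜) z‖ ≤ 0.385 := by
  have h1 : z - z * z * (starRingEnd 𝕜) z = z * (((1 - ‖z‖ ^ 2 : ℝ)) : 𝕜) := by
    have h2 : z * z * (starRingEnd 𝕜) z = z * ((‖z‖ ^ 2 : ℝ) : 𝕜) := by
      rw [mul_assoc, RCLike.mul_conj]
      push_cast; rfl
    rw [h2]; push_cast; ring
  have h0 := norm_nonneg z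
  rw [h1, norm_mul, RCLike.norm_ofReal, abs_of_nonneg (by nlinarith)]
  nlinarith [mul_nonneg (sq_nonneg (‖z‖ - 0.5773)) (by linarith : 0 ≤ ‖z‖ + 2 * 0.5773)]

theorem cubic_two (z : 𝕜) (hz : ‖z‖ ≤ 1) {t : ℝ} (ht1 : -(1 / 255) ≤ t) (ht2 : t ≤ 1) :
    ‖((t : ℝ) : 𝕜) * (z * z * (starRingEnd 𝕜) z) - (2:𝕜)⁻¹ * z‖ ≤ 1 / 2 + 1 / 255 := by
  have h1 : ((t : ℝ) : 𝕜) * (z * z * (starRingEnd 𝕜) z) - (2:𝕜)⁻¹ * z
      = z * (((t * ‖z‖ ^ 2 - 1 / 2 : ℝ)) : 𝕜) := by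
    have h2 : z * z * (starRingEnd 𝕜) z = z * ((‖z‖ ^ 2 : ℝ) : 𝕜) := by
      rw [mul_assoc, RCLike.mul_conj]
      push_cast; rfl
    rw [h2]; push_cast; ring
  have h0 := norm_nonneg z
  have h3 : ‖z‖ ^ 2 ≤ 1 := pow_le_one₀ h0 hz
  have h4 : 0 ≤ ‖z‖ ^ 2 := by positivity
  have h5 : |t * ‖z‖ ^ 2 - 1 / 2| ≤ 1 / 2 + 1 / 255 := by
    rw [abs_le]
    constructor
    · nlinarith
    · nlinarith
  rw [h1, norm_mul, RCLike.norm_ofReal]
  calc ‖z‖ * |t * ‖z‖ ^ 2 - 1 / 2| ≤ 1 * (1 / 2 + 1 / 255) := by gcongr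
    _ = _ := one_mul _

theorem kernel_one (hm : 0 < m) (hω : ∀ i, ‖ω i‖ ≤ 1) {L : ℕ}
    (hL : ∀ q, (univ.filter fun i => ω i ≠ 0 ∧ φ i = q).card ≤ L) (g g' : Pt m 0) :
    ‖ss (Vmat φ ω) g g' - KK (Wmat φ ω) 0 (uu 𝕜 0 g) (uu 𝕜 0 g')‖ ≤ 0.385 + 3 * L / m := by
  have h1 := norm_KK_sub_le φ ω hm hω hL g g'
  have h2 := cubic_one _ (norm_ss_le φ ω hm hω g g')
  have h3 := norm_sub_le (ss (Vmat φ ω) g g' - ss (Vmat φ ω) g g' * ss (Vmat φ ω) g g'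
    * (starRingEnd 𝕜) (ss (Vmat φ ω) g g'))
    (KK (Wmat φ ω) 0 (uu 𝕜 0 g) (uu 𝕜 0 g')
      - ss (Vmat φ ω) g g' * ss (Vmat φ ω) g g' * (starRingEnd 𝕜) (ss (Vmat φ ω) g g'))
  rw [sub_sub_sub_cancel_right] at h3
  linarith

theorem kernel_two (hm : 0 < m) (hω : ∀ i, ‖ω i‖ ≤ 1) {L : ℕ}
    (hL : ∀ q, (univ.filter fun i => ω i ≠ 0 ∧ φ i = q).card ≤ L) (g g' : Pt m 0)
    (t : ℝ) (ht1 : -(1 / 255) ≤ t) (ht2 : t ≤ 1) :
    ‖((t : ℝ) : 𝕜) * KK (Wmat φ ω) 0 (uu 𝕜 0 g) (uu 𝕜 0 g')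
      - (2:𝕜)⁻¹ * ss (Vmat φ ω) g g'‖ ≤ 1 / 2 + 1 / 255 + 3 * L / m := by
  have h1 := norm_KK_sub_le φ ω hm hω hL g g'
  have h2 := cubic_two _ (norm_ss_le φ ω hm hω g g') ht1 ht2
  set z := ss (Vmat φ ω) g g'
  set k := KK (Wmat φ ω) 0 (uu 𝕜 0 g) (uu 𝕜 0 g')
  have h3 : ((t : ℝ) : 𝕜) * k - (2:𝕜)⁻¹ * z = (((t : ℝ) : 𝕜) * (z * z * (starRingEnd 𝕜) z)
      - (2:𝕜)⁻¹ * z) + ((t : ℝ) : 𝕜) * (k - z * z * (starRingEnd 𝕜) z) := by ring
  have h4 : ‖((t : ℝ) : 𝕜) * (k - z * z * (starRingEnd 𝕜) z)‖ ≤ 3 * L / m := by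
    rw [norm_mul, RCLike.norm_ofReal]
    have h5 : |t| ≤ 1 := abs_le.2 ⟨by linarith, ht2⟩
    exact (mul_le_of_le_one_left (norm_nonneg _) h5).trans h1
  rw [h3]
  exact (norm_add_le _ _).trans (add_le_add h2 h4)

end

end

end Pool.Agent.Lib.MP_ffba67_an
end

section

/-!
# Telescoping
-/

namespace Pool.Agent.Lib.MP_ffba67_an

open Finset Filter Topology
open scoped ENNReal

noncomputable section

variable {𝕜 : Type} [RCLike 𝕜] {m : ℕ}

section tele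

variable {e : (j : ℕ) → SS → XX m j → Bool} {W : PP m → PP m → 𝕜} {V : Fin m → Fin m → 𝕜}
  {η : ℕ → ℝ} {Λ : VV 𝕜 m →ₗ[𝕜] (Om m → 𝕜)} {n : ℕ}

/-- the pairing at the entrance -/
def b0 (V : Fin m → Fin m → 𝕜) (Λ : VV 𝕜 m →ₗ[𝕜] (Om m → 𝕜)) : 𝕜 :=
  (m : 𝕜)⁻¹ * ∑ i, ∑ i', V i i' * xi i (bt Λ i')

/-- the pairing at the exit -/
def bn (V : Fin m → Fin m → 𝕜) (Λ : VV 𝕜 m →ₗ[𝕜] (Om m → 𝕜)) (n : ℕ) : 𝕜 :=
  (m : 𝕜)⁻¹ * ∑ i, ∑ i', V i i' * xin n i (bt Λ i')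

/-- the intermediate pairings -/
def wT (e : (j : ℕ) → SS → XX m j → Bool) (W : PP m → PP m → 𝕜)
    (Λ : VV 𝕜 m →ₗ[𝕜] (Om m → 𝕜)) (j : ℕ) : 𝕜 :=
  ((NN m j : ℝ) : 𝕜)⁻¹ * ∑ x, ∑ x', lift W j x x' * Tt e j x (bz Λ j x')

/-- the intermediate pairings -/
def wQ (e : (j : ℕ) → SS → XX m j → Bool) (W : PP m → PP m → 𝕜)
    (Λ : VV 𝕜 m →ₗ[𝕜] (Om m → 𝕜)) (j : ℕ) : 𝕜 :=
  ((NN m (j + 1) : ℝ) : 𝕜)⁻¹ * ∑ x, ∑ x', lift W (j + 1) x x' * Qup e j x (bz Λ (j + 1) x')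

theorem entrance_eq (H2 : ∀ v, RelN e n (Λ v)) :
    avg (fun g : Pt m 0 => Λ (ven W V g) (Om.en g)) = b0 V Λ - wT e W Λ 0 := by
  have h1 : ∀ g : Pt m 0, Λ (ven W V g) (Om.en g)
      = Λ (vt (rowE V (id g))) (Om.en g) - Λ (vz 0 (row W 0 (uu 𝕜 0 g))) (Om.en g) := by
    intro g
    rw [ven, map_sub, Pi.sub_apply]
    rfl
  simp only [h1]
  rw [avg_sub, avg_lam_vt Λ V id Om.en, avg_lam_vz Λ W 0 (fun g : Pt m 0 => uu 𝕜 0 g) Om.en]
  rw [b0, wT]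
  congr 2
  refine sum_congr rfl fun x _ => sum_congr rfl fun x' _ => ?_
  congr 1
  exact (H2 _).c0 x

theorem transfer_eq (j : ℕ) :
    avg (fun p : Pt m (j + 1) => Λ (vtr e W j p) (Om.tr j p)) = wT e W Λ j - wQ e W Λ j := by
  have h1 : ∀ p : Pt m (j + 1), Λ (vtr e W j p) (Om.tr j p)
      = Λ (vz j (row W j (pp e j p.1 p.2))) (Om.tr j p)
        - Λ (vz (j + 1) (row W (j + 1) (qv e (j + 1) p))) (Om.tr j p) := by
    intro g
    rw [vtr, map_sub, Pi.sub_apply]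
  simp only [h1]
  rw [avg_sub, avg_lam_vz Λ W j (fun p : Pt m (j + 1) => pp e j p.1 p.2) (Om.tr j),
    avg_lam_vz Λ W (j + 1) (fun p : Pt m (j + 1) => qv e (j + 1) p) (Om.tr j)]
  rfl

theorem exit_eq (H2 : ∀ v, RelN e n (Λ v)) (c : 𝕜) :
    avg (fun p : Pt m (n + 1) => Λ (vex W V c n p) (Om.ex n p)) = wQ e W Λ n - c * bn V Λ n := by
  have h1 : ∀ p : Pt m (n + 1), Λ (vex W V c n p) (Om.ex n p)
      = Λ (vz (n + 1) (row W (n + 1) (uu 𝕜 (n + 1) p))) (Om.ex n p)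
        - c * Λ (vt (rowE V (root (n + 1) p))) (Om.ex n p) := by
    intro g
    rw [vex, map_sub, map_smul, Pi.sub_apply, Pi.smul_apply, smul_eq_mul]
  simp only [h1]
  rw [avg_sub, avg_mul_left, avg_lam_vt Λ V (fun p : Pt m (n + 1) => root (n + 1) p) (Om.ex n),
    avg_lam_vz Λ W (n + 1) (fun p : Pt m (n + 1) => uu 𝕜 (n + 1) p) (Om.ex n)]
  rw [wQ]
  congr 2
  refine sum_congr rfl fun x _ => sum_congr rfl fun x' _ => ?_
  congr 1
  exact (H2 _).ce x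

theorem wQ_eq_wT (H2 : ∀ v, RelN e n (Λ v)) {j : ℕ} (hj : j < n) :
    wQ e W Λ j = wT e W Λ (j + 1) := by
  rw [wQ, wT]
  congr 1
  refine sum_congr rfl fun x _ => sum_congr rfl fun x' _ => ?_
  congr 1
  exact (H2 _).cj j hj x

theorem tele (hG : GoodOne (𝕜 := 𝕜) e W η)
    (H1 : ∀ v C, 0 ≤ C → (∀ ω, ‖psi e (fun _ => (1:𝕜)) v ω‖ ≤ C) → ∀ ω, ‖Λ v ω‖ ≤ C)
    (H2 : ∀ v, RelN e n (Λ v)) {A₁ A₂ : ℝ} {c : 𝕜}
    (hA₁ : ∀ g g' : Pt m 0, ‖ss V g g' - KK W 0 (uu 𝕜 0 g) (uu 𝕜 0 g')‖ ≤ A₁)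
    (hA₂ : ∀ (g g' : Pt m 0) (t : ℝ), -(1 / 255) ≤ t → t ≤ 1 →
      ‖((t : ℝ) : 𝕜) * KK W 0 (uu 𝕜 0 g) (uu 𝕜 0 g') - c * ss V g g'‖ ≤ A₂) :
    ‖b0 V Λ - c * bn V Λ n‖ ≤ (A₁ + η 0) + ∑ j ∈ range (n + 1), (3 * η j + η (j + 1))
      + (A₂ + η n + η (n + 1)) := by
  have g0 : Pt m 0 := (fun _ => true : GG m)
  have hη : ∀ j, 0 ≤ η j := fun j =>
    eta_nonneg hG j (Classical.arbitrary (Pt m j)) (fun _ => true)
  have hA10 : 0 ≤ A₁ := (norm_nonneg _).trans (hA₁ g0 g0)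
  have hA20 : 0 ≤ A₂ := (norm_nonneg _).trans (hA₂ g0 g0 0 (by norm_num) (by norm_num))
  -- the three kinds of steps
  have h1 : ‖b0 V Λ - wT e W Λ 0‖ ≤ A₁ + η 0 := by
    rw [← entrance_eq (W := W) (V := V) H2]
    exact norm_avg_le (by linarith [hη 0]) fun g =>
      H1 _ _ (by linarith [hη 0]) (norm_psi_ven_le (V := V) hG hA₁ g) _
  have h2 : ∀ j, ‖wT e W Λ j - wQ e W Λ j‖ ≤ 3 * η j + η (j + 1) := by
    intro j
    rw [← transfer_eq]
    exact norm_avg_le (by linarith [hη j, hη (j + 1)]) fun p =>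
      H1 _ _ (by linarith [hη j, hη (j + 1)]) (norm_psi_vtr_le hG j p) _
  have h3 : ‖wQ e W Λ n - c * bn V Λ n‖ ≤ A₂ + η n + η (n + 1) := by
    rw [← exit_eq (W := W) (V := V) H2 c]
    exact norm_avg_le (by linarith [hη n, hη (n + 1)]) fun p =>
      H1 _ _ (by linarith [hη n, hη (n + 1)]) (norm_psi_vex_le (V := V) hG hA₂ n p) _
  have h4 : ∀ k, k ≤ n → ‖wT e W Λ 0 - wQ e W Λ k‖ ≤ ∑ j ∈ range (k + 1), (3 * η j + η (j + 1)) := by
    intro k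
    induction k with
    | zero => intro _; simpa using h2 0
    | succ k ih =>
      intro hk
      rw [sum_range_succ]
      have h5 := ih (by omega)
      have h6 := h2 (k + 1)
      rw [wQ_eq_wT H2 (by omega : k < n)] at h5
      have h7 : wT e W Λ 0 - wQ e W Λ (k + 1)
          = (wT e W Λ 0 - wT e W Λ (k + 1)) + (wT e W Λ (k + 1) - wQ e W Λ (k + 1)) := by ring
      rw [h7]
      exact (norm_add_le _ _).trans (add_le_add h5 h6)
  have h8 : b0 V Λ - c * bn V Λ n = (b0 V Λ - wT e W Λ 0) + (wT e W Λ 0 - wQ e W Λ n)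
      + (wQ e W Λ n - c * bn V Λ n) := by ring
  rw [h8]
  exact (norm_add_le _ _).trans (add_le_add ((norm_add_le _ _).trans (add_le_add h1 (h4 n le_rfl))) h3)

end tele

end

end Pool.Agent.Lib.MP_ffba67_an
end

section

/-!
# The estimate for arbitrary contractions
-/

namespace Pool.Agent.Lib.MP_ffba67_an

open Finset Filter Topology

noncomputable section

variable {𝕜 : Type} [RCLike 𝕜] {m : ℕ}

/-- a Bessel type inequality -/
theorem bessel {ι : Type} [Fintype ι] [Nonempty ι] (w : Fin m → ι → 𝕜)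
    (horth : ∀ i i', avg (fun p => w i p * (starRingEnd 𝕜) (w i' p)) = if i = i' then 1 else 0)
    (C : Finset (Fin m)) {c : Fin m → 𝕜} (hc : ∀ i, ‖c i‖ ≤ 1) {f : ι → 𝕜} {M : ℝ}
    (hf : ∀ p, ‖f p‖ ≤ M) :
    ‖∑ i ∈ C, c i * avg (fun p => w i p * f p)‖ ≤ √(C.card) * M := by
  have hM : 0 ≤ M := (norm_nonneg _).trans (hf (Classical.arbitrary ι))
  set h : ι → 𝕜 := fun p => ∑ i ∈ C, c i * w i p with hh
  have hN : (0:ℝ) < Fintype.card ι := by exact_mod_cast Fintype.card_pos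
  have h1 : ∑ i ∈ C, c i * avg (fun p => w i p * f p) = avg fun p => h p * f p := by
    have h2 : ∀ p, h p * f p = ∑ i ∈ C, c i * (w i p * f p) := by
      intro p
      rw [hh, sum_mul]
      exact sum_congr rfl fun i _ => by ring
    simp only [h2]
    rw [avg_sum]
    exact sum_congr rfl fun i _ => (avg_mul_left _ _).symm
  -- the second moment
  have h3 : ∑ p, ‖h p‖ ^ 2 ≤ Fintype.card ι * C.card := by
    have h4 : avg (fun p => h p * (starRingEnd 𝕜) (h p)) = ∑ i ∈ C, c i * (starRingEnd 𝕜) (c i) := by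
      have h5 : ∀ p, h p * (starRingEnd 𝕜) (h p) = ∑ i ∈ C, ∑ i' ∈ C,
          (c i * (starRingEnd 𝕜) (c i')) * (w i p * (starRingEnd 𝕜) (w i' p)) := by
        intro p
        rw [hh]
        simp only [map_sum, map_mul]
        rw [sum_mul_sum]
        exact sum_congr rfl fun i _ => sum_congr rfl fun i' _ => by ring
      simp only [h5]
      rw [avg_sum]
      refine sum_congr rfl fun i hi => ?_
      rw [avg_sum, sum_eq_single i]
      · rw [avg_mul_left, horth, if_pos rfl, mul_one]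
      · intro i' _ hne
        rw [avg_mul_left, horth, if_neg (Ne.symm hne), mul_zero]
      · intro h; exact absurd hi h
    have h6 : ((∑ p, ‖h p‖ ^ 2 : ℝ) : 𝕜) = (Fintype.card ι : 𝕜) * ∑ i ∈ C, c i * (starRingEnd 𝕜) (c i) := by
      rw [← h4, avg, ← mul_assoc, mul_inv_cancel₀ (by simp), one_mul]
      push_cast
      exact sum_congr rfl fun p _ => (RCLike.mul_conj _).symm
    have h7 : (∑ p, ‖h p‖ ^ 2 : ℝ) = Fintype.card ι * ∑ i ∈ C, ‖c i‖ ^ 2 := by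
      have h8 : ((∑ p, ‖h p‖ ^ 2 : ℝ) : 𝕜) = ((Fintype.card ι * ∑ i ∈ C, ‖c i‖ ^ 2 : ℝ) : 𝕜) := by
        rw [h6]
        push_cast
        congr 1
        exact sum_congr rfl fun p _ => RCLike.mul_conj _
      exact_mod_cast h8
    rw [h7]
    gcongr
    calc ∑ i ∈ C, ‖c i‖ ^ 2 ≤ ∑ _i ∈ C, (1:ℝ) := by
          refine sum_le_sum fun i _ => ?_
          exact pow_le_one₀ (norm_nonneg _) (hc i)
      _ = C.card := by simp
  have h9 : (∑ p, ‖h p‖) ≤ Fintype.card ι * √(C.card) := by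
    have h10 := sq_sum_le_card_mul_sum_sq (s := (univ : Finset ι)) (f := fun p => ‖h p‖)
    rw [card_univ] at h10
    apply le_of_sq_le_sq _ (by positivity)
    rw [mul_pow, Real.sq_sqrt (by positivity)]
    calc (∑ p, ‖h p‖) ^ 2 ≤ Fintype.card ι * ∑ p, ‖h p‖ ^ 2 := h10
      _ ≤ Fintype.card ι * (Fintype.card ι * C.card) := by gcongr
      _ = _ := by ring
  rw [h1, avg, norm_mul, norm_inv, RCLike.norm_natCast, inv_mul_le_iff₀ hN]
  calc ‖∑ p, h p * f p‖ ≤ ∑ p, ‖h p‖ * M := by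
        refine (norm_sum_le _ _).trans (sum_le_sum fun p _ => ?_)
        rw [norm_mul]
        gcongr
        exact hf p
    _ = (∑ p, ‖h p‖) * M := by rw [sum_mul]
    _ ≤ (Fintype.card ι * √(C.card)) * M := by gcongr
    _ = _ := by ring

theorem bessel_xi (C : Finset (Fin m)) {c : Fin m → 𝕜} (hc : ∀ i, ‖c i‖ ≤ 1) {f : Om m → 𝕜}
    {M : ℝ} (hf : ∀ ω, ‖f ω‖ ≤ M) : ‖∑ i ∈ C, c i * xi i f‖ ≤ √(C.card) * M := by
  have := bessel (ι := Pt m 0) (fun i g => hh 𝕜 i g) (fun i i' => by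
    simp only [star_hh]; exact avg_hh_mul i i') C hc (f := fun g => f (Om.en g)) (M := M)
    (fun g => hf _)
  exact this

theorem bessel_xin (n : ℕ) (C : Finset (Fin m)) {c : Fin m → 𝕜} (hc : ∀ i, ‖c i‖ ≤ 1)
    {f : Om m → 𝕜} {M : ℝ} (hf : ∀ ω, ‖f ω‖ ≤ M) : ‖∑ i ∈ C, c i * xin n i f‖ ≤ √(C.card) * M := by
  have := bessel (ι := Pt m (n + 1)) (fun i p => hh 𝕜 i (root (n + 1) p)) (fun i i' => by
    simp only [star_hh]
    rw [avg_root (n + 1) (fun g => hh 𝕜 i g * hh 𝕜 i' g)]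
    exact avg_hh_mul i i') C hc (f := fun p => f (Om.ex n p)) (M := M)
    (fun g => hf _)
  exact this

/-- phases -/
theorem exists_phase (z : 𝕜) : ∃ c : 𝕜, ‖c‖ ≤ 1 ∧ c * z = ((‖z‖ : ℝ) : 𝕜) := by
  rcases eq_or_ne z 0 with rfl | hz
  · exact ⟨0, by simp, by simp⟩
  · have h0 : ‖z‖ ≠ 0 := norm_ne_zero_iff.2 hz
    refine ⟨(starRingEnd 𝕜) z / ((‖z‖ : ℝ) : 𝕜), ?_, ?_⟩
    · rw [norm_div, RCLike.norm_conj, RCLike.norm_ofReal, abs_norm, div_self h0]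
    · have h1 : ((‖z‖ : ℝ) : 𝕜) ≠ 0 := by exact_mod_cast h0
      rw [div_mul_eq_mul_div, mul_comm, RCLike.mul_conj]
      field_simp

theorem sum_norm_xi_le (C : Finset (Fin m)) {f : Om m → 𝕜} {M : ℝ} (hf : ∀ ω, ‖f ω‖ ≤ M) :
    ∑ i ∈ C, ‖xi i f‖ ≤ √(C.card) * M := by
  choose c hc1 hc2 using fun i : Fin m => exists_phase (xi i f)
  have h1 := bessel_xi C hc1 hf
  simp only [hc2] at h1
  rw [← RCLike.ofReal_sum, RCLike.norm_ofReal, abs_of_nonneg (by positivity)] at h1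
  exact h1

theorem sum_norm_xin_le (n : ℕ) (C : Finset (Fin m)) {f : Om m → 𝕜} {M : ℝ}
    (hf : ∀ ω, ‖f ω‖ ≤ M) : ∑ i ∈ C, ‖xin n i f‖ ≤ √(C.card) * M := by
  choose c hc1 hc2 using fun i : Fin m => exists_phase (xin n i f)
  have h1 := bessel_xin n C hc1 hf
  simp only [hc2] at h1
  rw [← RCLike.ofReal_sum, RCLike.norm_ofReal, abs_of_nonneg (by positivity)] at h1
  exact h1

/-- a finite net of the unit sphere -/
theorem exists_net (𝕜 : Type) [RCLike 𝕜] : ∃ s : Finset 𝕜, (∀ ω ∈ s, ‖ω‖ ≤ 1) ∧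
    ∀ z : 𝕜, ∃ ω ∈ s, 0.99 * ‖z‖ ≤ RCLike.re (ω * z) := by
  have h1 : IsCompact (Metric.sphere (0:𝕜) 1) := isCompact_sphere _ _
  obtain ⟨t, ht1, ht2, ht3⟩ := h1.finite_cover_balls (e := 0.01) (by norm_num)
  refine ⟨ht2.toFinset, fun ω hω => ?_, fun z => ?_⟩
  · have := ht1 (ht2.mem_toFinset.1 hω)
    simpa using this.le
  · rcases eq_or_ne z 0 with rfl | hz
    · have h2 : (1:𝕜) ∈ Metric.sphere (0:𝕜) 1 := by simp
      obtain ⟨ω, hω, -⟩ := Set.mem_iUnion₂.1 (ht3 h2)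
      exact ⟨ω, ht2.mem_toFinset.2 hω, by simp⟩
    · have h0 : ‖z‖ ≠ 0 := norm_ne_zero_iff.2 hz
      have h0' : 0 < ‖z‖ := norm_pos_iff.2 hz
      have h1' : ((‖z‖ : ℝ) : 𝕜) ≠ 0 := by exact_mod_cast h0
      set ζ : 𝕜 := (starRingEnd 𝕜) z / ((‖z‖ : ℝ) : 𝕜) with hζ
      have h2 : ζ ∈ Metric.sphere (0:𝕜) 1 := by
        rw [mem_sphere_zero_iff_norm, hζ, norm_div, RCLike.norm_conj, RCLike.norm_ofReal, abs_norm,
          div_self h0]
      have h3 : ζ * z = ((‖z‖ : ℝ) : 𝕜) := by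
        rw [hζ, div_mul_eq_mul_div, mul_comm, RCLike.mul_conj]
        field_simp
      obtain ⟨ω, hω, hωζ⟩ := Set.mem_iUnion₂.1 (ht3 h2)
      refine ⟨ω, ht2.mem_toFinset.2 hω, ?_⟩
      rw [Metric.mem_ball, dist_comm, dist_eq_norm] at hωζ
      have h4 : ω * z = ((‖z‖ : ℝ) : 𝕜) + (ω - ζ) * z := by rw [← h3]; ring
      rw [h4, map_add, RCLike.ofReal_re]
      have h5 : |RCLike.re ((ω - ζ) * z)| ≤ 0.01 * ‖z‖ := by
        refine (RCLike.abs_re_le_norm _).trans ?_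
        rw [norm_mul]
        gcongr
      have h6 := (abs_le.1 h5).1
      linarith

section final

variable {e : (j : ℕ) → SS → XX m j → Bool} {Λ : VV 𝕜 m →ₗ[𝕜] (Om m → 𝕜)} {n : ℕ}

/-- the functionals -/
def Lf (Λ : VV 𝕜 m →ₗ[𝕜] (Om m → 𝕜)) (n : ℕ) (i q : Fin m) : 𝕜 :=
  xi i (bt Λ q) - (2:𝕜)⁻¹ * xin n i (bt Λ q)

theorem norm_bt_le (H1 : ∀ v C, 0 ≤ C → (∀ ω, ‖psi e (fun _ => (1:𝕜)) v ω‖ ≤ C) → ∀ ω, ‖Λ v ω‖ ≤ C)
    (q : Fin m) (ω : Om m) : ‖bt Λ q ω‖ ≤ 1 := by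
  refine H1 _ 1 zero_le_one (fun ω => ?_) ω
  cases ω with
  | en g =>
    rw [psi_en]
    simp only [vt, mul_ite, mul_one, mul_zero, sum_ite_eq, mem_univ, if_true,
      DFinsupp.zero_apply, Pi.zero_apply, sum_const_zero, add_zero]
    exact (norm_hh _ _).le
  | tr j p =>
    rw [psi_tr]
    simp [vt]
  | ex k p =>
    rw [psi_ex]
    simp only [vt, mul_ite, mul_one, mul_zero, sum_ite_eq, mem_univ, if_true,
      DFinsupp.zero_apply, Pi.zero_apply, sum_const_zero, add_zero, one_mul]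
    exact (norm_hh _ _).le

theorem b0_Vmat (φ : Fin m → Fin m) (ω : Fin m → 𝕜) :
    b0 (Vmat φ ω) Λ - (2:𝕜)⁻¹ * bn (Vmat φ ω) Λ n = (m : 𝕜)⁻¹ * ∑ i, ω i * Lf Λ n i (φ i) := by
  have h1 : ∀ F : Fin m → Fin m → 𝕜, ∑ i, ∑ i', Vmat φ ω i i' * F i i' = ∑ i, ω i * F i (φ i) := by
    intro F
    refine sum_congr rfl fun i _ => ?_
    rw [sum_eq_single (φ i)]
    · rw [Vmat, if_pos rfl]
    · intro b _ hb
      rw [Vmat, if_neg hb, zero_mul]
    · intro h; exact absurd (mem_univ _) h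
  rw [b0, bn, h1 fun i i' => xi i (bt Λ i'), h1 fun i i' => xin n i (bt Λ i')]
  simp only [Lf, mul_sub, sum_sub_distrib, mul_sum]
  congr 1
  exact sum_congr rfl fun i _ => by ring

theorem lam_vt_fun (t : Fin m → 𝕜) : Λ (vt t) = ∑ q, t q • bt Λ q := by
  ext ω
  rw [lam_vt, Finset.sum_apply]
  rfl

theorem final_est (hm : 0 < m) {L : ℕ} (hL : 1 ≤ L) {E : ℝ} {S : Finset 𝕜}
    (hS : ∀ z : 𝕜, ∃ ω ∈ S, 0.99 * ‖z‖ ≤ RCLike.re (ω * z))
    (H1 : ∀ v C, 0 ≤ C → (∀ ω, ‖psi e (fun _ => (1:𝕜)) v ω‖ ≤ C) → ∀ ω, ‖Λ v ω‖ ≤ C)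
    (hU : ∀ (φ : Fin m → Fin m) (ω : Fin m → 𝕜), (∀ i, ω i ∈ insert 0 S) →
      (∀ q, (univ.filter fun i => ω i ≠ 0 ∧ φ i = q).card ≤ L) →
      ‖b0 (Vmat φ ω) Λ - (2:𝕜)⁻¹ * bn (Vmat φ ω) Λ n‖ ≤ E)
    (x : Fin m → Fin m → 𝕜) (hx : ∀ i, ∑ q, ‖x i q‖ ≤ 1) :
    ‖(m : 𝕜)⁻¹ * ∑ i, (xi i (Λ (vt (x i))) - (2:𝕜)⁻¹ * xin n i (Λ (vt (x i))))‖
      ≤ E / 0.99 + 1.5 / √L := by
  classical
  have hm' : (0:ℝ) < m := by exact_mod_cast hm
  have hne : Nonempty (Fin m) := ⟨⟨0, hm⟩⟩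
  have hLpos : (0:ℝ) < L := by exact_mod_cast hL
  -- expand
  have h1 : ∀ i, xi i (Λ (vt (x i))) - (2:𝕜)⁻¹ * xin n i (Λ (vt (x i))) = ∑ q, x i q * Lf Λ n i q := by
    intro i
    rw [lam_vt_fun, map_sum, map_sum]
    simp only [map_smul, smul_eq_mul, Lf, mul_sub, sum_sub_distrib, mul_sum]
    congr 1
    exact sum_congr rfl fun q _ => by ring
  -- choose the maximal index
  have h2 : ∀ i, ∃ q, ∀ q', ‖Lf Λ n i q'‖ ≤ ‖Lf Λ n i q‖ := by
    intro i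
    obtain ⟨q, -, hq⟩ := exists_max_image univ (fun q => ‖Lf Λ n i q‖) ⟨⟨0, hm⟩, mem_univ _⟩
    exact ⟨q, fun q' => hq q' (mem_univ _)⟩
  choose φ hφ using h2
  have h3 : ‖∑ i, (xi i (Λ (vt (x i))) - (2:𝕜)⁻¹ * xin n i (Λ (vt (x i))))‖
      ≤ ∑ i, ‖Lf Λ n i (φ i)‖ := by
    refine (norm_sum_le _ _).trans (sum_le_sum fun i _ => ?_)
    rw [h1]
    calc ‖∑ q, x i q * Lf Λ n i q‖ ≤ ∑ q, ‖x i q‖ * ‖Lf Λ n i (φ i)‖ := by
          refine (norm_sum_le _ _).trans (sum_le_sum fun q _ => ?_)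
          rw [norm_mul]
          gcongr
          exact hφ i q
      _ = (∑ q, ‖x i q‖) * ‖Lf Λ n i (φ i)‖ := by rw [sum_mul]
      _ ≤ 1 * ‖Lf Λ n i (φ i)‖ := by gcongr; exact hx i
      _ = _ := one_mul _
  -- class sizes
  set cl : Fin m → Finset (Fin m) := fun q => univ.filter fun i => φ i = q with hcl
  -- the big classes
  have h4 : ∑ i ∈ univ.filter (fun i => ¬ (cl (φ i)).card ≤ L), ‖Lf Λ n i (φ i)‖ ≤ 1.5 / √L * m := by
    have h5 : ∑ i ∈ univ.filter (fun i => ¬ (cl (φ i)).card ≤ L), ‖Lf Λ n i (φ i)‖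
        = ∑ q, ∑ i ∈ (univ.filter (fun i => ¬ (cl (φ i)).card ≤ L)).filter (fun i => φ i = q),
          ‖Lf Λ n i (φ i)‖ := (sum_fiberwise _ _ _).symm
    have h6 : ∀ q, ∑ i ∈ (univ.filter (fun i => ¬ (cl (φ i)).card ≤ L)).filter (fun i => φ i = q),
          ‖Lf Λ n i (φ i)‖ ≤ 1.5 / √L * (cl q).card := by
      intro q
      by_cases hq : (cl q).card ≤ L
      · rw [sum_eq_zero]
        · positivity
        · intro i hi
          simp only [mem_filter, mem_univ, true_and] at hi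
          exact absurd (hi.2 ▸ hq) hi.1
      · have h7 : (univ.filter (fun i => ¬ (cl (φ i)).card ≤ L)).filter (fun i => φ i = q) = cl q := by
          ext i
          simp only [mem_filter, mem_univ, true_and, hcl]
          constructor
          · rintro ⟨-, h⟩; exact h
          · intro h
            refine ⟨?_, h⟩
            rw [h]
            exact hq
        rw [h7]
        have h8 : ∑ i ∈ cl q, ‖Lf Λ n i (φ i)‖ ≤ ∑ i ∈ cl q, ‖xi i (bt Λ q)‖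
            + 2⁻¹ * ∑ i ∈ cl q, ‖xin n i (bt Λ q)‖ := by
          rw [mul_sum, ← sum_add_distrib]
          refine sum_le_sum fun i hi => ?_
          have h9 : φ i = q := by simpa [hcl] using hi
          rw [h9, Lf]
          refine (norm_sub_le _ _).trans ?_
          rw [norm_mul, norm_inv]
          simp
        have h9 := sum_norm_xi_le (cl q) (norm_bt_le H1 q)
        have h10 := sum_norm_xin_le n (cl q) (norm_bt_le H1 q)
        have h11 : √((cl q).card : ℝ) ≤ (cl q).card / √L := by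
          have h12 : (L:ℝ) ≤ (cl q).card := by
            push Not at hq
            exact_mod_cast hq.le
          have h13 : √(L:ℝ) ≤ √((cl q).card : ℝ) := Real.sqrt_le_sqrt h12
          have h14 : 0 < √(L:ℝ) := Real.sqrt_pos.2 hLpos
          rw [le_div_iff₀ h14]
          calc √((cl q).card : ℝ) * √L ≤ √((cl q).card : ℝ) * √((cl q).card : ℝ) := by gcongr
            _ = (cl q).card := Real.mul_self_sqrt (by positivity)
        have h15 : 1.5 / √(L:ℝ) * ((cl q).card : ℝ) = 1.5 * ((cl q).card / √L) := by ring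
        rw [h15]
        linarith
    rw [h5]
    refine (sum_le_sum fun q _ => h6 q).trans ?_
    rw [← mul_sum]
    have h16 : ∑ q, ((cl q).card : ℝ) = m := by
      have h17 : ∑ q, (cl q).card = m := by
        have := card_eq_sum_card_fiberwise (f := φ) (s := (univ : Finset (Fin m)))
          (t := (univ : Finset (Fin m))) (fun _ _ => mem_coe.2 (mem_univ _))
        rw [card_univ, Fintype.card_fin] at this
        exact this.symm
      exact_mod_cast h17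
    rw [h16]
  -- the small classes
  have h5 : ∑ i ∈ univ.filter (fun i => (cl (φ i)).card ≤ L), ‖Lf Λ n i (φ i)‖ ≤ E / 0.99 * m := by
    choose ρ hρ1 hρ2 using fun i : Fin m => hS (Lf Λ n i (φ i))
    set ω : Fin m → 𝕜 := fun i => if (cl (φ i)).card ≤ L then ρ i else 0 with hω
    have h6 := hU φ ω (fun i => by
      simp only [hω]
      split_ifs
      · exact mem_insert_of_mem (hρ1 i)
      · exact mem_insert_self _ _) (fun q => by
      by_cases hq : (cl q).card ≤ L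
      · refine le_trans (card_le_card ?_) hq
        intro i hi
        simp only [mem_filter, mem_univ, true_and, hcl] at hi ⊢
        exact hi.2
      · rw [card_eq_zero.2]
        · exact Nat.zero_le _
        · ext i
          simp only [mem_filter, mem_univ, true_and, notMem_empty, iff_false, not_and]
          intro h7 h8
          apply h7
          simp only [hω]
          rw [if_neg]
          rw [h8]; exact hq)
    rw [b0_Vmat] at h6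
    have h7 : 0.99 * ∑ i ∈ univ.filter (fun i => (cl (φ i)).card ≤ L), ‖Lf Λ n i (φ i)‖
        ≤ RCLike.re (∑ i, ω i * Lf Λ n i (φ i)) := by
      rw [map_sum, mul_sum, sum_filter]
      refine sum_le_sum fun i _ => ?_
      simp only [hω]
      split_ifs
      · exact hρ2 i
      · simp
    have h8 : ‖∑ i, ω i * Lf Λ n i (φ i)‖ ≤ E * m := by
      rw [norm_mul, norm_inv, RCLike.norm_natCast, inv_mul_le_iff₀ hm'] at h6
      linarith
    have h9 := (RCLike.re_le_norm (∑ i, ω i * Lf Λ n i (φ i)))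
    have h10 : E / 0.99 * m = (E * m) / 0.99 := by ring
    rw [h10, le_div_iff₀ (by norm_num)]
    linarith
  have h6 : ∑ i, ‖Lf Λ n i (φ i)‖ ≤ (E / 0.99 + 1.5 / √L) * m := by
    rw [← sum_filter_add_sum_filter_not univ (fun i => (cl (φ i)).card ≤ L)]
    linarith
  rw [norm_mul, norm_inv, RCLike.norm_natCast, inv_mul_le_iff₀ hm']
  calc _ ≤ _ := h3
    _ ≤ _ := h6
    _ = _ := by ring

end final

end

end Pool.Agent.Lib.MP_ffba67_an
end

section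

/-!
# Choice of the parameters
-/

namespace Pool.Agent.Lib.MP_ffba67_an

open Finset Filter Topology

noncomputable section

variable {𝕜 : Type} [RCLike 𝕜]

theorem card_SS : Fintype.card SS = 256 := by
  rw [Fintype.card_fun, Fintype.card_bool, Fintype.card_fin]
  norm_num

theorem card_Pt (m j : ℕ) : Fintype.card (Pt m j) = 2 ^ m * 256 ^ j := by
  rw [card_Lv, card_SS, Fintype.card_fun, Fintype.card_bool, Fintype.card_fin]

theorem log_bound {m j K : ℕ} (hm : 1 ≤ m) (hK : 1 ≤ K) {V : Type} [Fintype V]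
    (hV : Fintype.card V ≤ m ^ m * K ^ m) (hV0 : 1 ≤ Fintype.card V) :
    Real.log (2 * Fintype.card (Bool × Bool × V × Pt m j × (Pt m j ⊕ Pt m j ⊕ SS × Pt m j)))
      ≤ ((K:ℝ) + 22) * (m:ℝ) ^ 2 * (j + 1) := by
  have hm' : (1:ℝ) ≤ m := by exact_mod_cast hm
  have hK' : (1:ℝ) ≤ K := by exact_mod_cast hK
  have hV0' : (1:ℝ) ≤ Fintype.card V := by exact_mod_cast hV0
  have hV' : (Fintype.card V : ℝ) ≤ (m:ℝ) ^ m * (K:ℝ) ^ m := by exact_mod_cast hV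
  have h1 : (2 * Fintype.card (Bool × Bool × V × Pt m j × (Pt m j ⊕ Pt m j ⊕ SS × Pt m j)) : ℝ)
      = 2064 * Fintype.card V * (2 ^ m * 256 ^ j) ^ 2 := by
    simp only [Fintype.card_prod, Fintype.card_sum, card_Pt]
    rw [card_SS, Fintype.card_bool]
    push_cast
    ring
  rw [h1]
  have h2 : 2064 * (Fintype.card V : ℝ) * (2 ^ m * 256 ^ j) ^ 2
      ≤ 2064 * ((m:ℝ) ^ m * (K:ℝ) ^ m) * (2 ^ m * 256 ^ j) ^ 2 := by gcongr
  refine (Real.log_le_log (by positivity) h2).trans ?_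
  have hm0 : (m:ℝ) ≠ 0 := by positivity
  have hK0 : (K:ℝ) ≠ 0 := by positivity
  rw [Real.log_mul (by positivity) (by positivity), Real.log_mul (by positivity) (by positivity),
    Real.log_mul (by positivity) (by positivity), Real.log_pow, Real.log_pow, Real.log_pow,
    Real.log_mul (by positivity) (by positivity), Real.log_pow, Real.log_pow]
  have e1 : Real.log 2064 ≤ 11 := by
    have h3 : (2064:ℝ) ≤ 2 ^ 11 * 2 ^ 1 := by norm_num
    have h4 : Real.log 2064 ≤ Real.log (2 ^ 12) := Real.log_le_log (by norm_num) (by norm_num)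
    rw [Real.log_pow] at h4
    have h5 := Real.log_two_lt_d9
    push_cast at h4
    linarith
  have e2 : Real.log (m:ℝ) ≤ m := (Real.log_le_sub_one_of_pos (by positivity)).trans (by linarith)
  have e3 : Real.log (K:ℝ) ≤ K := (Real.log_le_sub_one_of_pos (by positivity)).trans (by linarith)
  have e4 : Real.log (2:ℝ) ≤ 1 := by linarith [Real.log_two_lt_d9]
  have e5 : Real.log (256:ℝ) ≤ 6 := by
    have h4 : Real.log (256:ℝ) = Real.log (2 ^ 8) := by norm_num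
    rw [h4, Real.log_pow]
    have h5 := Real.log_two_lt_d9
    push_cast
    linarith
  have hj : (0:ℝ) ≤ j := by positivity
  have f2 : (m:ℝ) * Real.log m ≤ m * m := by gcongr
  have f3 : (m:ℝ) * Real.log K ≤ m * K := by gcongr
  have f4 : (m:ℝ) * Real.log 2 ≤ m * 1 := by gcongr
  have f5 : (j:ℝ) * Real.log 256 ≤ j * 6 := by gcongr
  have hmm : (m:ℝ) ≤ m ^ 2 := by nlinarith
  have h1m : (1:ℝ) ≤ m ^ 2 := by nlinarith
  push_cast
  have g1 : (m:ℝ) * K ≤ m ^ 2 * K := by gcongr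
  have g2 : (j:ℝ) ≤ m ^ 2 * j := by nlinarith
  have g3 : 0 ≤ (m:ℝ) ^ 2 * (K * j) := by positivity
  nlinarith

theorem four_pow_bound (j : ℕ) : ((j:ℝ) + 1) * 4 ^ j ≤ 255 ^ j := by
  induction j with
  | zero => norm_num
  | succ j ih =>
    push_cast
    rw [pow_succ, pow_succ]
    have h1 : (0:ℝ) < 4 ^ j := by positivity
    have h2 : (0:ℝ) ≤ j := by positivity
    nlinarith [mul_nonneg h2 h1.le]

theorem eta_bound {m : ℕ} (hm : 1 ≤ m) {D δ A : ℝ} (hD : 0 < D) (hδ : 0 < δ)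
    (h : 8 * D ^ 2 * A ≤ δ ^ 2 * m) (j : ℕ) :
    2 * (D * √(2 * NN m j * (A * (m:ℝ) ^ 2 * (j + 1)))) ≤ NN m j * (δ / 2 ^ j) := by
  have hm' : (0:ℝ) < m := by exact_mod_cast hm
  have hN := NN_pos (m := m) hm j
  have h1 : √(2 * NN m j * (A * (m:ℝ) ^ 2 * (j + 1))) ≤ NN m j * (δ / 2 ^ j) / (2 * D) := by
    apply Real.sqrt_le_iff.2
    refine ⟨by positivity, ?_⟩
    have h2 : (NN m j * (δ / 2 ^ j) / (2 * D)) ^ 2 = NN m j * (NN m j / 4 ^ j) * δ ^ 2 / (4 * D ^ 2) := by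
      have h3 : (4:ℝ) ^ j = 2 ^ j * 2 ^ j := by
        rw [← mul_pow]; norm_num
      rw [h3]
      field_simp
      ring
    rw [h2]
    have h3 : (m:ℝ) ^ 3 * (j + 1) ≤ NN m j / 4 ^ j := by
      rw [le_div_iff₀ (by positivity), NN]
      have := four_pow_bound j
      calc (m:ℝ) ^ 3 * (j + 1) * 4 ^ j = (m:ℝ) ^ 3 * ((j + 1) * 4 ^ j) := by ring
        _ ≤ (m:ℝ) ^ 3 * 255 ^ j := by gcongr
    rw [le_div_iff₀ (by positivity)]
    calc 2 * NN m j * (A * (m:ℝ) ^ 2 * (j + 1)) * (4 * D ^ 2)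
        = NN m j * ((m:ℝ) ^ 2 * (j + 1)) * (8 * D ^ 2 * A) := by ring
      _ ≤ NN m j * ((m:ℝ) ^ 2 * (j + 1)) * (δ ^ 2 * m) := by gcongr
      _ = NN m j * ((m:ℝ) ^ 3 * (j + 1)) * δ ^ 2 := by ring
      _ ≤ NN m j * (NN m j / 4 ^ j) * δ ^ 2 := by gcongr
  calc 2 * (D * √(2 * NN m j * (A * (m:ℝ) ^ 2 * (j + 1))))
      ≤ 2 * (D * (NN m j * (δ / 2 ^ j) / (2 * D))) := by gcongr
    _ = NN m j * (δ / 2 ^ j) := by field_simp

theorem sum_eta_le (δ : ℝ) (hδ : 0 ≤ δ) (n : ℕ) :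
    ∑ j ∈ range n, (3 * (δ / 2 ^ j) + δ / 2 ^ (j + 1)) ≤ 7 * δ := by
  have h1 : ∀ j ∈ range n, (3 * (δ / 2 ^ j) + δ / 2 ^ (j + 1)) = 3.5 * δ * (1 / 2) ^ j := by
    intro j _
    rw [pow_succ, one_div, inv_pow]
    field_simp
    ring
  rw [sum_congr rfl h1, ← mul_sum]
  have h2 : ∑ j ∈ range n, ((1:ℝ) / 2) ^ j ≤ 2 := sum_geometric_two_le n
  calc 3.5 * δ * ∑ j ∈ range n, ((1:ℝ) / 2) ^ j ≤ 3.5 * δ * 2 := by gcongr
    _ = 7 * δ := by ring

/-- the existence of the parameters -/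
theorem exists_params (𝕜 : Type) [RCLike 𝕜] : ∃ (m : ℕ) (e : (j : ℕ) → SS → XX m j → Bool)
    (S : Finset 𝕜), 9 ≤ m ∧ (∀ z : 𝕜, ∃ ω ∈ S, 0.99 * ‖z‖ ≤ RCLike.re (ω * z)) ∧
    ∀ (n : ℕ) (Λ : VV 𝕜 m →ₗ[𝕜] (Om m → 𝕜)),
      (∀ v C, 0 ≤ C → (∀ ω, ‖psi e (fun _ => (1:𝕜)) v ω‖ ≤ C) → ∀ ω, ‖Λ v ω‖ ≤ C) →
      (∀ v, RelN e n (Λ v)) →
      ∀ (φ : Fin m → Fin m) (ω : Fin m → 𝕜), (∀ i, ω i ∈ insert 0 S) →
      (∀ q, (univ.filter fun i => ω i ≠ 0 ∧ φ i = q).card ≤ 10000) →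
      ‖b0 (Vmat φ ω) Λ - (2:𝕜)⁻¹ * bn (Vmat φ ω) Λ n‖ ≤ 0.895 := by
  classical
  obtain ⟨S, hS1, hS2⟩ := exists_net 𝕜
  set K : ℕ := (insert 0 S).card with hK
  have hK1 : 1 ≤ K := by rw [hK]; exact card_pos.2 ⟨0, mem_insert_self _ _⟩
  obtain ⟨D, hD⟩ : ∃ D : ℝ, D = 27 * ((10000 : ℕ) : ℝ) ^ 3 := ⟨_, rfl⟩
  have hDpos : 0 < D := by rw [hD]; positivity
  obtain ⟨m, hm⟩ := exists_nat_ge (8 * D ^ 2 * ((K:ℝ) + 22) * 2000 ^ 2 + 60000000)
  have hKpos : (0:ℝ) ≤ K := by positivity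
  have hm1 : (60000000:ℝ) ≤ m := by
    have : 0 ≤ 8 * D ^ 2 * ((K:ℝ) + 22) * 2000 ^ 2 := by positivity
    linarith
  have hm2 : 60000000 ≤ m := by exact_mod_cast hm1
  have hm3 : 8 * D ^ 2 * ((K:ℝ) + 22) ≤ (1 / 2000 : ℝ) ^ 2 * m := by
    have h0 : 8 * D ^ 2 * ((K:ℝ) + 22) * 2000 ^ 2 ≤ m := by linarith
    have h1 : (1 / 2000 : ℝ) ^ 2 * (8 * D ^ 2 * ((K:ℝ) + 22) * 2000 ^ 2) ≤ (1 / 2000 : ℝ) ^ 2 * m :=
      mul_le_mul_of_nonneg_left h0 (by positivity)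
    calc 8 * D ^ 2 * ((K:ℝ) + 22) = (1 / 2000 : ℝ) ^ 2 * (8 * D ^ 2 * ((K:ℝ) + 22) * 2000 ^ 2) := by
          ring
      _ ≤ _ := h1
  have hmpos : (0:ℝ) < m := by linarith
  -- the index set
  let V : Type := {v : (Fin m → Fin m) × (Fin m → (insert 0 S : Finset 𝕜)) //
    ∀ q, (univ.filter fun i => ((v.2 i : 𝕜)) ≠ 0 ∧ v.1 i = q).card ≤ 10000}
  have hcard : Fintype.card V ≤ m ^ m * K ^ m := by
    refine (Fintype.card_subtype_le _).trans ?_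
    rw [Fintype.card_prod, Fintype.card_fun, Fintype.card_fun, Fintype.card_fin,
      Fintype.card_coe]
  have hcard0 : 1 ≤ Fintype.card V := by
    refine Fintype.card_pos_iff.2 ⟨⟨(id, fun _ => ⟨0, mem_insert_self _ _⟩), fun q => ?_⟩⟩
    simp
  let W : V → PP m → PP m → 𝕜 := fun v => Wmat v.1.1 (fun i => (v.1.2 i : 𝕜))
  have hω : ∀ ω ∈ (insert 0 S : Finset 𝕜), ‖ω‖ ≤ 1 := by
    intro ω hω
    rcases mem_insert.1 hω with h | h
    · rw [h]; simp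
    · exact hS1 ω h
  obtain ⟨e, he⟩ := exists_goodSys (𝕜 := 𝕜) (V := V) (m := m) (by omega) W (D := D) hDpos
    (fun v => hD ▸ bdd_Wmat v.1.1 (fun i => (v.1.2 i : 𝕜)) (fun i => hω _ (v.1.2 i).2)
      (by norm_num) v.2)
    (L := fun j => ((K:ℝ) + 22) * (m:ℝ) ^ 2 * (j + 1)) (η := fun j => (1 / 2000 : ℝ) / 2 ^ j)
    (fun j => log_bound (by omega) hK1 hcard hcard0) (fun j => by positivity)
    (fun j => eta_bound (by omega) hDpos (by norm_num) hm3 j)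
  refine ⟨m, e, S, by omega, hS2, fun n Λ H1 H2 φ ω hω1 hω2 => ?_⟩
  let v : V := ⟨(φ, fun i => ⟨ω i, hω1 i⟩), hω2⟩
  have hG : GoodOne (𝕜 := 𝕜) e (Wmat φ ω) (fun j => (1 / 2000 : ℝ) / 2 ^ j) :=
    fun j s p p' => he j v s p p'
  have hω3 : ∀ i, ‖ω i‖ ≤ 1 := fun i => hω _ (hω1 i)
  have ht := tele (V := Vmat φ ω) hG H1 H2 (kernel_one φ ω (by omega) hω3 hω2)
    (c := (2:𝕜)⁻¹) (fun g g' t ht1 ht2 => kernel_two φ ω (by omega) hω3 hω2 g g' t ht1 ht2)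
  refine ht.trans ?_
  have h1 := sum_eta_le (1 / 2000) (by norm_num) (n + 1)
  have h2 : (3 * ((10000 : ℕ) : ℝ) / m) ≤ 1 / 2000 := by
    rw [div_le_div_iff₀ hmpos (by norm_num)]
    push_cast
    linarith
  have h3 : (1 / 2000 : ℝ) / 2 ^ n ≤ 1 / 2000 := by
    apply div_le_self (by norm_num)
    exact one_le_pow₀ (by norm_num)
  have h4 : (1 / 2000 : ℝ) / 2 ^ (n + 1) ≤ 1 / 4000 := by
    rw [pow_succ]
    have : (1:ℝ) ≤ 2 ^ n := one_le_pow₀ (by norm_num)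
    rw [div_le_div_iff₀ (by positivity) (by norm_num)]
    linarith
  have h5 : (1 / 2000 : ℝ) / 2 ^ 0 = 1 / 2000 := by norm_num
  rw [h5]
  norm_num at h1 h2 h3 h4 ⊢
  linarith

end

end Pool.Agent.Lib.MP_ffba67_an
end

section

/-!
# A maximal Banach ideal without the local reflexivity property
-/

namespace Pool.Agent.Lib.MP_ffba67_an

open Finset Filter Topology

noncomputable section

variable {𝕜 : Type} [RCLike 𝕜] {m : ℕ}

section functionals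

variable (e : (j : ℕ) → SS → XX m j → Bool) (n : ℕ)

/-- the entrance functionals on `Z n` -/
def xiZ (i : Fin m) : ZZ 𝕜 e n →L[𝕜] 𝕜 :=
  LinearMap.mkContinuous ((xi i).comp (fz e n)) 1 (fun f => by
      rw [one_mul]
      exact norm_xi_le i (norm_nonneg _) (norm_fz_le f))

/-- the exit functionals on `Z n` -/
def xinZ (i : Fin m) : ZZ 𝕜 e n →L[𝕜] 𝕜 :=
  LinearMap.mkContinuous ((xin n i).comp (fz e n)) 1 (fun f => by
      rw [one_mul]
      exact norm_xin_le n i (norm_nonneg _) (norm_fz_le f))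

/-- the functionals defining the ideal -/
def ff (i : Fin m) : ZZ 𝕜 e n →L[𝕜] 𝕜 :=
  (2 * (m : 𝕜)⁻¹) • (xiZ e n i - (2:𝕜)⁻¹ • xinZ e n i)

variable {e n}

theorem ff_apply (i : Fin m) (z : ZZ 𝕜 e n) :
    ff e n i z = 2 * (m : 𝕜)⁻¹ * (xi i (fz e n z) - (2:𝕜)⁻¹ * xin n i (fz e n z)) := rfl

theorem normalized_ff (hm : 9 ≤ m) : Normalized (fun n => ff (𝕜 := 𝕜) e n) := by
  intro n c hc z
  have hm0 : (0:ℝ) < m := by
    have : 0 < m := by omega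
    exact_mod_cast this
  have h1 : ∑ i, c i * ff e n i z = 2 * (m : 𝕜)⁻¹ * (∑ i, c i * xi i (fz e n z)
      - (2:𝕜)⁻¹ * ∑ i, c i * xin n i (fz e n z)) := by
    simp only [ff_apply, mul_sub, mul_sum, ← sum_sub_distrib]
    exact sum_congr rfl fun i _ => by ring
  have h2 := bessel_xi (univ : Finset (Fin m)) hc (norm_fz_le z)
  have h3 := bessel_xin n (univ : Finset (Fin m)) hc (norm_fz_le z)
  rw [card_univ, Fintype.card_fin] at h2 h3
  have h4 : ‖∑ i, c i * xi i (fz e n z) - (2:𝕜)⁻¹ * ∑ i, c i * xin n i (fz e n z)‖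
      ≤ 3 / 2 * (√m * ‖z‖) := by
    refine (norm_sub_le _ _).trans ?_
    have h5 : ‖(2:𝕜)⁻¹ * ∑ i, c i * xin n i (fz e n z)‖ ≤ 2⁻¹ * (√m * ‖z‖) := by
      rw [norm_mul, norm_inv]
      have h6 : ‖(2:𝕜)‖ = 2 := by simp
      rw [h6]
      gcongr
    linarith
  have h5 : 3 * √(m:ℝ) ≤ m := by
    have h6 : (3:ℝ) ≤ √(m:ℝ) := by
      apply Real.le_sqrt_of_sq_le
      have : (9:ℝ) ≤ m := by exact_mod_cast hm
      linarith
    calc 3 * √(m:ℝ) ≤ √(m:ℝ) * √(m:ℝ) := by gcongr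
      _ = m := Real.mul_self_sqrt hm0.le
  rw [h1, norm_mul, norm_mul, norm_inv, RCLike.norm_natCast]
  have h6 : ‖(2:𝕜)‖ = 2 := by simp
  rw [h6]
  calc 2 * (m:ℝ)⁻¹ * ‖∑ i, c i * xi i (fz e n z) - (2:𝕜)⁻¹ * ∑ i, c i * xin n i (fz e n z)‖
      ≤ 2 * (m:ℝ)⁻¹ * (3 / 2 * (√m * ‖z‖)) := by gcongr
    _ = (m:ℝ)⁻¹ * (3 * √m) * ‖z‖ := by ring
    _ ≤ (m:ℝ)⁻¹ * m * ‖z‖ := by gcongr
    _ = ‖z‖ := by rw [inv_mul_cancel₀ hm0.ne', one_mul]

end functionals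

section op

variable (e : (j : ℕ) → SS → XX m j → Bool)

/-- the space `E = ℓ₁^m` -/
def EE (𝕜 : Type) [RCLike 𝕜] (m : ℕ) : Type := PiLp 1 (fun _ : Fin m => 𝕜)

instance instNACGEE (𝕜 : Type) [RCLike 𝕜] (m : ℕ) : NormedAddCommGroup (EE 𝕜 m) :=
  inferInstanceAs (NormedAddCommGroup (PiLp 1 (fun _ : Fin m => 𝕜)))
instance instNSEE (𝕜 : Type) [RCLike 𝕜] (m : ℕ) : NormedSpace 𝕜 (EE 𝕜 m) :=
  inferInstanceAs (NormedSpace 𝕜 (PiLp 1 (fun _ : Fin m => 𝕜)))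
instance instCSEE (𝕜 : Type) [RCLike 𝕜] (m : ℕ) : CompleteSpace (EE 𝕜 m) :=
  inferInstanceAs (CompleteSpace (PiLp 1 (fun _ : Fin m => 𝕜)))
instance instFDEE (𝕜 : Type) [RCLike 𝕜] (m : ℕ) : FiniteDimensional 𝕜 (EE 𝕜 m) :=
  inferInstanceAs (FiniteDimensional 𝕜 (PiLp 1 (fun _ : Fin m => 𝕜)))

/-- coordinates in `E` -/
def ce : EE 𝕜 m →ₗ[𝕜] (Fin m → 𝕜) where
  toFun t := WithLp.ofLp (show PiLp 1 (fun _ : Fin m => 𝕜) from t)
  map_add' _ _ := rfl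
  map_smul' _ _ := rfl

theorem norm_EE (t : EE 𝕜 m) : ‖t‖ = ∑ i, ‖ce t i‖ :=
  PiLp.norm_eq_of_L1 (show PiLp 1 (fun _ : Fin m => 𝕜) from t)

/-- the basis of `E` -/
def be (𝕜 : Type) [RCLike 𝕜] (i : Fin m) : EE 𝕜 m :=
  (WithLp.toLp 1 (fun j => if i = j then 1 else 0) : PiLp 1 (fun _ : Fin m => 𝕜))

theorem ce_be (i j : Fin m) : ce (be 𝕜 i) j = if i = j then 1 else 0 := rfl

theorem norm_be (i : Fin m) : ‖be 𝕜 i‖ = 1 := by
  rw [norm_EE, sum_eq_single i]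
  · rw [ce_be, if_pos rfl, norm_one]
  · intro j _ hj
    rw [ce_be, if_neg (Ne.symm hj), norm_zero]
  · intro h; exact absurd (mem_univ _) h

theorem norm_psi_vt_le (t : Fin m → 𝕜) (ω : Om m) :
    ‖psi e (fun _ => (1:𝕜)) (vt t) ω‖ ≤ ∑ i, ‖t i‖ := by
  cases ω with
  | en g =>
    rw [psi_en]
    simp only [vt, DFinsupp.zero_apply, Pi.zero_apply, mul_zero, sum_const_zero, add_zero]
    exact norm_sum_mul_le fun i => (norm_hh i _).le
  | tr j p =>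
    rw [psi_tr]
    simp only [vt, DFinsupp.zero_apply, Pi.zero_apply, mul_zero, sum_const_zero, add_zero,
      norm_zero]
    positivity
  | ex k p =>
    rw [psi_ex]
    simp only [vt, DFinsupp.zero_apply, Pi.zero_apply, mul_zero, sum_const_zero, add_zero, one_mul]
    exact norm_sum_mul_le fun i => (norm_hh i _).le

/-- the bidual of `Y` -/
def BB (𝕜 : Type) [RCLike 𝕜] (e : (j : ℕ) → SS → XX m j → Bool) : Type :=
  StrongDual 𝕜 (StrongDual 𝕜 (YY 𝕜 e))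

instance instNACGBB : NormedAddCommGroup (BB 𝕜 e) :=
  inferInstanceAs (NormedAddCommGroup (StrongDual 𝕜 (StrongDual 𝕜 (YY 𝕜 e))))
instance instNSBB : NormedSpace 𝕜 (BB 𝕜 e) :=
  inferInstanceAs (NormedSpace 𝕜 (StrongDual 𝕜 (StrongDual 𝕜 (YY 𝕜 e))))
instance instCSBB : CompleteSpace (BB 𝕜 e) :=
  inferInstanceAs (CompleteSpace (StrongDual 𝕜 (StrongDual 𝕜 (YY 𝕜 e))))

/-- the embedding of the coordinates into the bidual -/
def JB : VV 𝕜 m →ₗ[𝕜] BB 𝕜 e where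
  toFun v := (Jl e v : StrongDual 𝕜 (StrongDual 𝕜 (YY 𝕜 e)))
  map_add' v w := map_add (Jl e) v w
  map_smul' c v := map_smul (Jl e) c v

theorem norm_JB_le (v : VV 𝕜 m) {C : ℝ} (hC : 0 ≤ C)
    (h : ∀ ω, ‖psi e (fun _ => (1:𝕜)) v ω‖ ≤ C) : ‖JB e v‖ ≤ C := norm_Jl_le e v hC h

/-- the operator, as a linear map -/
def TL : EE 𝕜 m →ₗ[𝕜] BB 𝕜 e := (JB e).comp (vtL.comp ce)

theorem TL_apply (t : EE 𝕜 m) : TL e t = JB e (vt (ce t)) := rfl

theorem norm_TL_le (t : EE 𝕜 m) : ‖TL e t‖ ≤ 1 * ‖t‖ := by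
  rw [one_mul, norm_EE, TL_apply]
  exact norm_JB_le e _ (by positivity) (norm_psi_vt_le e _)

/-- the operator -/
def TT : EE 𝕜 m →L[𝕜] BB 𝕜 e := LinearMap.mkContinuous (TL e) 1 (norm_TL_le e)

theorem TT_apply (t : EE 𝕜 m) : TT e t = JB e (vt (ce t)) := rfl

theorem norm_TT_le : ‖TT (𝕜 := 𝕜) e‖ ≤ 1 := LinearMap.mkContinuous_norm_le _ zero_le_one _

/-- the operator, with the bidual as its target -/
def TU : EE 𝕜 m →L[𝕜] StrongDual 𝕜 (StrongDual 𝕜 (YY 𝕜 e)) := TT e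

theorem TU_xiY (t : EE 𝕜 m) (i : Fin m) : TU e t (xiY e i) = ce t i := Jl_xiY e _ i

/-- the linear map attached to a contraction -/
def Lam {n : ℕ} (α : BB 𝕜 e →L[𝕜] ZZ 𝕜 e n) : VV 𝕜 m →ₗ[𝕜] (Om m → 𝕜) :=
  (fz e n).comp ((α : BB 𝕜 e →ₗ[𝕜] ZZ 𝕜 e n).comp (JB e))

theorem Lam_apply {n : ℕ} (α : BB 𝕜 e →L[𝕜] ZZ 𝕜 e n)
    (v : VV 𝕜 m) : Lam e α v = fz e n (α (JB e v)) := rfl

theorem nrmF_TT_le (hm : 9 ≤ m) {S : Finset 𝕜}
    (hS : ∀ z : 𝕜, ∃ ω ∈ S, 0.99 * ‖z‖ ≤ RCLike.re (ω * z))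
    (hU : ∀ (n : ℕ) (Λ : VV 𝕜 m →ₗ[𝕜] (Om m → 𝕜)),
      (∀ v C, 0 ≤ C → (∀ ω, ‖psi e (fun _ => (1:𝕜)) v ω‖ ≤ C) → ∀ ω, ‖Λ v ω‖ ≤ C) →
      (∀ v, RelN e n (Λ v)) →
      ∀ (φ : Fin m → Fin m) (ω : Fin m → 𝕜), (∀ i, ω i ∈ insert 0 S) →
      (∀ q, (univ.filter fun i => ω i ≠ 0 ∧ φ i = q).card ≤ 10000) →
      ‖b0 (Vmat φ ω) Λ - (2:𝕜)⁻¹ * bn (Vmat φ ω) Λ n‖ ≤ 0.895) :
    nrmF (fun n => ff (𝕜 := 𝕜) e n) (TT e) ≤ 1.9 := by
  refine nrmF_le ((norm_TT_le e).trans (by norm_num)) ?_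
  intro n α x hα hx
  have H1 : ∀ v C, 0 ≤ C → (∀ ω, ‖psi e (fun _ => (1:𝕜)) v ω‖ ≤ C) → ∀ ω, ‖Lam e α v ω‖ ≤ C := by
    intro v C hC h ω
    rw [Lam_apply]
    exact (norm_fz_le _ ω).trans ((norm_apply_le_of_op_le hα _).trans (norm_JB_le e v hC h))
  have H2 : ∀ v, RelN e n (Lam e α v) := fun v => relN_fz _
  have h1 := final_est (e := e) (Λ := Lam e α) (n := n) (by omega : 0 < m)
    (by norm_num : 1 ≤ 10000) hS H1 (hU n (Lam e α) H1 H2)
    (fun i => ce (x i)) (fun i => by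
      have := hx i
      rwa [norm_EE] at this)
  have h2 : ∑ i, ff e n i (α (TT e (x i))) = 2 * ((m : 𝕜)⁻¹ * ∑ i,
      (xi i (Lam e α (vt (ce (x i))))
        - (2:𝕜)⁻¹ * xin n i (Lam e α (vt (ce (x i)))))) := by
    rw [← mul_assoc, mul_sum]
    refine sum_congr rfl fun i _ => ?_
    rw [ff_apply, TT_apply, Lam_apply]
  rw [h2, norm_mul]
  have h3 : ‖(2:𝕜)‖ = 2 := by simp
  have h4 : √((10000 : ℕ) : ℝ) = 100 := by
    rw [show ((10000 : ℕ) : ℝ) = 100 ^ 2 by norm_num, Real.sqrt_sq (by norm_num)]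
  rw [h4] at h1
  rw [h3]
  have h5 : (0.895 / 0.99 + 1.5 / 100 : ℝ) ≤ 0.95 := by norm_num
  linarith

theorem two_le_nrmF (hm : 9 ≤ m) (S : EE 𝕜 m →L[𝕜] YY 𝕜 e)
    (hS : ∀ (i i' : Fin m), xiY e i (S (be 𝕜 i'))
      = TU e (be 𝕜 i') (xiY e i)) :
    2 ≤ nrmF (fun n => ff (𝕜 := 𝕜) e n) S := by
  have hf := normalized_ff (𝕜 := 𝕜) (e := e) hm
  have hm0 : (m:𝕜) ≠ 0 := by
    have : m ≠ 0 := by omega
    exact_mod_cast this
  set y : Fin m → YY 𝕜 e := fun i => S (be 𝕜 i) with hy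
  have h1 : ∀ i, xi i (fy e (y i)) = 1 := by
    intro i
    rw [← xiY_apply, hy, hS i i, TU_xiY, ce_be, if_pos rfl]
  have h2 : ∀ n, ‖2 * (m : 𝕜)⁻¹ * ∑ i, (1 - (2:𝕜)⁻¹ * xin n i (fy e (y i)))‖
      ≤ nrmF (fun n => ff (𝕜 := 𝕜) e n) S := by
    intro n
    have h3 := le_nrmF hf S n (restr e n) (fun i => be 𝕜 i) (norm_restr_le e n)
      (fun i => (norm_be i).le)
    refine le_trans (le_of_eq ?_) h3
    congr 1
    rw [mul_sum]
    refine sum_congr rfl fun i _ => ?_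
    show _ = ff e n i (restr e n (y i))
    rw [ff_apply, xi_fz_restr, xin_fz_restr, h1]
  have h3 : Tendsto (fun n => 2 * (m : 𝕜)⁻¹ * ∑ i, (1 - (2:𝕜)⁻¹ * xin n i (fy e (y i)))) atTop
      (𝓝 (2 * (m : 𝕜)⁻¹ * ∑ _i : Fin m, (1 - (2:𝕜)⁻¹ * 0))) :=
    (tendsto_finsetSum _ fun i _ => ((tendsto_fy (y i) i).const_mul _).const_sub _).const_mul _
  have h4 : 2 * (m : 𝕜)⁻¹ * ∑ _i : Fin m, (1 - (2:𝕜)⁻¹ * 0) = 2 := by
    simp only [mul_zero, sub_zero, sum_const, card_univ, Fintype.card_fin, nsmul_eq_mul, mul_one]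
    rw [mul_assoc, inv_mul_cancel₀ hm0, mul_one]
  rw [h4] at h3
  have h5 := le_of_tendsto h3.norm (Eventually.of_forall h2)
  simpa using h5

end op

/-- the space `E` as a Banach space -/
def BE (𝕜 : Type) [RCLike 𝕜] (m : ℕ) : Ban 𝕜 := ⟨EE 𝕜 m⟩

/-- the space `Y` as a Banach space -/
def BY (e : (j : ℕ) → SS → XX m j → Bool) : Ban 𝕜 := ⟨YY 𝕜 e⟩

/-- the operator `T` -/
def TB (e : (j : ℕ) → SS → XX m j → Bool) : (BE 𝕜 m).Op (BY e).dual.dual := TT (𝕜 := 𝕜) e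

/-- There is a maximal Banach ideal `A` and an operator `T` from some `ℓ₁^m` into a bidual, such
that for some finite dimensional space `F` of functionals no operator `S` into the space itself
which acts as `T` on `F` satisfies `A(S) ≤ 1.02 A(T)`. -/
theorem exists_ideal (𝕜 : Type) [RCLike 𝕜] : ∃ A : OpFamily 𝕜, A.IsBanachIdeal ∧ A.IsMaximal ∧
    ∃ (E Y : Ban 𝕜) (_ : E.FinDim) (F : Y.dual.Sub)
      (_ : FiniteDimensional 𝕜 F) (T : E.Op Y.dual.dual),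
      ∀ S : E.Op Y, (∀ x : E.carrier, ∀ y' ∈ F, Y.pair y' (S.app x) = Y.dual.pair (T.app x) y') →
        (1 + 1 / 50) * A.nrm E Y.dual.dual T < A.nrm E Y S := by
  obtain ⟨m, e, N, hm, hN, hU⟩ := exists_params 𝕜
  have hn := normalized_ff (𝕜 := 𝕜) (e := e) hm
  refine ⟨famF (fun n => ff (𝕜 := 𝕜) e n), famF_isBanachIdeal hn, famF_isMaximal hn, BE 𝕜 m,
    BY e, instFDEE 𝕜 m, Submodule.span 𝕜 (Set.range (xiY e)),
    FiniteDimensional.span_of_finite 𝕜 (Set.finite_range _), TB e, fun S hS => ?_⟩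
  have h1 := nrmF_TT_le e hm hN hU
  have h2 := two_le_nrmF e hm S (fun i i' =>
    hS _ _ (Submodule.subset_span ⟨i, rfl⟩))
  have h3 : (famF (fun n => ff (𝕜 := 𝕜) e n)).nrm (BE 𝕜 m) (BY e).dual.dual (TB e) ≤ 1.9 := h1
  have h4 : 2 ≤ (famF (fun n => ff (𝕜 := 𝕜) e n)).nrm (BE 𝕜 m) (BY e) S := h2
  linarith

end

end Pool.Agent.Lib.MP_ffba67_an
end
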